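import Pool.Agent.Work.MP_8f87b2_h59.R3J
import Pool.Agent.Work.MP_8f87b2_h84.Inn2

/-!
# MP_8f87b2_co: the right windows R3, S3 (`c = 3`) against the gadgets J1a: `(s, 3)` right and `(s, 4)` mirrored

words and inner words, both directions
-/

set_option autoImplicit false
set_option linter.unusedSimpArgs false

namespace Pool.OddHC

open Finset Equiv BinaryTree Pool.Agent.Work.MP_8f87b2_co HM

namespace J59

open J

variable {k n s c : ℕ} {R B S A : BinaryTree Unit}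

/-- the words of J1a at `[s][3]` : number of parts 1, number of components, first and last component -/
theorem j1_sig (hs : 4 ≤ s) {w : BinaryTree Unit} (h : IsJ1 s 3 w) :
    (J.o1 w = 2 ∧ nc w = 4) ∨ (J.o1 w = 0 ∧ (nc w = 3 ∨ nc w = 1)) ∨
    (J.o1 w = 1 ∧ (nc w = 1 ∨ (nc w = 3 ∧ (fs w = .nil ∨ ls w = .nil)) ∨
      (nc w = 2 ∧ ls w = .nil ∧ nc (fs w) = 2) ∨ (nc w = 2 ∧ fs w = .nil ∧ nc (ls w) = 2) ∨
      (nc w = 2 ∧ 2 ≤ OddHC.ht (fs w) ∧ 2 ≤ OddHC.ht (ls w)))) := by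
  obtain ⟨m, rfl⟩ : ∃ m, s = m + 4 := ⟨s - 4, by omega⟩
  obtain ⟨i, hi, rfl⟩ := h
  have h00 : OddHC.ht (BinaryTree.nil : BinaryTree Unit) = 0 := rfl
  have hS : OddHC.ht (H1.ch (m + 4)) = m + 4 := H1.ch_ht _
  have hB : OddHC.ht (H1.ch 3) = 3 := H1.ch_ht _
  have oS : J.o1 (H1.ch (m + 4)) = 0 := o1_ch (m + 1)
  have oB : J.o1 (H1.ch 3) = 0 := o1_ch 0
  have z1 : J.o1 (BinaryTree.nil : BinaryTree Unit) = 0 := rfl
  have n1 : ∀ {A : BinaryTree Unit} (C : BinaryTree Unit), 2 ≤ OddHC.ht A →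
      J.o1 (A △ C) = J.o1 A + J.o1 C := fun C h => o1_hi h C
  have key : ∀ {v : BinaryTree Unit} {P : Prop} (j : ℕ), J.o1 v = j → (J.o1 v = j → P) → P :=
    fun j h1 h2 => h2 h1
  interval_cases i
  · have e : J.o1 (app (app (H1.ch (m + 4)) (H1.ch 3)) ((.nil △ .nil) △ .nil)) = 0 := by
      rw [o1_app, o1_app, o1_l1, oS, oB, z1]
    exact Or.inr (Or.inl ⟨e, Or.inl rfl⟩)
  · have e : J.o1 (app (app (H1.ch (m + 4)) (H1.ch 3)) (.nil △ (.nil △ .nil))) = 2 := by
      rw [o1_app, o1_app, o1_o, o1_o, oS, oB, z1]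
    exact Or.inl ⟨e, rfl⟩
  · have e : J.o1 (.nil △ app (app (H1.ch (m + 4)) (H1.ch 3)) (.nil △ .nil)) = 2 := by
      rw [o1_o, o1_app, o1_app, o1_o, oS, oB, z1]
    exact Or.inl ⟨e, rfl⟩
  · have e : J.o1 (app (app (H1.ch (m + 4)) (H1.ch 3)) (.nil △ .nil) △ .nil) = 1 := by
      rw [n1 _ (by rw [ht_app, ht_app]; omega), o1_app, o1_app, o1_o, oS, oB, z1]
    exact Or.inr (Or.inr ⟨e, Or.inl rfl⟩)
  · have e : J.o1 ((.nil △ .nil) △ app (H1.ch (m + 4)) (H1.ch 3)) = 0 := by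
      rw [o1_l1, o1_app, oS, oB]
    exact Or.inr (Or.inl ⟨e, Or.inl rfl⟩)
  · have e : J.o1 (.nil △ (.nil △ app (H1.ch (m + 4)) (H1.ch 3))) = 2 := by
      rw [o1_o, o1_o, o1_app, oS, oB]
    exact Or.inl ⟨e, rfl⟩
  · have e : J.o1 (app (H1.ch (m + 4)) (H1.ch 3) △ (.nil △ .nil)) = 1 := by
      rw [n1 _ (by rw [ht_app]; omega), o1_app, o1_o, oS, oB, z1]
    exact Or.inr (Or.inr ⟨e, Or.inr (Or.inr (Or.inl ⟨rfl, rfl, rfl⟩))⟩)
  · have e : J.o1 ((.nil △ app (H1.ch (m + 4)) (H1.ch 3)) △ .nil) = 1 := by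
      rw [n1 _ (by rw [ht_node, ht_app]; omega), o1_o, o1_app, oS, oB, z1]
    exact Or.inr (Or.inr ⟨e, Or.inl rfl⟩)
  · have e : J.o1 (.nil △ (app (H1.ch (m + 4)) (H1.ch 3) △ .nil)) = 1 := by
      rw [o1_o, n1 _ (by rw [ht_app]; omega), o1_app, oS, oB, z1]
    exact Or.inr (Or.inr ⟨e, Or.inr (Or.inr (Or.inr (Or.inl ⟨rfl, rfl, rfl⟩)))⟩)
  · have e : J.o1 ((app (H1.ch (m + 4)) (H1.ch 3) △ .nil) △ .nil) = 0 := by
      rw [n1 _ (by rw [ht_node, ht_app]; omega), n1 _ (by rw [ht_app]; omega), o1_app, oS, oB, z1]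
    exact Or.inr (Or.inl ⟨e, Or.inr rfl⟩)
  · have e : J.o1 (app (H1.ch 3) ((.nil △ .nil) △ H1.ch (m + 4))) = 0 := by
      rw [o1_app, o1_l1, oS, oB]
    exact Or.inr (Or.inl ⟨e, Or.inl rfl⟩)
  · have e : J.o1 (app (H1.ch 3) (.nil △ (.nil △ H1.ch (m + 4)))) = 2 := by
      rw [o1_app, o1_o, o1_o, oS, oB]
    exact Or.inl ⟨e, rfl⟩
  · have e : J.o1 (H1.ch (m + 4) △ app (H1.ch 3) (.nil △ .nil)) = 1 := by
      rw [n1 _ (by omega), o1_app, o1_o, oS, oB, z1]
    exact Or.inr (Or.inr ⟨e, Or.inr (Or.inl ⟨rfl, Or.inr rfl⟩)⟩)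
  · have e : J.o1 (app (H1.ch (m + 4)) (app (H1.ch 3) (.nil △ .nil) △ .nil)) = 1 := by
      rw [o1_app, n1 _ (by rw [ht_app]; omega), o1_app, o1_o, oS, oB, z1]
    refine Or.inr (Or.inr ⟨e, Or.inr (Or.inr (Or.inr (Or.inr ⟨rfl, ?_, ?_⟩)))⟩)
    · change 2 ≤ OddHC.ht (H1.ch (m + 3))
      rw [H1.ch_ht]; omega
    · change 2 ≤ OddHC.ht (app (H1.ch 3) (.nil △ .nil))
      rw [ht_app]; omega
  · have e : J.o1 ((.nil △ H1.ch (m + 4)) △ H1.ch 3) = 1 := by
      rw [n1 _ (by rw [ht_node]; omega), o1_o, oS, oB]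
    refine Or.inr (Or.inr ⟨e, Or.inr (Or.inr (Or.inr (Or.inr ⟨rfl, ?_, ?_⟩)))⟩)
    · change 2 ≤ OddHC.ht (.nil △ H1.ch (m + 4))
      rw [ht_node]; omega
    · change 2 ≤ OddHC.ht (H1.ch 2)
      rw [H1.ch_ht]
  · have e : J.o1 (.nil △ (H1.ch (m + 4) △ H1.ch 3)) = 1 := by
      rw [o1_o, n1 _ (by omega), oS, oB]
    exact Or.inr (Or.inr ⟨e, Or.inr (Or.inl ⟨rfl, Or.inl rfl⟩)⟩)
  · have e : J.o1 (app (H1.ch (m + 4)) (H1.ch 3 △ (.nil △ .nil))) = 1 := by
      rw [o1_app, n1 _ (by omega), o1_o, oS, oB, z1]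
    exact Or.inr (Or.inr ⟨e, Or.inr (Or.inl ⟨rfl, Or.inr rfl⟩)⟩)
  · have e : J.o1 ((H1.ch (m + 4) △ H1.ch 3) △ .nil) = 0 := by
      rw [n1 _ (by rw [ht_node]; omega), n1 _ (by omega), oS, oB, z1]
    exact Or.inr (Or.inl ⟨e, Or.inr rfl⟩)
  · have e : J.o1 (.nil △ app (H1.ch (m + 4)) (H1.ch 3 △ .nil)) = 1 := by
      rw [o1_o, o1_app, n1 _ (by omega), oS, oB, z1]
    exact Or.inr (Or.inr ⟨e, Or.inr (Or.inl ⟨rfl, Or.inl rfl⟩)⟩)
  · have e : J.o1 (app (H1.ch (m + 4)) (H1.ch 3 △ .nil) △ .nil) = 0 := by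
      rw [n1 _ (by rw [ht_app]; omega), o1_app, n1 _ (by omega), oS, oB, z1]
    exact Or.inr (Or.inl ⟨e, Or.inr rfl⟩)

/-- a tree with one part is a chain -/
theorem eq_pc_of_card : ∀ {t : BinaryTree Unit}, Multiset.card (OddHC.cont t) = 1 → t = pc (OddHC.ht t) := by
  intro t
  induction t with
  | nil => intro h; simp [cont_nil] at h
  | node u A C ihA ihC =>
    intro h
    have h1 : Multiset.card (OddHC.cont (A △ C)) = 1 := h
    rw [cont_node, Multiset.card_add] at h1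
    have h2 : 1 ≤ Multiset.card (raise (OddHC.cont A)) := by
      unfold raise
      rw [Multiset.card_cons]
      omega
    have hC : C = .nil := cont_eq_zero.1 (Multiset.card_eq_zero.1 (by omega))
    subst hC
    have h3 : Multiset.card (raise (OddHC.cont A)) = 1 := by omega
    by_cases hA : A = .nil
    · subst hA; rfl
    · have h4 : OddHC.cont A ≠ 0 := fun e => hA (cont_eq_zero.1 e)
      have h5 : Multiset.card (OddHC.cont A) = 1 := by
        unfold raise at h3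
        rw [Multiset.card_cons, Multiset.card_erase_of_mem (sup_mem h4), Nat.pred_eq_sub_one] at h3
        have := Multiset.card_pos.2 h4
        omega
      have h6 := ihA h5
      change A △ .nil = pc (OddHC.ht (A △ .nil))
      rw [ht_node]
      have : OddHC.ht (BinaryTree.nil : BinaryTree Unit) = 0 := rfl
      rw [this, Nat.max_zero]
      change A △ .nil = pc (OddHC.ht A) △ .nil
      rw [← h6]

theorem hv3_card {X : BinaryTree Unit} (h : hv3 X) : Multiset.card (OddHC.cont X) = t3 X := by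
  have := c3_all (M := OddHC.cont X) h
  exact this.symm

/-- two solitons and clean phase: `B = nil` -/
theorem B_nil (h : NodeM k 0 R B S) (h2 : t3 R = 2) (hc : ClR B S) : B = .nil := by
  by_contra hB
  have h3 := t3BS h
  have hBc := hv3_card (nB h)
  have hSc := hv3_card (nS h)
  have b1 : 1 ≤ Multiset.card (OddHC.cont B) := Multiset.card_pos.2 fun e => hB (cont_eq_zero.1 e)
  have s1 : 1 ≤ Multiset.card (OddHC.cont S) := Multiset.card_pos.2 fun e => neS h (cont_eq_zero.1 e)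
  have s2 : Multiset.card (OddHC.cont S) = 1 := by omega
  have b2 : Multiset.card (OddHC.cont B) = 1 := by omega
  obtain ⟨x, hx⟩ := Multiset.card_eq_one.1 s2
  obtain ⟨y, hy⟩ := Multiset.card_eq_one.1 b2
  have hx2 : x = OddHC.ht S := by rw [OddHC.ht_eq, hx, Multiset.sup_singleton]
  have hy2 : y = OddHC.ht B := by rw [OddHC.ht_eq, hy, Multiset.sup_singleton]
  have ht := h.top
  have hSR := htSR h
  have hm := h.mem
  rw [← h.eq, hx, hy] at hm
  have hy3 : y = 3 := by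
    simp only [Multiset.mem_add, Multiset.mem_singleton] at hm
    omega
  apply hc.2
  refine ⟨?_, ?_⟩
  · have := eq_pc_of_card b2
    rw [this, ← hy2, hy3]
  · rw [hx, Multiset.mem_singleton]
    omega

theorem fsR (h : hv3 A) (h0 : A ≠ .nil) : fs A ≠ .nil := by
  cases A with
  | nil => exact absurd rfl h0
  | node u X Y =>
    intro e
    change X = .nil at e
    subst e
    have := h 1 (by
      change 1 ∈ OddHC.cont (.nil △ Y)
      rw [cont_node, Multiset.mem_add]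
      left
      rw [cont_nil, raise_zero]
      simp)
    omega

theorem lsR (h : hv3 A) (h0 : A ≠ .nil) : ls A ≠ .nil := by
  induction A with
  | nil => exact absurd rfl h0
  | node u X Y _ ih =>
    by_cases hY : Y = .nil
    · subst hY
      exact fsR h h0
    · change ls (X △ Y) ≠ .nil
      rw [ls_node _ hY]
      exact ih (fun x hx => h x (by
        change x ∈ OddHC.cont (X △ Y)
        rw [cont_node]
        exact Multiset.mem_add.2 (Or.inr hx))) hY

/-- **no word of a clean window is a word of J1a at `[s][3]`** -/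
theorem w_j1 (h : NodeM k 0 R B S) (hc : ClR B S) (hs : 4 ≤ s) {i : ℕ} (hi : i < 20) :
    ¬ IsJ1 s 3 (H1.W R (H1.ch (0 + 1)) B S i) := by
  intro hj
  have hR := nR h
  have hB := nB h
  have hS := nS h
  have h1 := htSR h
  have h2 := h.top
  have h3 := t3R h
  have h4 := t3BS h
  have oR := hR.o1
  have oS := hS.o1
  have hR0 : R ≠ .nil := h.ne
  have hS0 := neS h
  have nR1 := nc_pos hR0
  have nS1 := nc_pos hS0
  have fR := fsR hR hR0
  have fS := fsR hS hS0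
  have lR := lsR hR hR0
  have lS := lsR hS hS0
  have z3 : t3 (BinaryTree.nil : BinaryTree Unit) = 0 := rfl
  have z1 : J.o1 (BinaryTree.nil : BinaryTree Unit) = 0 := rfl
  have z0 : OddHC.ht (BinaryTree.nil : BinaryTree Unit) = 0 := rfl
  have c3' : t3 (((.nil △ .nil) △ .nil) △ .nil) = 1 := by decide
  have e2 := hj.t3 (by omega) le_rfl
  have hsg := j1_sig hs hj
  have hB0 : t3 R = 2 → B = .nil := fun e => B_nil h e hc
  interval_cases i
  · -- 0
    change t3 (app R (((.nil △ .nil) △ .nil) △ .nil)) = 2 at e2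
    rw [t3_app] at e2; omega
  · -- 1
    have e : J.o1 (H1.W R (H1.ch (0 + 1)) B S 1) = 3 := by
      change J.o1 (app R (.nil △ (.nil △ (.nil △ .nil)))) = 3
      rw [o1_app, o1_o, o1_o, o1_o]; omega
    rw [e] at hsg; omega
  · -- 2
    have e : J.o1 (H1.W R (H1.ch (0 + 1)) B S 2) = 3 := by
      change J.o1 (.nil △ app R (.nil △ (.nil △ .nil))) = 3
      rw [o1_o, o1_app, o1_o, o1_o]; omega
    rw [e] at hsg; omega
  · -- 3
    have e : J.o1 (H1.W R (H1.ch (0 + 1)) B S 3) = 2 := by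
      change J.o1 (app R (.nil △ (.nil △ .nil)) △ .nil) = 2
      rw [o1_hi (by rw [ht_app]; omega), o1_app, o1_o, o1_o]; omega
    have e' : nc (H1.W R (H1.ch (0 + 1)) B S 3) = 1 := rfl
    rw [e, e'] at hsg; omega
  · -- 4
    have e : J.o1 (H1.W R (H1.ch (0 + 1)) B S 4) = 1 := by
      change J.o1 ((.nil △ (.nil △ .nil)) △ R) = 1
      have : J.o1 ((.nil △ (.nil △ .nil)) △ R) = 1 + J.o1 R := by rw [o1_node]; rfl
      omega
    have e' : nc (H1.W R (H1.ch (0 + 1)) B S 4) = nc R + 1 := rfl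
    have e3 : fs (H1.W R (H1.ch (0 + 1)) B S 4) = .nil △ (.nil △ .nil) := rfl
    have e4 : ls (H1.W R (H1.ch (0 + 1)) B S 4) = ls R := ls_node _ hR0
    have e5 : OddHC.ht (.nil △ (.nil △ .nil) : BinaryTree Unit) = 1 := by decide
    rw [e, e', e3, e4, e5] at hsg
    rcases hsg with ⟨h5, _⟩ | ⟨h5, _⟩ | ⟨_, h5 | ⟨_, h5 | h5⟩ | ⟨_, h5, _⟩ | ⟨_, h5, _⟩ | ⟨_, h5, _⟩⟩
    · omega
    · omega
    · omega
    · simp at h5
    · exact lR h5
    · exact lR h5
    · simp at h5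
    · omega
  · -- 5
    have e : J.o1 (H1.W R (H1.ch (0 + 1)) B S 5) = 1 := by
      change J.o1 ((.nil △ .nil) △ (.nil △ R)) = 1
      rw [o1_l1, o1_o]; omega
    have e' : nc (H1.W R (H1.ch (0 + 1)) B S 5) = nc R + 1 + 1 := rfl
    have e3 : fs (H1.W R (H1.ch (0 + 1)) B S 5) = .nil △ .nil := rfl
    have e4 : ls (H1.W R (H1.ch (0 + 1)) B S 5) = ls R := by
      change ls ((.nil △ .nil) △ (.nil △ R)) = _
      rw [ls_node _ (by simp), ls_node _ hR0]
    rw [e, e', e3, e4] at hsg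
    rcases hsg with ⟨h5, _⟩ | ⟨h5, _⟩ | ⟨_, h5 | ⟨_, h5 | h5⟩ | ⟨h5, _, _⟩ | ⟨h5, _, _⟩ | ⟨h5, _, _⟩⟩
    · omega
    · omega
    · omega
    · simp at h5
    · exact lR h5
    · omega
    · omega
    · omega
  · -- 6
    have e : J.o1 (H1.W R (H1.ch (0 + 1)) B S 6) = 0 := by
      change J.o1 (R △ ((.nil △ .nil) △ .nil)) = 0
      rw [hR.o1n hR0, o1_l1]; rfl
    have e' : nc (H1.W R (H1.ch (0 + 1)) B S 6) = 2 := rfl
    rw [e, e'] at hsg; omega
  · -- 7
    have e : J.o1 (H1.W R (H1.ch (0 + 1)) B S 7) = 2 := by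
      change J.o1 (.nil △ ((.nil △ R) △ .nil)) = 2
      rw [o1_o, o1_hi (by rw [ht_node]; omega), o1_o]; omega
    have e' : nc (H1.W R (H1.ch (0 + 1)) B S 7) = 2 := rfl
    rw [e, e'] at hsg; omega
  · -- 8
    have e : J.o1 (H1.W R (H1.ch (0 + 1)) B S 8) = 2 := by
      change J.o1 (.nil △ (.nil △ (R △ .nil))) = 2
      rw [o1_o, o1_o, hR.o1n hR0]; rfl
    have e' : nc (H1.W R (H1.ch (0 + 1)) B S 8) = 3 := rfl
    rw [e, e'] at hsg; omega
  · -- 9
    have e : J.o1 (H1.W R (H1.ch (0 + 1)) B S 9) = 1 := by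
      change J.o1 ((R △ .nil) △ (.nil △ .nil)) = 1
      rw [o1_hi (by rw [ht_node]; omega), hR.o1n hR0]; rfl
    have e' : nc (H1.W R (H1.ch (0 + 1)) B S 9) = 2 := rfl
    have e3 : fs (H1.W R (H1.ch (0 + 1)) B S 9) = R △ .nil := rfl
    have e4 : ls (H1.W R (H1.ch (0 + 1)) B S 9) = .nil := rfl
    have e5 : nc (R △ .nil) = 1 := rfl
    rw [e, e', e3, e4, e5] at hsg
    rcases hsg with ⟨h5, _⟩ | ⟨h5, _⟩ | ⟨_, h5 | ⟨h5, _⟩ | ⟨_, _, h5⟩ | ⟨_, h5, _⟩ | ⟨_, _, h5⟩⟩
    · omega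
    · omega
    · omega
    · omega
    · omega
    · simp at h5
    · omega
  · -- 10
    change t3 (app B (((.nil △ .nil) △ .nil) △ S)) = 2 at e2
    have h5 : t3 (((.nil △ .nil) △ .nil) △ S) = 1 + t3 S := by
      rw [t3_node]; rfl
    rw [t3_app, h5] at e2
    omega
  · -- 11
    have e : J.o1 (H1.W R (H1.ch (0 + 1)) B S 11) = 3 := by
      change J.o1 (app B (.nil △ (.nil △ (.nil △ S)))) = 3
      rw [o1_app, o1_o, o1_o, o1_o, hB.o1]; omega
    rw [e] at hsg; omega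
  · -- 12
    change t3 (S △ app B (.nil △ (.nil △ .nil))) = 2 at e2
    rw [hS.t3n, t3_app, t3_o, t3_o] at e2
    have hb := hB0 (by omega)
    subst hb
    have e : J.o1 (H1.W R (H1.ch (0 + 1)) .nil S 12) = 2 := by
      change J.o1 (S △ (.nil △ (.nil △ .nil))) = 2
      rw [hS.o1n hS0]; rfl
    have e' : nc (H1.W R (H1.ch (0 + 1)) .nil S 12) = 3 := rfl
    rw [e, e'] at hsg; omega
  · -- 13
    have hb : B = .nil := by
      change t3 (app S (app B (.nil △ (.nil △ .nil)) △ .nil)) = 2 at e2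
      by_contra hb
      have := hB.ht hb
      rw [t3_app, t3_hi (by rw [ht_app]; omega), t3_app, t3_o, t3_o] at e2
      exact hb (hB0 (by omega))
    subst hb
    have e : J.o1 (H1.W R (H1.ch (0 + 1)) .nil S 13) = 1 := by
      change J.o1 (app S ((.nil △ (.nil △ .nil)) △ .nil)) = 1
      have h6 : J.o1 ((.nil △ (.nil △ .nil)) △ .nil) = 1 := by
        rw [o1_node]; decide
      rw [o1_app, h6]; omega
    have e' : nc (H1.W R (H1.ch (0 + 1)) .nil S 13) = nc S + 1 := by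
      change nc (app S ((.nil △ (.nil △ .nil)) △ .nil)) = _
      rw [nc_app]; rfl
    have e3 : fs (H1.W R (H1.ch (0 + 1)) .nil S 13) = fs S := fs_app hS0 _
    have e4 : ls (H1.W R (H1.ch (0 + 1)) .nil S 13) = .nil △ (.nil △ .nil) := by
      change ls (app S ((.nil △ (.nil △ .nil)) △ .nil)) = _
      rw [ls_app _ (by simp), ls_single]
    have e5 : OddHC.ht (.nil △ (.nil △ .nil) : BinaryTree Unit) = 1 := by decide
    rw [e, e', e3, e4, e5] at hsg
    rcases hsg with ⟨h5, _⟩ | ⟨h5, _⟩ | ⟨_, h5 | ⟨_, h5 | h5⟩ | ⟨_, h5, _⟩ | ⟨_, h5, _⟩ | ⟨_, _, h5⟩⟩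
    · omega
    · omega
    · omega
    · exact fS h5
    · simp at h5
    · simp at h5
    · exact fS h5
    · omega
  · -- 14
    change t3 ((.nil △ (.nil △ S)) △ B) = 2 at e2
    rw [t3_hi (by rw [ht_node, ht_node]; omega), t3_o, t3_o] at e2
    have hb := hB0 (by omega)
    subst hb
    have e : J.o1 (H1.W R (H1.ch (0 + 1)) .nil S 14) = 2 := by
      change J.o1 ((.nil △ (.nil △ S)) △ .nil) = 2
      rw [o1_hi (by rw [ht_node, ht_node]; omega), o1_o, o1_o]; omega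
    have e' : nc (H1.W R (H1.ch (0 + 1)) .nil S 14) = 1 := rfl
    rw [e, e'] at hsg; omega
  · -- 15
    change t3 ((.nil △ .nil) △ (S △ B)) = 2 at e2
    rw [t3_l1, hS.t3n] at e2
    have hb := hB0 (by omega)
    subst hb
    have e : J.o1 (H1.W R (H1.ch (0 + 1)) .nil S 15) = 0 := by
      change J.o1 ((.nil △ .nil) △ (S △ .nil)) = 0
      rw [o1_l1, hS.o1n hS0]; rfl
    have e' : nc (H1.W R (H1.ch (0 + 1)) .nil S 15) = 2 := rfl
    rw [e, e'] at hsg; omega
  · -- 16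
    change t3 (app S (B △ ((.nil △ .nil) △ .nil))) = 2 at e2
    rw [t3_app, hB.t3n, t3_l1] at e2
    have hb := hB0 (by omega)
    subst hb
    have e : J.o1 (H1.W R (H1.ch (0 + 1)) .nil S 16) = 1 := by
      change J.o1 (app S (.nil △ ((.nil △ .nil) △ .nil))) = 1
      rw [o1_app, o1_o, o1_l1]; omega
    have e' : nc (H1.W R (H1.ch (0 + 1)) .nil S 16) = nc S + 2 := by
      change nc (app S (.nil △ ((.nil △ .nil) △ .nil))) = _
      rw [nc_app]; rfl
    have e3 : fs (H1.W R (H1.ch (0 + 1)) .nil S 16) = fs S := fs_app hS0 _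
    have e4 : ls (H1.W R (H1.ch (0 + 1)) .nil S 16) = .nil △ .nil := by
      change ls (app S (.nil △ ((.nil △ .nil) △ .nil))) = _
      rw [ls_app _ (by simp)]; rfl
    rw [e, e', e3, e4] at hsg
    rcases hsg with ⟨h5, _⟩ | ⟨h5, _⟩ | ⟨_, h5 | ⟨_, h5 | h5⟩ | ⟨h5, _, _⟩ | ⟨h5, _, _⟩ | ⟨h5, _, _⟩⟩
    · omega
    · omega
    · omega
    · exact fS h5
    · simp at h5
    · omega
    · omega
    · omega
  · -- 17
    change t3 (.nil △ ((S △ B) △ .nil)) = 2 at e2
    rw [t3_o, t3_hi (by rw [ht_node]; omega), hS.t3n] at e2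
    have hb := hB0 (by omega)
    subst hb
    have e : J.o1 (H1.W R (H1.ch (0 + 1)) .nil S 17) = 1 := by
      change J.o1 (.nil △ ((S △ .nil) △ .nil)) = 1
      rw [o1_o, o1_hi (by rw [ht_node]; omega), hS.o1n hS0]; rfl
    have e' : nc (H1.W R (H1.ch (0 + 1)) .nil S 17) = 2 := rfl
    have e3 : fs (H1.W R (H1.ch (0 + 1)) .nil S 17) = .nil := rfl
    have e4 : ls (H1.W R (H1.ch (0 + 1)) .nil S 17) = S △ .nil := rfl
    have e5 : nc (S △ .nil) = 1 := rfl
    rw [e, e', e3, e4, e5] at hsg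
    rcases hsg with ⟨h5, _⟩ | ⟨h5, _⟩ | ⟨_, h5 | ⟨h5, _⟩ | ⟨_, h5, _⟩ | ⟨_, _, h5⟩ | ⟨_, h5, _⟩⟩
    · omega
    · omega
    · omega
    · omega
    · simp at h5
    · omega
    · omega
  · -- 18
    change t3 (.nil △ (.nil △ app S (B △ .nil))) = 2 at e2
    rw [t3_o, t3_o, t3_app, hB.t3n] at e2
    have hb := hB0 (by omega)
    subst hb
    have e : J.o1 (H1.W R (H1.ch (0 + 1)) .nil S 18) = 3 := by
      change J.o1 (.nil △ (.nil △ app S (.nil △ .nil))) = 3
      rw [o1_o, o1_o, o1_app, o1_o]; omega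
    rw [e] at hsg; omega
  · -- 19
    change t3 (app S (B △ .nil) △ (.nil △ .nil)) = 2 at e2
    rw [t3_hi (by rw [ht_app]; omega), t3_app, hB.t3n, t3_o] at e2
    have hb := hB0 (by omega)
    subst hb
    have e : J.o1 (H1.W R (H1.ch (0 + 1)) .nil S 19) = 2 := by
      change J.o1 (app S (.nil △ .nil) △ (.nil △ .nil)) = 2
      rw [o1_hi (by rw [ht_app]; omega), o1_app, o1_o]; omega
    have e' : nc (H1.W R (H1.ch (0 + 1)) .nil S 19) = 2 := rfl
    rw [e, e'] at hsg; omega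

/-! ### Number of parts 3 : the mirrored gadget J1a at `[s][4]` -/

theorem o3_ge (A C : BinaryTree Unit) : o3 C ≤ o3 (A △ C) := by
  rw [o3_node]
  omega

/-- a window with `B = nil` : every word has a part 3 -/
theorem w_o3 (h : NodeM k 0 R B S) (hb : B = .nil) {i : ℕ} (hi : i < 20) :
    1 ≤ o3 (H1.W R (H1.ch (0 + 1)) B S i) := by
  subst hb
  have h1 := htSR h
  have h2 := h.top
  have r3 : 1 ≤ o3 R := Multiset.count_pos.2 h.mem
  have s3 : 1 ≤ o3 S := by
    have e := h.eq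
    rw [cont_nil, zero_add] at e
    unfold o3
    rw [e]
    exact Multiset.count_pos.2 h.mem
  have z0 : OddHC.ht (BinaryTree.nil : BinaryTree Unit) = 0 := rfl
  interval_cases i
  · change 1 ≤ o3 (app R (((.nil △ .nil) △ .nil) △ .nil))
    rw [o3_app]; omega
  · change 1 ≤ o3 (app R (.nil △ (.nil △ (.nil △ .nil))))
    rw [o3_app]; omega
  · change 1 ≤ o3 (.nil △ app R (.nil △ (.nil △ .nil)))
    rw [o3_o, o3_app]; omega
  · change 1 ≤ o3 (app R (.nil △ (.nil △ .nil)) △ .nil)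
    rw [o3_hi (by rw [ht_app]; omega), o3_app]; omega
  · change 1 ≤ o3 ((.nil △ (.nil △ .nil)) △ R)
    exact r3.trans (o3_ge _ _)
  · change 1 ≤ o3 ((.nil △ .nil) △ (.nil △ R))
    rw [o3_l1, o3_o]; omega
  · change 1 ≤ o3 (R △ ((.nil △ .nil) △ .nil))
    rw [o3_hi (by omega)]; omega
  · change 1 ≤ o3 (.nil △ ((.nil △ R) △ .nil))
    rw [o3_o, o3_hi (by rw [ht_node]; omega), o3_o]; omega
  · change 1 ≤ o3 (.nil △ (.nil △ (R △ .nil)))
    rw [o3_o, o3_o, o3_hi (by omega)]; omega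
  · change 1 ≤ o3 ((R △ .nil) △ (.nil △ .nil))
    rw [o3_hi (by rw [ht_node]; omega), o3_hi (by omega)]; omega
  · change 1 ≤ o3 (((.nil △ .nil) △ .nil) △ S)
    exact s3.trans (o3_ge _ _)
  · change 1 ≤ o3 (.nil △ (.nil △ (.nil △ S)))
    rw [o3_o, o3_o, o3_o]; omega
  · change 1 ≤ o3 (S △ (.nil △ (.nil △ .nil)))
    rw [o3_hi (by omega)]; omega
  · change 1 ≤ o3 (app S ((.nil △ (.nil △ .nil)) △ .nil))
    rw [o3_app]; omega
  · change 1 ≤ o3 ((.nil △ (.nil △ S)) △ .nil)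
    rw [o3_hi (by rw [ht_node, ht_node]; omega), o3_o, o3_o]; omega
  · change 1 ≤ o3 ((.nil △ .nil) △ (S △ .nil))
    rw [o3_l1, o3_hi (by omega)]; omega
  · change 1 ≤ o3 (app S (.nil △ ((.nil △ .nil) △ .nil)))
    rw [o3_app]; omega
  · change 1 ≤ o3 (.nil △ ((S △ .nil) △ .nil))
    rw [o3_o, o3_hi (by rw [ht_node]; omega), o3_hi (by omega)]; omega
  · change 1 ≤ o3 (.nil △ (.nil △ app S (.nil △ .nil)))
    rw [o3_o, o3_o, o3_app]; omega
  · change 1 ≤ o3 (app S (.nil △ .nil) △ (.nil △ .nil))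
    rw [o3_hi (by rw [ht_app]; omega), o3_app]; omega

/-- the linked words have a part 3 -/
theorem w_o3' (h : NodeM k 0 R B S) {i : ℕ} (hi : i ∈ [0, 1, 3, 6, 8, 9]) :
    1 ≤ o3 (H1.W R (H1.ch (0 + 1)) B S i) := by
  have h2 := h.top
  have r3 : 1 ≤ o3 R := Multiset.count_pos.2 h.mem
  simp only [List.mem_cons, List.not_mem_nil, or_false] at hi
  rcases hi with rfl | rfl | rfl | rfl | rfl | rfl
  · change 1 ≤ o3 (app R (((.nil △ .nil) △ .nil) △ .nil))
    rw [o3_app]; omega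
  · change 1 ≤ o3 (app R (.nil △ (.nil △ (.nil △ .nil))))
    rw [o3_app]; omega
  · change 1 ≤ o3 (app R (.nil △ (.nil △ .nil)) △ .nil)
    rw [o3_hi (by rw [ht_app]; omega), o3_app]; omega
  · change 1 ≤ o3 (R △ ((.nil △ .nil) △ .nil))
    rw [o3_hi (by omega)]; omega
  · change 1 ≤ o3 (.nil △ (.nil △ (R △ .nil)))
    rw [o3_o, o3_o, o3_hi (by omega)]; omega
  · change 1 ≤ o3 ((R △ .nil) △ (.nil △ .nil))
    rw [o3_hi (by rw [ht_node]; omega), o3_hi (by omega)]; omega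

/-- with exactly two parts `≥ 3` the word is not 0, 10 and the node has two solitons -/
theorem w_two (h : NodeM k 0 R B S) {i : ℕ} (hi : i < 20)
    (e : t3 (H1.W R (H1.ch (0 + 1)) B S i) = 2) : t3 R = 2 ∧ i ≠ 0 ∧ i ≠ 10 := by
  have hR := nR h
  have hB := nB h
  have hS := nS h
  have h1 := htSR h
  have h2 := h.top
  have h3 := t3R h
  have h4 := t3BS h
  have z3 : t3 (BinaryTree.nil : BinaryTree Unit) = 0 := rfl
  have z0 : OddHC.ht (BinaryTree.nil : BinaryTree Unit) = 0 := rfl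
  have c3' : t3 (((.nil △ .nil) △ .nil) △ .nil) = 1 := by decide
  interval_cases i
  · change t3 (app R (((.nil △ .nil) △ .nil) △ .nil)) = 2 at e
    rw [t3_app] at e; omega
  · change t3 (app R (.nil △ (.nil △ (.nil △ .nil)))) = 2 at e
    rw [t3_app, t3_o, t3_o, t3_o] at e; omega
  · change t3 (.nil △ app R (.nil △ (.nil △ .nil))) = 2 at e
    rw [t3_o, t3_app, t3_o, t3_o] at e; omega
  · change t3 (app R (.nil △ (.nil △ .nil)) △ .nil) = 2 at e
    rw [t3_hi (by rw [ht_app]; omega), t3_app, t3_o, t3_o] at e; omega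
  · change t3 ((.nil △ (.nil △ .nil)) △ R) = 2 at e
    have : t3 ((.nil △ (.nil △ .nil)) △ R) = 0 + t3 R := by rw [t3_node]; rfl
    omega
  · change t3 ((.nil △ .nil) △ (.nil △ R)) = 2 at e
    rw [t3_l1, t3_o] at e; omega
  · change t3 (R △ ((.nil △ .nil) △ .nil)) = 2 at e
    rw [hR.t3n, t3_l1] at e; omega
  · change t3 (.nil △ ((.nil △ R) △ .nil)) = 2 at e
    rw [t3_o, t3_hi (by rw [ht_node]; omega), t3_o] at e; omega
  · change t3 (.nil △ (.nil △ (R △ .nil))) = 2 at e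
    rw [t3_o, t3_o, hR.t3n] at e; omega
  · change t3 ((R △ .nil) △ (.nil △ .nil)) = 2 at e
    rw [t3_hi (by rw [ht_node]; omega), hR.t3n, t3_o] at e; omega
  · change t3 (app B (((.nil △ .nil) △ .nil) △ S)) = 2 at e
    have h5 : t3 (((.nil △ .nil) △ .nil) △ S) = 1 + t3 S := by
      rw [t3_node]; rfl
    rw [t3_app, h5] at e
    omega
  · change t3 (app B (.nil △ (.nil △ (.nil △ S)))) = 2 at e
    rw [t3_app, t3_o, t3_o, t3_o] at e; omega
  · change t3 (S △ app B (.nil △ (.nil △ .nil))) = 2 at e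
    rw [hS.t3n, t3_app, t3_o, t3_o] at e; omega
  · change t3 (app S (app B (.nil △ (.nil △ .nil)) △ .nil)) = 2 at e
    rw [t3_app] at e
    by_cases hb : B = .nil
    · subst hb
      have : t3 (app .nil (.nil △ (.nil △ .nil)) △ .nil) = 0 := by decide
      omega
    · have := hB.ht hb
      rw [t3_hi (by rw [ht_app]; omega), t3_app, t3_o, t3_o] at e; omega
  · change t3 ((.nil △ (.nil △ S)) △ B) = 2 at e
    rw [t3_hi (by rw [ht_node, ht_node]; omega), t3_o, t3_o] at e; omega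
  · change t3 ((.nil △ .nil) △ (S △ B)) = 2 at e
    rw [t3_l1, hS.t3n] at e; omega
  · change t3 (app S (B △ ((.nil △ .nil) △ .nil))) = 2 at e
    rw [t3_app, hB.t3n, t3_l1] at e; omega
  · change t3 (.nil △ ((S △ B) △ .nil)) = 2 at e
    rw [t3_o, t3_hi (by rw [ht_node]; omega), hS.t3n] at e; omega
  · change t3 (.nil △ (.nil △ app S (B △ .nil))) = 2 at e
    rw [t3_o, t3_o, t3_app, hB.t3n] at e; omega
  · change t3 (app S (B △ .nil) △ (.nil △ .nil)) = 2 at e
    rw [t3_hi (by rw [ht_app]; omega), t3_app, hB.t3n, t3_o] at e; omega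

/-! ### Ends of the words -/

/-- at least three letters in the first and in the last run -/
def Ge3 (w : BinaryTree Unit) : Prop :=
  (∃ r, wd w = List.replicate 3 true ++ r) ∧ ∃ r, wd w = r ++ List.replicate 3 false

/-- the words of a window with short first or last run -/
theorem w_small {R B S : BinaryTree Unit} {i : ℕ} (hi : i < 20) (h0 : i ≠ 0) (h10 : i ≠ 10)
    (h11 : i ≠ 11) : ¬ Ge3 (H1.W R (H1.ch (0 + 1)) B S i) := by
  rintro ⟨⟨r, e⟩, ⟨r', e'⟩⟩
  have e2 := congrArg List.reverse e'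
  interval_cases i
  · exact h0 rfl
  · change (wd (app R (.nil △ (.nil △ (.nil △ .nil))))).reverse = _ at e2
    simp [wd_app, wd_node, wd, List.replicate] at e2
  · change wd (.nil △ app R (.nil △ (.nil △ .nil))) = _ at e
    simp [wd_node, wd, List.replicate] at e
  · change (wd (app R (.nil △ (.nil △ .nil)) △ .nil)).reverse = _ at e2
    simp [wd_app, wd_node, wd, List.replicate] at e2
  · change wd ((.nil △ (.nil △ .nil)) △ R) = _ at e
    simp [wd_node, wd, List.replicate] at e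
  · change wd ((.nil △ .nil) △ (.nil △ R)) = _ at e
    simp [wd_node, wd, List.replicate] at e
  · change (wd (R △ ((.nil △ .nil) △ .nil))).reverse = _ at e2
    simp [wd_app, wd_node, wd, List.replicate] at e2
  · change wd (.nil △ ((.nil △ R) △ .nil)) = _ at e
    simp [wd_node, wd, List.replicate] at e
  · change wd (.nil △ (.nil △ (R △ .nil))) = _ at e
    simp [wd_node, wd, List.replicate] at e
  · change (wd ((R △ .nil) △ (.nil △ .nil))).reverse = _ at e2
    simp [wd_app, wd_node, wd, List.replicate] at e2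
  · exact h10 rfl
  · exact h11 rfl
  · change (wd (S △ app B (.nil △ (.nil △ .nil)))).reverse = _ at e2
    simp [wd_app, wd_node, wd, List.replicate] at e2
  · change (wd (app S (app B (.nil △ (.nil △ .nil)) △ .nil))).reverse = _ at e2
    simp [wd_app, wd_node, wd, List.replicate] at e2
  · change wd ((.nil △ (.nil △ S)) △ B) = _ at e
    simp [wd_node, wd, List.replicate] at e
  · change wd ((.nil △ .nil) △ (S △ B)) = _ at e
    simp [wd_node, wd, List.replicate] at e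
  · change (wd (app S (B △ ((.nil △ .nil) △ .nil)))).reverse = _ at e2
    simp [wd_app, wd_node, wd, List.replicate] at e2
  · change wd (.nil △ ((S △ B) △ .nil)) = _ at e
    simp [wd_node, wd, List.replicate] at e
  · change wd (.nil △ (.nil △ app S (B △ .nil))) = _ at e
    simp [wd_node, wd, List.replicate] at e
  · change (wd (app S (B △ .nil) △ (.nil △ .nil))).reverse = _ at e2
    simp [wd_app, wd_node, wd, List.replicate] at e2

/-- **both ends of the inner words of J1a** -/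
theorem j1_ends (hs : 3 ≤ s) (hc : c ≤ s) {x : X k} {i : ℕ}
    (hi : i ∈ [0, 1, 3, 6, 8, 9]) (hx : x.1 = j1w s c i) : Ge3 (TT x).1 := by
  obtain ⟨s, rfl⟩ : ∃ m, s = m + 3 := ⟨s - 3, by omega⟩
  have h0 := FM_ch (s + 2)
  have hn : Tsq.ht (.nil : BinaryTree Unit) = 0 := rfl
  have hS : Tsq.ht (H1.ch (s + 3)) = s + 3 := by rw [H1.ht_eq, H1.ch_ht]
  have hC : Tsq.ht (H1.ch c) = c := by rw [H1.ht_eq, H1.ch_ht]
  have hR := h0.app_right (Z := H1.ch c) (by rw [hS, hC]; exact hc)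
  have hRh : Tsq.ht (app (H1.ch (s + 3)) (H1.ch c)) = s + 3 := by rw [Tsq.ht_app, hS, hC]; omega
  have r1 : ∀ u v : Bool, List.replicate (s + 2 + 1) u = u :: u :: u :: List.replicate s u := by
    intro u _
    rw [show s + 2 + 1 = s + 3 by ring, List.replicate_succ, List.replicate_succ, List.replicate_succ]
  have r2 : ∀ u : Bool, List.replicate (s + 2) u = List.replicate s u ++ [u, u] := by
    intro u
    rw [List.replicate_add]
    rfl
  have fin : ∀ {y : BinaryTree Unit} {a b c : List Bool}, x.1 = y →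
      H1.FM y a (List.replicate (s + 2 + 1) false ++ b) →
      false :: a.map not = c ++ List.replicate 3 false → Ge3 (TT x).1 := by
    intro y a b c e h h2
    rw [← e] at h
    constructor
    · refine ⟨List.replicate s true ++ (b.map not ++ false :: a.map not), ?_⟩
      rw [h.wdT, r1 false false]
      simp [List.replicate]
    · refine ⟨(List.replicate (s + 2 + 1) false ++ b).map not ++ c, ?_⟩
      rw [h.wdT, List.append_assoc, h2]
  have t1 : false :: (List.replicate (s + 2) true).map not = List.replicate s false ++ List.replicate 3 false := by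
    rw [List.map_replicate]
    change false :: List.replicate (s + 2) false = _
    rw [← List.replicate_succ, ← List.replicate_add]
  simp only [List.mem_cons, List.not_mem_nil, or_false] at hi
  rcases hi with rfl | rfl | rfl | rfl | rfl | rfl
  · have h := hR.app_right (Z := (.nil △ .nil) △ .nil) (by
      rw [hRh, Tsq.ht_node, Tsq.ht_node, hn]; omega)
    rw [List.append_assoc] at h
    exact fin hx h t1
  · have h := hR.app_right (Z := .nil △ (.nil △ .nil)) (by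
      rw [hRh, Tsq.ht_node, Tsq.ht_node, hn]; omega)
    rw [List.append_assoc] at h
    exact fin hx h t1
  · have h := (hR.app_right (Z := .nil △ .nil) (by
      rw [hRh, Tsq.ht_node, hn]; omega)).node (Z := .nil) (by rw [hn]; omega)
    rw [List.append_assoc, List.append_assoc] at h
    refine fin (c := false :: List.replicate s false) hx h ?_
    rw [List.map_cons, List.cons_append, ← t1]
    rfl
  · have h := hR.node (Z := .nil △ .nil) (by rw [hRh, Tsq.ht_node, hn]; omega)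
    rw [List.append_assoc] at h
    refine fin (c := false :: List.replicate s false) hx h ?_
    rw [List.map_cons, List.cons_append, ← t1]
    rfl
  · have h := (hR.node (Z := .nil) (by rw [hn]; omega)).app_left (P := .nil △ .nil) (by
      rw [Tsq.ht_node, Tsq.ht_node, hn, hRh]; omega)
    rw [List.append_assoc] at h
    refine fin (c := false :: false :: true :: List.replicate s false) hx h ?_
    rw [List.map_append, List.map_cons, List.cons_append, List.cons_append, List.cons_append, ← t1]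
    rfl
  · have h := (hR.node (Z := .nil) (by rw [hn]; omega)).node (Z := .nil) (by rw [hn]; omega)
    rw [List.append_assoc, List.append_assoc] at h
    refine fin (c := false :: false :: List.replicate s false) hx h ?_
    rw [List.map_cons, List.map_cons, List.cons_append, List.cons_append, ← t1]
    rfl

theorem Ge3.mir {w : BinaryTree Unit} (h : Ge3 w) : Ge3 (Tsq.mir w) := by
  obtain ⟨⟨r, e⟩, ⟨r', e'⟩⟩ := h
  constructor
  · refine ⟨(r'.map not).reverse, ?_⟩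
    rw [Tsq.wd_mir, e']
    simp [List.replicate]
  · refine ⟨(r.map not).reverse, ?_⟩
    rw [Tsq.wd_mir, e]
    simp [List.replicate]

/-- words with long ends, two parts `≥ 3` and at most two parts 1 are no words of a window -/
theorem w_ends (h : NodeM k 0 R B S) {i : ℕ} (hi : i < 20) (h3 : Ge3 (H1.W R (H1.ch (0 + 1)) B S i))
    (h2 : t3 (H1.W R (H1.ch (0 + 1)) B S i) = 2) (h1 : J.o1 (H1.W R (H1.ch (0 + 1)) B S i) ≤ 2) : False := by
  obtain ⟨-, n0, n10⟩ := w_two h hi h2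
  by_cases h11 : i = 11
  · subst h11
    have e : J.o1 (H1.W R (H1.ch (0 + 1)) B S 11) = 3 := by
      change J.o1 (app B (.nil △ (.nil △ (.nil △ S)))) = 3
      rw [o1_app, o1_o, o1_o, o1_o, (nB h).o1, (nS h).o1]
    omega
  · exact w_small hi n0 n10 h11 h3

/-! ### The inner words of the windows -/

theorem ge3_inn {t : BinaryTree Unit} (h : H1.InnP (0 + 3) t) : Ge3 t := by
  constructor
  · rcases h.sta with ⟨r, hr⟩ | ⟨r, hr⟩
    · exact ⟨true :: r, by rw [hr]; rfl⟩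
    · exact ⟨_, hr⟩
  · rcases h.en with ⟨r, hr⟩ | ⟨r, hr⟩
    · exact ⟨r ++ [false], by rw [hr]; simp [List.replicate]⟩
    · exact ⟨r ++ List.replicate 3 true, by rw [hr, List.append_assoc]⟩

/-- the words of J1a with long ends -/
theorem j1_long {i : ℕ} (hi : i < 20) (h : Ge3 (j1w s c i)) :
    i = 9 ∨ i = 10 ∨ i = 11 ∨ i = 17 ∨ i = 19 := by
  obtain ⟨⟨r, e⟩, ⟨r', e'⟩⟩ := h
  have e2 := congrArg List.reverse e'
  interval_cases i
  · change (wd (app (app (H1.ch s) (H1.ch c)) ((.nil △ .nil) △ .nil))).reverse = _ at e2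
    simp [wd_app, wd_node, wd, List.replicate] at e2
  · change (wd (app (app (H1.ch s) (H1.ch c)) (.nil △ (.nil △ .nil)))).reverse = _ at e2
    simp [wd_app, wd_node, wd, List.replicate] at e2
  · change wd (.nil △ app (app (H1.ch s) (H1.ch c)) (.nil △ .nil)) = _ at e
    simp [wd_node, wd, List.replicate] at e
  · change (wd (app (app (H1.ch s) (H1.ch c)) (.nil △ .nil) △ .nil)).reverse = _ at e2
    simp [wd_app, wd_node, wd, List.replicate] at e2
  · change wd ((.nil △ .nil) △ app (H1.ch s) (H1.ch c)) = _ at e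
    simp [wd_node, wd, List.replicate] at e
  · change wd (.nil △ (.nil △ app (H1.ch s) (H1.ch c))) = _ at e
    simp [wd_node, wd, List.replicate] at e
  · change (wd (app (H1.ch s) (H1.ch c) △ (.nil △ .nil))).reverse = _ at e2
    simp [wd_app, wd_node, wd, List.replicate] at e2
  · change wd ((.nil △ app (H1.ch s) (H1.ch c)) △ .nil) = _ at e
    simp [wd_node, wd, List.replicate] at e
  · change wd (.nil △ (app (H1.ch s) (H1.ch c) △ .nil)) = _ at e
    simp [wd_node, wd, List.replicate] at e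
  · omega
  · omega
  · omega
  · change (wd (H1.ch s △ app (H1.ch c) (.nil △ .nil))).reverse = _ at e2
    simp [wd_app, wd_node, wd, List.replicate] at e2
  · change (wd (app (H1.ch s) (app (H1.ch c) (.nil △ .nil) △ .nil))).reverse = _ at e2
    simp [wd_app, wd_node, wd, List.replicate] at e2
  · change wd ((.nil △ H1.ch s) △ H1.ch c) = _ at e
    simp [wd_node, wd, List.replicate] at e
  · change wd (.nil △ (H1.ch s △ H1.ch c)) = _ at e
    simp [wd_node, wd, List.replicate] at e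
  · change (wd (app (H1.ch s) (H1.ch c △ (.nil △ .nil)))).reverse = _ at e2
    simp [wd_app, wd_node, wd, List.replicate] at e2
  · omega
  · change wd (.nil △ app (H1.ch s) (H1.ch c △ .nil)) = _ at e
    simp [wd_node, wd, List.replicate] at e
  · omega

/-- number of parts -/
def np (w : BinaryTree Unit) : ℕ := Multiset.card (OddHC.cont w)

theorem np_app (P Q : BinaryTree Unit) : np (app P Q) = np P + np Q := by
  unfold np; rw [cont_app, Multiset.card_add]

theorem np_node {A : BinaryTree Unit} (h : A ≠ .nil) (C : BinaryTree Unit) : np (A △ C) = np A + np C := by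
  unfold np
  rw [cont_node, Multiset.card_add]
  congr 1
  have h4 : OddHC.cont A ≠ 0 := fun e => h (cont_eq_zero.1 e)
  unfold raise
  rw [Multiset.card_cons, Multiset.card_erase_of_mem (sup_mem h4), Nat.pred_eq_sub_one]
  have := Multiset.card_pos.2 h4
  omega

theorem np_o (C : BinaryTree Unit) : np (.nil △ C) = 1 + np C := by
  unfold np
  rw [cont_node, Multiset.card_add]
  rfl

theorem np_TT (x : X k) : np (TT x).1 = np x.1 := by
  unfold np; rw [TT_apply, cont_TF]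

theorem np_ch (m : ℕ) : np (H1.ch (m + 1)) = 1 := by
  unfold np
  rw [H1.ch_eq, cont_pc]
  rfl

theorem t3_le_np (w : BinaryTree Unit) : t3 w ≤ np w := Multiset.countP_le_card _ _

/-- the inner words of a window have at least three parts -/
theorem w_np (h : NodeM k 0 R B S) {i : ℕ} (hi : i ∈ [1, 3, 6, 8, 9]) :
    3 ≤ np (H1.W R (H1.ch (0 + 1)) B S i) := by
  have h3 := (t3R h).trans (t3_le_np R)
  have hR0 : R ≠ .nil := h.ne
  simp only [List.mem_cons, List.not_mem_nil, or_false] at hi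
  rcases hi with rfl | rfl | rfl | rfl | rfl
  · change 3 ≤ np (app R (.nil △ (.nil △ (.nil △ .nil))))
    rw [np_app, np_o]; omega
  · change 3 ≤ np (app R (.nil △ (.nil △ .nil)) △ .nil)
    rw [np_node (H1.app_ne (by simp)), np_app, np_o]; omega
  · change 3 ≤ np (R △ ((.nil △ .nil) △ .nil))
    rw [np_node hR0, np_node (by simp), np_o]; omega
  · change 3 ≤ np (.nil △ (.nil △ (R △ .nil)))
    rw [np_o, np_o, np_node hR0]; omega
  · change 3 ≤ np ((R △ .nil) △ (.nil △ .nil))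
    rw [np_node (by simp), np_node hR0, np_o]; omega

theorem chne {m : ℕ} (h : 1 ≤ m) : H1.ch m ≠ .nil := by
  obtain ⟨m, rfl⟩ : ∃ r, m = r + 1 := ⟨m - 1, by omega⟩
  intro e
  change H1.ch m △ .nil = .nil at e
  simp at e

theorem j1_np (hs : 1 ≤ s) (hc : 1 ≤ c) {i : ℕ} (hi : i = 9 ∨ i = 17 ∨ i = 19) : np (j1w s c i) = 2 := by
  have h1 := chne hs
  have h2 := chne hc
  have e1 : np (H1.ch s) = 1 := by
    obtain ⟨m, rfl⟩ : ∃ r, s = r + 1 := ⟨s - 1, by omega⟩
    exact np_ch m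
  have e2 : np (H1.ch c) = 1 := by
    obtain ⟨m, rfl⟩ : ∃ r, c = r + 1 := ⟨c - 1, by omega⟩
    exact np_ch m
  have e0 : np (BinaryTree.nil : BinaryTree Unit) = 0 := rfl
  rcases hi with rfl | rfl | rfl
  · change np ((app (H1.ch s) (H1.ch c) △ .nil) △ .nil) = 2
    rw [np_node (by simp), np_node (H1.app_ne h2), np_app]; omega
  · change np ((H1.ch s △ H1.ch c) △ .nil) = 2
    rw [np_node (by simp), np_node h1]; omega
  · change np (app (H1.ch s) (H1.ch c △ .nil) △ .nil) = 2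
    rw [np_node (H1.app_ne (by simp)), np_app, np_node h2]; omega

/-- the words 10, 11 of J1a: `T` of a word with long ends -/
theorem j1_pre (hs : 3 ≤ s) {w : X k} {j : ℕ} (hj : j = 10 ∨ j = 11) (e : w.1 = j1w s 3 j) :
    ∃ y : X k, TT y = w ∧ Ge3 y.1 := by
  have hk : s + 3 + 2 = k := by
    have h1 := X_num w
    rw [e] at h1
    rcases hj with rfl | rfl
    · change (app (H1.ch 3) ((.nil △ .nil) △ H1.ch s)).numNodes = k at h1
      rw [num_app, H1.ch_num] at h1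
      change 3 + ((0 + 0 + 1) + (H1.ch s).numNodes + 1) = k at h1
      rw [H1.ch_num] at h1
      omega
    · change (app (H1.ch 3) (.nil △ (.nil △ H1.ch s))).numNodes = k at h1
      rw [num_app, H1.ch_num] at h1
      change 3 + (0 + (0 + (H1.ch s).numNodes + 1) + 1) = k at h1
      rw [H1.ch_num] at h1
      omega
  subst hk
  have hd := J1.JDat_ss (s := s) (c := 3) le_rfl hs
  have key : ∀ m, (m, j) ∈ [(0, 10), (1, 11), (3, 12), (6, 15), (8, 14), (9, 17)] →
      m ∈ [0, 1, 3, 6, 8, 9] → ∃ y : X (s + 3 + 2), TT y = w ∧ Ge3 y.1 := by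
    intro m hm hm'
    have hm20 : m < 20 := by
      simp only [List.mem_cons, List.not_mem_nil, or_false] at hm'
      omega
    refine ⟨TT (J1.jX (app (H1.ch s) (H1.ch 3)) (H1.ch 3) (H1.ch s) w m), ?_, ?_⟩
    · rw [J1.jX_link hd w hm]
      apply Subtype.ext
      rw [J1.jX_eq hd w (by omega), e]
      rfl
    · exact j1_ends hs hs hm' (J1.jX_eq hd w hm20)
  rcases hj with rfl | rfl
  · exact key 0 (by simp) (by simp)
  · exact key 1 (by simp) (by simp)

/-- **no inner word of a window is a word of J1a at `[s][3]`** -/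
theorem inn_not_j1 (h : NodeM k 0 R B S) (hs : 4 ≤ s) (w0 : X k) {i : ℕ} (hi : i ∈ [0, 1, 3, 6, 8, 9])
    {w : X k} (hw : w = TT (H1.wX R B S 0 w0 i)) : ¬ IsJ1 s 3 w.1 := by
  intro h'
  have hi20 : i < 20 := by
    simp only [List.mem_cons, List.not_mem_nil, or_false] at hi
    omega
  have hW := H1.wX_eq h.dat h.size w0 hi20
  have t2 : t3 (H1.W R (H1.ch (0 + 1)) B S i) = 2 := by
    rw [← hW, ← t3_TT, ← hw]
    exact h'.t3 (by omega) le_rfl
  obtain ⟨-, n0, -⟩ := w_two h hi20 t2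
  have hi' : i ∈ [1, 3, 6, 8, 9] := by
    simp only [List.mem_cons, List.not_mem_nil, or_false] at hi ⊢
    omega
  have hg : Ge3 w.1 := by
    rw [hw]
    exact ge3_inn (h.inn w0 hi).1
  obtain ⟨j, hj, e⟩ := h'
  have e' : w.1 = j1w s 3 j := e
  rw [e'] at hg
  have hj2 := j1_long hj hg
  by_cases h10 : j = 10 ∨ j = 11
  · obtain ⟨y, hy, gy⟩ := j1_pre (by omega) h10 e'
    have : H1.wX R B S 0 w0 i = y := TT.injective (by rw [hy, hw])
    rw [← this, hW] at gy
    refine w_small hi20 n0 ?_ ?_ gy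
    · rintro rfl; simp at hi'
    · rintro rfl; simp at hi'
  · have h2 := j1_np (s := s) (c := 3) (by omega) (by omega) (i := j) (by omega)
    rw [← e', hw, np_TT, hW] at h2
    have := w_np h hi'
    omega

end J59

open J J59

variable {k n s c : ℕ} {F F' : Set (Cyc k)} {g g' : DG k}

/-- **W-R3-J1** -/
theorem TyR3.dis_J1 (h : TyR3 F g) (hs : 4 ≤ s) {C : Finset (X k)} (h' : ∀ w ∈ C, IsJ1 s 3 w.1) :
    ∀ w ∈ g.B, w ∉ C := by
  intro w hw hw'
  obtain ⟨R, B, S, w0, i, h1, -, hc, hi, rfl, -⟩ := h.words w hw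
  have e := h' _ hw'
  rw [H1.wX_eq h1.dat h1.size w0 hi] at e
  exact w_j1 h1 hc hs hi e

/-- **W-S3-J1** -/
theorem TyS3.dis_J1 (h : TyS3 F g) (hs : 4 ≤ s) {C : Finset (X k)} (h' : ∀ w ∈ C, IsJ1 s 3 w.1) :
    ∀ w ∈ g.B, w ∉ C := by
  intro w hw hw'
  obtain ⟨R, B, S, w0, i, h1, hc, hi, -, rfl, -⟩ := h.words w hw
  have e := h' _ hw'
  rw [H1.wX_eq h1.dat h1.size w0 hi] at e
  exact w_j1 h1 hc hs hi e

theorem J59.w_j1m {R B S : BinaryTree Unit} (h1 : NodeM k 0 R B S) (hc : ClR B S) (hs : 4 ≤ s) (w0 : X k)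
    {i : ℕ} (hi : i < 20) : ¬ IsJ1M s 4 (H1.wX R B S 0 w0 i).1 := by
  intro h'
  rw [H1.wX_eq h1.dat h1.size w0 hi] at h'
  have e1 := IsJ1.t3 (s := s) (c := 4) (by omega) (by omega) h'
  rw [t3_mir] at e1
  have hb := B_nil h1 (w_two h1 hi e1).1 hc
  have e2 := w_o3 h1 hb hi
  obtain ⟨j, hj, e⟩ := h'
  have e3 : o3 (Tsq.mir (H1.W R (H1.ch (0 + 1)) B S i)) = 0 := by
    rw [e]
    exact j1_o3_all hs hj
  rw [o3_mir] at e3
  omega

/-- **W-R3-J1M** -/
theorem TyR3.dis_J1M (h : TyR3 F g) (hs : 4 ≤ s) {C : Finset (X k)} (h' : ∀ w ∈ C, IsJ1M s 4 w.1) :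
    ∀ w ∈ g.B, w ∉ C := by
  intro w hw hw'
  obtain ⟨R, B, S, w0, i, h1, -, hc, hi, rfl, -⟩ := h.words w hw
  exact w_j1m h1 hc hs w0 hi (h' _ hw')

/-- **W-S3-J1M** -/
theorem TyS3.dis_J1M (h : TyS3 F g) (hs : 4 ≤ s) {C : Finset (X k)} (h' : ∀ w ∈ C, IsJ1M s 4 w.1) :
    ∀ w ∈ g.B, w ∉ C := by
  intro w hw hw'
  obtain ⟨R, B, S, w0, i, h1, hc, hi, -, rfl, -⟩ := h.words w hw
  exact w_j1m h1 hc hs w0 hi (h' _ hw')

/-- **I-R3-J1** -/
theorem TyR3.inner_J1 (h : TyR3 F g) (hs : 4 ≤ s) {C : Finset (X k)} (h' : ∀ w ∈ C, IsJ1 s 3 w.1) :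
    ∀ a ∈ g.arcs, ∀ w ∈ innA a, w ∉ C := by
  intro a ha w hw hw'
  obtain ⟨R, B, S, w0, i, h1, -, -, hi, e, -⟩ := h.inn a ha
  have e' : w = TT a.1 := hw
  exact inn_not_j1 h1 hs w0 hi (by rw [e', e]) (h' _ hw')

/-- **I-S3-J1** -/
theorem TyS3.inner_J1 (h : TyS3 F g) (hs : 4 ≤ s) {C : Finset (X k)} (h' : ∀ w ∈ C, IsJ1 s 3 w.1) :
    ∀ a ∈ g.arcs, ∀ w ∈ innA a, w ∉ C := by
  intro a ha w hw hw'
  obtain ⟨R, B, S, w0, i, h1, -, hi, e, -⟩ := h.inn a ha
  have e' : w = TT a.1 := hw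
  refine inn_not_j1 h1 hs w0 (i := i) ?_ (by rw [e', e]) (h' _ hw')
  simp only [List.mem_cons, List.not_mem_nil, or_false] at hi ⊢
  omega

theorem J59.inn_j1m {R B S : BinaryTree Unit} (h1 : NodeM k 0 R B S) (hs : 4 ≤ s) (w0 : X k) {i : ℕ}
    (hi : i ∈ [0, 1, 3, 6, 8, 9]) {w : X k} (hw : w = TT (H1.wX R B S 0 w0 i)) : ¬ IsJ1M s 4 w.1 := by
  rintro ⟨j, hj, e⟩
  have hi20 : i < 20 := by
    simp only [List.mem_cons, List.not_mem_nil, or_false] at hi
    omega
  have e3 : o3 (Tsq.mir w.1) = 0 := by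
    rw [e]
    exact j1_o3_all hs hj
  rw [o3_mir, hw, o3_TT, H1.wX_eq h1.dat h1.size w0 hi20] at e3
  have := w_o3' h1 hi
  omega

/-- **I-R3-J1M** -/
theorem TyR3.inner_J1M (h : TyR3 F g) (hs : 4 ≤ s) {C : Finset (X k)} (h' : ∀ w ∈ C, IsJ1M s 4 w.1) :
    ∀ a ∈ g.arcs, ∀ w ∈ innA a, w ∉ C := by
  intro a ha w hw hw'
  obtain ⟨R, B, S, w0, i, h1, -, -, hi, e, -⟩ := h.inn a ha
  have e' : w = TT a.1 := hw
  exact inn_j1m h1 hs w0 hi (by rw [e', e]) (h' _ hw')

/-- **I-S3-J1M** -/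
theorem TyS3.inner_J1M (h : TyS3 F g) (hs : 4 ≤ s) {C : Finset (X k)} (h' : ∀ w ∈ C, IsJ1M s 4 w.1) :
    ∀ a ∈ g.arcs, ∀ w ∈ innA a, w ∉ C := by
  intro a ha w hw hw'
  obtain ⟨R, B, S, w0, i, h1, -, hi, e, -⟩ := h.inn a ha
  have e' : w = TT a.1 := hw
  refine inn_j1m h1 hs w0 (i := i) ?_ (by rw [e', e]) (h' _ hw')
  simp only [List.mem_cons, List.not_mem_nil, or_false] at hi ⊢
  omega

/-- the inner words of J1a, right: long ends, two parts `≥ 3`, at most two parts 1 -/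
theorem J59.j1_inn (hs : 4 ≤ s) (hc : 3 ≤ c) (hcs : c ≤ s) (hA : J1A s c g) :
    ∀ a ∈ g.arcs, ∀ w ∈ innA a, Ge3 w.1 ∧ t3 w.1 = 2 ∧ J.o1 w.1 ≤ 2 := by
  intro a ha w hw
  obtain ⟨i, hi, hx⟩ := hA a ha
  have e : w = TT a.1 := hw
  have hi20 : i < 20 := by
    simp only [List.mem_cons, List.not_mem_nil, or_false] at hi
    omega
  have hj : IsJ1 s c a.1.1 := ⟨i, hi20, hx⟩
  refine ⟨?_, ?_, ?_⟩
  · rw [e]
    exact j1_ends (by omega) hcs (List.mem_cons_of_mem _ hi) hx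
  · rw [e, t3_TT]
    exact hj.t3 (by omega) hc
  · rw [e, o1_TT]
    exact hj.o1 (by omega) hc

/-- the inner words of J1a, mirrored -/
theorem J59.j1m_inn (hs : 4 ≤ s) (hc : 3 ≤ c) (hcs : c ≤ s) (hA : J1MA s c g) :
    ∀ a ∈ g.arcs, ∀ w ∈ innA a, Ge3 w.1 ∧ t3 w.1 = 2 ∧ J.o1 w.1 ≤ 2 := by
  intro a ha w hw
  obtain ⟨h0, i, hi, hx⟩ := hA a ha
  have e : w = TT a.1 := hw
  have e2 : TT w = a.2 := by rw [e, h0]
  have e3 : TT (Tsq.mirX a.2) = Tsq.mirX w := by rw [← e2, Tsq.TT_mir]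
  have hi20 : i < 20 := by
    simp only [List.mem_cons, List.not_mem_nil, or_false] at hi
    omega
  have hj : IsJ1 s c (Tsq.mirX a.2).1 := ⟨i, hi20, hx⟩
  refine ⟨?_, ?_, ?_⟩
  · have h1 := j1_ends (x := Tsq.mirX a.2) (by omega) hcs (List.mem_cons_of_mem _ hi) hx
    rw [e3] at h1
    have h2 := h1.mir
    have e4 : Tsq.mir (Tsq.mirX w).1 = w.1 := Tsq.mir_mir w.1
    rwa [e4] at h2
  · rw [← t3_TT, e2, ← t3_mir]
    exact hj.t3 (by omega) hc
  · rw [← o1_TT, e2, ← o1_mir]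
    exact hj.o1 (by omega) hc

theorem J59.ends_R3 {w : X k} (h : Ge3 w.1 ∧ t3 w.1 = 2 ∧ J.o1 w.1 ≤ 2) (h' : TyR3 F' g') : w ∉ g'.B := by
  intro hw
  obtain ⟨R, B, S, w0, i, h1, -, -, hi, rfl, -⟩ := h'.words w hw
  obtain ⟨g3, h2, h3⟩ := h
  rw [H1.wX_eq h1.dat h1.size w0 hi] at g3 h2 h3
  exact w_ends h1 hi g3 h2 h3

theorem J59.ends_S3 {w : X k} (h : Ge3 w.1 ∧ t3 w.1 = 2 ∧ J.o1 w.1 ≤ 2) (h' : TyS3 F' g') : w ∉ g'.B := by
  intro hw
  obtain ⟨R, B, S, w0, i, h1, -, hi, -, rfl, -⟩ := h'.words w hw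
  obtain ⟨g3, h2, h3⟩ := h
  rw [H1.wX_eq h1.dat h1.size w0 hi] at g3 h2 h3
  exact w_ends h1 hi g3 h2 h3

/-- **I-J1-R3** (`c = 3`) -/
theorem J.J1.inner_R3 (hs : 4 ≤ s) (hc : 3 ≤ c) (hcs : c ≤ s) (hA : J1A s c g) (h' : TyR3 F' g') :
    ∀ a ∈ g.arcs, ∀ w ∈ innA a, w ∉ g'.B := fun a ha w hw =>
  ends_R3 (j1_inn hs hc hcs hA a ha w hw) h'

/-- **I-J1-S3** -/
theorem J.J1.inner_S3 (hs : 4 ≤ s) (hc : 3 ≤ c) (hcs : c ≤ s) (hA : J1A s c g) (h' : TyS3 F' g') :
    ∀ a ∈ g.arcs, ∀ w ∈ innA a, w ∉ g'.B := fun a ha w hw =>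
  ends_S3 (j1_inn hs hc hcs hA a ha w hw) h'

/-- **I-J1M-R3** (`c = 4`) -/
theorem J.J1M.inner_R3 (hs : 4 ≤ s) (hc : 3 ≤ c) (hcs : c ≤ s) (hA : J1MA s c g) (h' : TyR3 F' g') :
    ∀ a ∈ g.arcs, ∀ w ∈ innA a, w ∉ g'.B := fun a ha w hw =>
  ends_R3 (j1m_inn hs hc hcs hA a ha w hw) h'

/-- **I-J1M-S3** -/
theorem J.J1M.inner_S3 (hs : 4 ≤ s) (hc : 3 ≤ c) (hcs : c ≤ s) (hA : J1MA s c g) (h' : TyS3 F' g') :
    ∀ a ∈ g.arcs, ∀ w ∈ innA a, w ∉ g'.B := fun a ha w hw =>
  ends_S3 (j1m_inn hs hc hcs hA a ha w hw) h'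

end Pool.OddHC
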