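import Pool.Agent.Work.MP_8f87b2_h59.R3J
import Pool.Agent.Work.MP_8f87b2_h13.TyRq

/-!
# MP_8f87b2_co: the right windows `TyRq q`, `TySq q`, every `q`, against the one-soliton gadgets (JM, J3, J4, J5, JY, NM)

All words and all inner words of a window `W R Q B S i` with at least two parts `≥ 4` in `R` (and in `B`, `S` together) have at
least two parts `≥ 4`; the words of the one-soliton gadgets have at most one. `Q` is any word.
-/

set_option autoImplicit false
set_option linter.all false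

namespace Pool.OddHC

open Finset Equiv BinaryTree Pool.Agent.Work.MP_8f87b2_co HM

namespace J59

open J

variable {k n q : ℕ} {F F' : Set (Cyc k)} {g g' : DG k} {R B S Q : BinaryTree Unit}

/-- the number of parts `≥ 4` -/
def t4 (w : BinaryTree Unit) : ℕ := (OddHC.cont w).countP (4 ≤ ·)

theorem t4_nil : t4 .nil = 0 := rfl

theorem t4_app (P Q : BinaryTree Unit) : t4 (app P Q) = t4 P + t4 Q := by
  unfold t4; rw [cont_app, Multiset.countP_add]

theorem t4_node (A C : BinaryTree Unit) :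
    t4 (A △ C) = (raise (OddHC.cont A)).countP (4 ≤ ·) + t4 C := by
  unfold t4; rw [cont_node, Multiset.countP_add]

theorem t4_cons {M : Multiset ℕ} (h0 : M ≠ 0) :
    M.countP (4 ≤ ·) = (M.erase M.sup).countP (4 ≤ ·) + if 4 ≤ M.sup then 1 else 0 := by
  have e := Multiset.cons_erase (sup_mem h0)
  conv_lhs => rw [← e, Multiset.countP_cons]

theorem t4_raise_ge (M : Multiset ℕ) : M.countP (4 ≤ ·) ≤ (raise M).countP (4 ≤ ·) := by
  unfold raise
  by_cases h0 : M = 0
  · subst h0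
    simp
  · rw [Multiset.countP_cons, t4_cons h0]
    split <;> split <;> omega

theorem t4_raise_le (M : Multiset ℕ) : (raise M).countP (4 ≤ ·) ≤ max (M.countP (4 ≤ ·)) 1 := by
  by_cases h0 : M = 0
  · subst h0
    rw [raise_zero]
    decide
  · unfold raise
    rw [Multiset.countP_cons, t4_cons h0]
    by_cases h4 : 4 ≤ M.sup
    · rw [if_pos h4, if_pos (by omega)]
      omega
    · have hz : (M.erase M.sup).countP (4 ≤ ·) = 0 := by
        rw [Multiset.countP_eq_zero]
        intro x hx h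
        have := Multiset.le_sup (Multiset.mem_of_mem_erase hx)
        omega
      rw [hz, if_neg h4]
      split <;> omega

theorem t4_add (A C : BinaryTree Unit) : t4 A + t4 C ≤ t4 (A △ C) := by
  rw [t4_node]
  have := t4_raise_ge (OddHC.cont A)
  unfold t4
  omega

theorem t4_up (A C : BinaryTree Unit) : t4 (A △ C) ≤ max (t4 A) 1 + t4 C := by
  rw [t4_node]
  have := t4_raise_le (OddHC.cont A)
  unfold t4
  omega

theorem t4_low {A : BinaryTree Unit} (h : OddHC.ht A ≤ 2) (C : BinaryTree Unit) : t4 (A △ C) = t4 C := by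
  rw [t4_node]
  have : (raise (OddHC.cont A)).countP (4 ≤ ·) = 0 := by
    rw [Multiset.countP_eq_zero]
    intro x hx h4
    rw [OddHC.ht_eq] at h
    unfold raise at hx
    rcases Multiset.mem_cons.1 hx with rfl | hx
    · omega
    · have := Multiset.le_sup (Multiset.mem_of_mem_erase hx)
      omega
  omega

theorem t4_le_t3 (w : BinaryTree Unit) : t4 w ≤ t3 w := by
  unfold t4 t3
  rw [Multiset.countP_eq_card_filter, Multiset.countP_eq_card_filter]
  apply Multiset.card_le_card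
  apply Multiset.monotone_filter_right
  intro x hx
  exact le_trans (by norm_num) hx

theorem t4_TT (x : X k) : t4 (TT x).1 = t4 x.1 := by
  unfold t4; rw [TT_apply, cont_TF]

theorem t4_mir (w : BinaryTree Unit) : t4 (Tsq.mir w) = t4 w := by
  unfold t4; rw [HM.cont_mir]

/-- **every word `W R Q B S i` has at least two parts `≥ 4`** -/
theorem w_t4 (hR : 2 ≤ t4 R) (hBS : 2 ≤ t4 B + t4 S) {i : ℕ} (hi : i < 20) :
    2 ≤ t4 (H1.W R Q B S i) := by
  have a := t4_add
  have b := t4_app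
  interval_cases i
  · change 2 ≤ t4 (app R ((Q △ .nil) △ .nil))
    rw [b]; omega
  · change 2 ≤ t4 (app R (.nil △ app Q (.nil △ .nil)))
    rw [b]; omega
  · change 2 ≤ t4 (.nil △ app R (.nil △ Q))
    have := a .nil (app R (.nil △ Q))
    rw [b] at this; omega
  · change 2 ≤ t4 (app R (.nil △ Q) △ .nil)
    have := a (app R (.nil △ Q)) .nil
    rw [b] at this; omega
  · change 2 ≤ t4 (app Q (.nil △ .nil) △ R)
    have := a (app Q (.nil △ .nil)) R
    omega
  · change 2 ≤ t4 (Q △ (.nil △ R))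
    have := a Q (.nil △ R)
    have := a .nil R
    omega
  · change 2 ≤ t4 (R △ (Q △ .nil))
    have := a R (Q △ .nil)
    omega
  · change 2 ≤ t4 (app Q ((.nil △ R) △ .nil))
    have := a (.nil △ R) .nil
    have := a .nil R
    rw [b]; omega
  · change 2 ≤ t4 (app Q (.nil △ (R △ .nil)))
    have := a .nil (R △ .nil)
    have := a R .nil
    rw [b]; omega
  · change 2 ≤ t4 ((R △ .nil) △ Q)
    have := a (R △ .nil) Q
    have := a R .nil
    omega
  · change 2 ≤ t4 (app B ((Q △ .nil) △ S))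
    have := a (Q △ .nil) S
    rw [b]; omega
  · change 2 ≤ t4 (app B (.nil △ app Q (.nil △ S)))
    have := a .nil (app Q (.nil △ S))
    have := a .nil S
    have := b Q (.nil △ S)
    rw [b]; omega
  · change 2 ≤ t4 (S △ app B (.nil △ Q))
    have := a S (app B (.nil △ Q))
    have := b B (.nil △ Q)
    omega
  · change 2 ≤ t4 (app S (app B (.nil △ Q) △ .nil))
    have := a (app B (.nil △ Q)) .nil
    have := b B (.nil △ Q)
    rw [b]; omega
  · change 2 ≤ t4 (app Q (.nil △ S) △ B)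
    have := a (app Q (.nil △ S)) B
    have := a .nil S
    have := b Q (.nil △ S)
    omega
  · change 2 ≤ t4 (Q △ (S △ B))
    have := a Q (S △ B)
    have := a S B
    omega
  · change 2 ≤ t4 (app S (B △ (Q △ .nil)))
    have := a B (Q △ .nil)
    rw [b]; omega
  · change 2 ≤ t4 (app Q ((S △ B) △ .nil))
    have := a (S △ B) .nil
    have := a S B
    rw [b]; omega
  · change 2 ≤ t4 (app Q (.nil △ app S (B △ .nil)))
    have := a .nil (app S (B △ .nil))
    have := a B .nil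
    have := b S (B △ .nil)
    rw [b]; omega
  · change 2 ≤ t4 (app S (B △ .nil) △ Q)
    have := a (app S (B △ .nil)) Q
    have := a B .nil
    have := b S (B △ .nil)
    omega

/-- **the words of the one-soliton gadgets have at most one part `≥ 4`** -/
theorem jg_t4 (hn : 1 ≤ n) {C : Finset (X k)} {P U M : Set (ZMod (2 * n + 1) → ℕ)}
    (h : JG n C P U M) {w : X k} (hw : w ∈ C) : t4 w.1 ≤ 1 := by
  rcases h w hw with ⟨Φ, _, h1⟩ | ⟨G, _, _, h1⟩ | ⟨Ψ, _, h1⟩
  · have := h1.t3 hn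
    have := t4_le_t3 w.1
    omega
  · have := t3_RF hn G
    have := t4_le_t3 w.1
    rw [h1] at *
    omega
  · obtain ⟨t, u, D, ht1, hD, e, hcs⟩ := mx_cases h1
    obtain ⟨t, rfl⟩ : ∃ m, t = m + 1 := ⟨t - 1, by omega⟩
    have e3 := t3_RF hn Ψ
    rw [e, RR_snoc, t3_app, t3b, add_zero] at e3
    have e4 : t4 (RR u D 0) ≤ 1 := (t4_le_t3 _).trans e3.le
    have b4 : ∀ t, t4 (b2 t) = 0 := by
      intro t
      have := t4_le_t3 (b2 t)
      have := t3b t
      omega
    have hb : ∀ t, OddHC.ht (b2 t) ≤ 2 := by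
      intro t
      rw [OddHC.ht_eq]
      apply Multiset.sup_le.2
      intro x hx
      by_contra h3
      have h4 := t3b t
      unfold J.t3 at h4
      rw [Multiset.countP_eq_zero] at h4
      exact h4 x hx (by omega)
    have b := t4_app
    have up := t4_up
    have o : ∀ C, t4 (.nil △ C) = t4 C := fun C => t4_low (by decide) C
    rcases hcs with e0 | e0 | e0 | e0 | e0 | e0 | e0 | e0 | e0
    · rw [e0, b, o, o, b4]
      omega
    · rw [e0, o, b, b4]
      have := up (RR u D 0) .nil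
      rw [t4_nil] at this
      omega
    · rw [e0, t4_low (by rw [ht_node]; have := hb (t + 1); change max (0 + 1) _ ≤ 2; omega)]
      exact e4
    · rw [e0, b, b4]
      have h1 := up (app (RR u D 0) (.nil △ .nil)) .nil
      rw [b, o, t4_nil] at h1
      omega
    · rw [e0, b, b4]
      have h1 := up (RR u D 0) (.nil △ .nil)
      rw [o, t4_nil] at h1
      omega
    · rw [e0, o, t4_low (hb _)]
      exact e4
    · rw [e0]
      have h1 := up (app (b2 (t + 1)) (RR u D 0 △ .nil)) .nil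
      have h2 := up (RR u D 0) .nil
      rw [b, b4, t4_nil] at h1
      rw [t4_nil] at h2
      omega
    · rw [e0, t4_low (hb _), b, o, t4_nil]
      omega
    · rw [e0]
      have h1 := up (b2 (t + 1) △ RR u D 0) .nil
      rw [t4_low (hb _), t4_nil] at h1
      omega

theorem t4_N (h : NodeM k q R B S) (hq : 1 ≤ q) (h2 : 2 ≤ Multiset.card (OddHC.cont R)) :
    2 ≤ t4 R ∧ 2 ≤ t4 B + t4 S := by
  have h1 : t4 R = Multiset.card (OddHC.cont R) := by
    unfold t4
    rw [Multiset.countP_eq_card]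
    intro x hx
    have := h.part x hx
    omega
  have h3 : t4 B + t4 S = t4 R := by
    unfold t4
    rw [← h.eq, Multiset.countP_add]
  omega

theorem card_N (h : NodeM k q R B S) : 2 ≤ Multiset.card (OddHC.cont R) := h.cardR

/-- **no word and no inner word of a window with two parts `≥ 4` is a word of a one-soliton gadget** -/
theorem w4_not_JG (hR : 2 ≤ t4 R) (hBS : 2 ≤ t4 B + t4 S) (hn : 1 ≤ n) {C : Finset (X k)}
    {P U M : Set (ZMod (2 * n + 1) → ℕ)} (h' : JG n C P U M) {x : X k} {i : ℕ} (hi : i < 20)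
    (e : x.1 = H1.W R Q B S i) : x ∉ C ∧ TT x ∉ C ∧ Tsq.mirX x ∉ C ∧ Tsq.mirX (TT x) ∉ C := by
  have h1 := w_t4 (Q := Q) hR hBS hi
  rw [← e] at h1
  refine ⟨fun h2 => ?_, fun h2 => ?_, fun h2 => ?_, fun h2 => ?_⟩
  · have := jg_t4 hn h' h2
    omega
  · have := jg_t4 hn h' h2
    rw [t4_TT] at this
    omega
  · have h3 := jg_t4 hn h' h2
    have h4 : t4 (Tsq.mirX x).1 = t4 x.1 := t4_mir _
    omega
  · have h3 := jg_t4 hn h' h2
    have h4 : t4 (Tsq.mirX (TT x)).1 = t4 (TT x).1 := t4_mir _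
    rw [t4_TT] at h4
    omega

end J59

open J J59

variable {k n q : ℕ} {F F' : Set (Cyc k)} {g g' : DG k}

/-- **W-Rq-JM, W-Rq-J3 (J4, J5, NM, JY)**, every `q` -/
theorem TyRq.dis_JG (h : TyRq q F g) (hn : 1 ≤ n) {C : Finset (X k)}
    {P U M : Set (ZMod (2 * n + 1) → ℕ)} (h' : JG n C P U M) : ∀ w ∈ g.B, w ∉ C := by
  intro w hw
  obtain ⟨R, B, S, w0, i, h1, hi, rfl, -⟩ := h.words w hw
  rcases Nat.eq_zero_or_pos q with rfl | hq
  · exact w_not_JG h1 w0 hi hn h'
  · obtain ⟨h2, h3⟩ := t4_N h1 hq (card_N h1)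
    exact (w4_not_JG h2 h3 hn h' hi (H1.wX_eq h1.dat h1.size w0 hi)).1

/-- **W-Sq-JM, W-Sq-J3 (J4, J5, NM, JY)**, every `q` -/
theorem TySq.dis_JG (h : TySq q F g) (hn : 1 ≤ n) {C : Finset (X k)}
    {P U M : Set (ZMod (2 * n + 1) → ℕ)} (h' : JG n C P U M) : ∀ w ∈ g.B, w ∉ C := by
  intro w hw
  obtain ⟨R, B, S, w0, i, h1, hi, rfl, -⟩ := h.words' w hw
  rcases Nat.eq_zero_or_pos q with rfl | hq
  · exact w_not_JG h1 w0 hi hn h'
  · obtain ⟨h2, h3⟩ := t4_N h1 hq (card_N h1)
    exact (w4_not_JG h2 h3 hn h' hi (H1.wX_eq h1.dat h1.size w0 hi)).1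

/-- **I-JM-Rq, I-J3-Rq**, every `q` -/
theorem JG.inner_Rq (hn : 1 ≤ n) (hp : PathA g) (hA : PureA n g) (h' : TyRq q F' g' ∨ TySq q F' g') :
    ∀ a ∈ g.arcs, ∀ w ∈ innA a, w ∉ g'.B := by
  intro a ha w hw hw'
  have h1 := inn_t3 hn hp hA a ha w hw
  obtain ⟨R, B, S, w0, i, h2, hi, rfl⟩ : ∃ (R B S : BinaryTree Unit) (w0 : X k) (i : ℕ),
      NodeM k q R B S ∧ i < 20 ∧ w = H1.wX R B S q w0 i := by
    rcases h' with h' | h'
    · obtain ⟨R, B, S, w0, i, h2, hi, e, -⟩ := h'.words w hw'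
      exact ⟨R, B, S, w0, i, h2, hi, e⟩
    · obtain ⟨R, B, S, w0, i, h2, hi, e, -⟩ := h'.words' w hw'
      exact ⟨R, B, S, w0, i, h2, hi, e⟩
  rcases Nat.eq_zero_or_pos q with rfl | hq
  · rw [H1.wX_eq h2.dat h2.size w0 hi] at h1
    have := w_t3 h2 hi
    omega
  · obtain ⟨h3, h4⟩ := t4_N h2 hq (card_N h2)
    have h5 := w_t4 (Q := H1.ch (q + 1)) h3 h4 hi
    rw [← H1.wX_eq h2.dat h2.size w0 hi] at h5
    have := t4_le_t3 (H1.wX R B S q w0 i).1
    omega

/-- **I-Rq-JM, I-Rq-J3**, every `q`; `hc` only concerns `q = 0` and content `{h, 3, 3}` -/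
theorem TyRq.inner_JG (h : TyRq q F g ∨ TySq q F g) (hc : q = 0 → ClJ g) (hn : 1 ≤ n) {C : Finset (X k)}
    {P U M : Set (ZMod (2 * n + 1) → ℕ)} (h' : JG n C P U M) : ∀ a ∈ g.arcs, ∀ w ∈ innA a, w ∉ C := by
  intro a ha w hw
  obtain ⟨R, B, S, w0, i, h1, hi, e⟩ : ∃ (R B S : BinaryTree Unit) (w0 : X k) (i : ℕ),
      NodeM k q R B S ∧ i ∈ [0, 1, 3, 6, 8, 9] ∧ w = TT (H1.wX R B S q w0 i) := by
    rcases h with h | h
    · obtain ⟨R, B, S, w0, i, h1, hi, e, -⟩ := h.inn0 a ha w hw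
      exact ⟨R, B, S, w0, i, h1, hi, e⟩
    · obtain ⟨R, B, S, w0, i, h1, hi, e, -⟩ := h.inn0 a ha w hw
      refine ⟨R, B, S, w0, i, h1, ?_, e⟩
      simp only [List.mem_cons, List.not_mem_nil, or_false] at hi ⊢
      omega
  rcases Nat.eq_zero_or_pos q with rfl | hq
  · exact inn_not_JG h1 w0 hi e (hc rfl a ha w hw) hn h'
  · obtain ⟨h2, h3⟩ := t4_N h1 hq (card_N h1)
    have hi' : i < 20 := by
      simp only [List.mem_cons, List.not_mem_nil, or_false] at hi
      omega
    rw [e]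
    exact (w4_not_JG h2 h3 hn h' hi' (H1.wX_eq h1.dat h1.size w0 hi')).2.1

end Pool.OddHC
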