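import Pool.Agent.Work.MP_8f87b2_h59.J33
import Pool.Agent.Work.MP_8f87b2_h35.TyRqE
import Pool.Agent.Work.MP_8f87b2_h88.TyMar

/-!
# MP_8f87b2_co: the types RqE, MarA, MarB against the one-soliton gadgets and J3V of height 3

All words of these types have two parts `≥ 4`.
-/

set_option autoImplicit false
set_option linter.all false

namespace Pool.OddHC

open Finset Equiv BinaryTree Pool.Agent.Work.MP_8f87b2_co HM

namespace J59

open J J3

variable {k n q : ℕ} {F F' : Set (Cyc k)} {g g' : DG k} {R B S Q : BinaryTree Unit}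

/-- all words and inner words have two parts `≥ 4` -/
def Big4 (g : DG k) : Prop := (∀ w ∈ g.B, 2 ≤ t4 w.1) ∧ ∀ a ∈ g.arcs, ∀ w ∈ innA a, 2 ≤ t4 w.1

theorem NodeM.t4 (h : NodeM k q R B S) (hq : 1 ≤ q) (w0 : X k) {i : ℕ} (hi : i < 20) :
    2 ≤ J59.t4 (H1.wX R B S q w0 i).1 := by
  rw [H1.wX_eq h.dat h.size w0 hi]
  obtain ⟨h1, h2⟩ := t4_N h hq (card_N h)
  exact w_t4 h1 h2 hi

theorem big4_Rq (h : TyRq q F g ∨ TySq q F g) (hq : 1 ≤ q) : Big4 g := by
  constructor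
  · intro w hw
    obtain ⟨R, B, S, w0, i, h1, hi, rfl⟩ := rqwords h hw
    exact NodeM.t4 h1 hq w0 hi
  · intro a ha w hw
    obtain ⟨R, B, S, w0, i, h1, hi, e⟩ := rqinn h ha hw
    have hi' : i < 20 := by
      simp only [List.mem_cons, List.not_mem_nil, or_false] at hi
      omega
    rw [e, t4_TT]
    exact NodeM.t4 h1 hq w0 hi'

theorem big4_RqE (h : TyRqE q F g) : Big4 g := by
  have hq : 1 ≤ q := by
    obtain ⟨R, S, w0, h1, hq, -⟩ := h
    exact hq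
  constructor
  · intro w hw
    obtain ⟨R, B, S, w0, i, h1, hi, rfl, -⟩ := h.words' w hw
    exact NodeM.t4 h1 hq w0 hi
  · intro a ha w hw
    obtain ⟨R, B, S, w0, i, h1, hi, e, -⟩ := h.inn0 a ha w hw
    have hi' : i < 20 := by
      simp only [List.mem_cons, List.not_mem_nil, or_false] at hi
      omega
    rw [e, t4_TT]
    exact NodeM.t4 h1 hq w0 hi'

theorem big4_Mar {P Q R : BinaryTree Unit} (h : TyMar P Q R F g) (h1 : 2 ≤ t4 P + t4 Q + t4 R) : Big4 g := by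
  have key : ∀ P Q R : BinaryTree Unit, 2 ≤ t4 P + t4 Q + t4 R → 2 ≤ t4 (w1 P Q R) := by
    intro P Q R h
    change 2 ≤ t4 (app P (Q △ R))
    rw [t4_app]
    have := t4_add Q R
    omega
  constructor
  · intro w hw
    rcases h.words w hw with ⟨e, _⟩ | ⟨_, e | e⟩ <;> rw [e] <;> apply key <;> omega
  · intro a ha
    rw [h.arcs] at ha
    exact absurd ha (Set.notMem_empty _)

/-- **Big4 gadgets against the one-soliton gadgets** -/
theorem Big4.dis_JG (h : Big4 g) (hn : 1 ≤ n) {C : Finset (X k)} {P U M : Set (ZMod (2 * n + 1) → ℕ)}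
    (h' : JG n C P U M) : (∀ w ∈ g.B, w ∉ C) ∧ ∀ a ∈ g.arcs, ∀ w ∈ innA a, w ∉ C := by
  constructor
  · intro w hw hw'
    have := h.1 w hw
    have := jg_t4 hn h' hw'
    omega
  · intro a ha w hw hw'
    have := h.2 a ha w hw
    have := jg_t4 hn h' hw'
    omega

theorem Big4.inn_JG (hn : 1 ≤ n) (hp : PathA g) (hA : PureA n g) (h' : Big4 g') :
    ∀ a ∈ g.arcs, ∀ w ∈ innA a, w ∉ g'.B := by
  intro a ha w hw hw'
  have h1 := inn_t3 hn hp hA a ha w hw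
  have h2 := h'.1 w hw'
  have := t4_le_t3 w.1
  omega

theorem j33_small {F : Set (Cyc k)} {g : DG k} (h : TyJ33Q F g) :
    (∀ w ∈ g.B, t4 w.1 ≤ 1) ∧ ∀ a ∈ g.arcs, ∀ w ∈ innA a, t4 w.1 ≤ 1 := by
  obtain ⟨R, B, S, w0, h2, -, h3, -, -, -, rfl⟩ := h
  have h8 : ∀ i < 20, t4 (sX R B S w0 i).1 ≤ 1 := by
    intro i hi
    rw [h2.word w0 hi]
    exact j33_t4 h3.le (h2.htB.trans h3.le) (h2.htS.trans h3).le hi
  constructor
  · intro w hw
    obtain ⟨i, hi, h9, rfl⟩ := mem_gadS.1 hw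
    exact h8 i hi
  · intro a ha w hw
    have key : ∀ i j : ℕ, i < 20 → a = (sX R B S w0 i, sX R B S w0 j) → t4 w.1 ≤ 1 := by
      rintro i j hi rfl
      have hw' : w = TT (sX R B S w0 i) := hw
      rw [hw', t4_TT]
      exact h8 i hi
    have hp' : a = (sX R B S w0 3, sX R B S w0 12) ∨ a = (sX R B S w0 6, sX R B S w0 15) ∨
        a = (sX R B S w0 8, sX R B S w0 14) := ha
    rcases hp' with e | e | e
    · exact key 3 12 (by norm_num) e
    · exact key 6 15 (by norm_num) e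
    · exact key 8 14 (by norm_num) e

/-- **Big4 gadgets against J3V of height 3**, three rows -/
theorem Big4.dis_J33 (h : Big4 g) (h' : TyJ33Q F' g') : (∀ w ∈ g.B, w ∉ g'.B) ∧
    (∀ a ∈ g.arcs, ∀ w ∈ innA a, w ∉ g'.B) ∧ ∀ a ∈ g'.arcs, ∀ w ∈ innA a, w ∉ g.B := by
  obtain ⟨h1, h2⟩ := j33_small h'
  refine ⟨fun w hw hw' => ?_, fun a ha w hw hw' => ?_, fun a ha w hw hw' => ?_⟩
  · have := h.1 w hw
    have := h1 w hw'
    omega
  · have := h.2 a ha w hw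
    have := h1 w hw'
    omega
  · have := h.1 w hw'
    have := h2 a ha w hw
    omega

theorem t4_of {X : BinaryTree Unit} (h : ∀ x ∈ OddHC.cont X, 4 ≤ x) : t4 X = Multiset.card (OddHC.cont X) := by
  unfold t4
  rw [Multiset.countP_eq_card]
  exact h

end J59

open J J59 J3

variable {k n q : ℕ} {F F' : Set (Cyc k)} {g g' : DG k} {R B S Q : BinaryTree Unit}

/-- **W-RqE-JG, I-RqE-JG** -/
theorem TyRqE.dis_JG (h : TyRqE q F g) (hn : 1 ≤ n) {C : Finset (X k)} {P U M : Set (ZMod (2 * n + 1) → ℕ)}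
    (h' : JG n C P U M) : (∀ w ∈ g.B, w ∉ C) ∧ ∀ a ∈ g.arcs, ∀ w ∈ innA a, w ∉ C :=
  (big4_RqE h).dis_JG hn h'

/-- **I-JG-RqE** -/
theorem JG.inner_RqE (hn : 1 ≤ n) (hp : PathA g) (hA : PureA n g) (h' : TyRqE q F' g') :
    ∀ a ∈ g.arcs, ∀ w ∈ innA a, w ∉ g'.B := Big4.inn_JG hn hp hA (big4_RqE h')

/-- **RqE against J3V of height 3**, the three rows -/
theorem TyRqE.dis_J33 (h : TyRqE q F g) (h' : TyJ33Q F' g') : (∀ w ∈ g.B, w ∉ g'.B) ∧
    (∀ a ∈ g.arcs, ∀ w ∈ innA a, w ∉ g'.B) ∧ ∀ a ∈ g'.arcs, ∀ w ∈ innA a, w ∉ g.B :=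
  (big4_RqE h).dis_J33 h'

/-- link A of a node with all parts `≥ 4`, at least two of them in `R` -/
theorem TyMarA.big4 (h : TyMarA R Q F g) (h4 : ∀ x ∈ OddHC.cont R, 4 ≤ x) (h2 : 2 ≤ Multiset.card (OddHC.cont R)) :
    Big4 g := by
  apply big4_Mar (P := Q △ .nil) (Q := .nil) (R := R) h
  rw [t4_of h4]
  omega

/-- triangle B -/
theorem TyMarB.big4 (h : TyMarB B S Q F g ∨ TyMarB' B S Q F g) (hB : ∀ x ∈ OddHC.cont B, 4 ≤ x)
    (hS : ∀ x ∈ OddHC.cont S, 4 ≤ x)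
    (h2 : 2 ≤ Multiset.card (OddHC.cont B) + Multiset.card (OddHC.cont S)) : Big4 g := by
  rcases h with h | h
  · apply big4_Mar (P := S) (Q := B) (R := Q △ .nil) h
    rw [t4_of hB, t4_of hS]
    omega
  · apply big4_Mar (P := Q △ .nil) (Q := S) (R := B) h
    rw [t4_of hB, t4_of hS]
    omega

end Pool.OddHC
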