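import Pool.Agent.Work.MP_8f87b2_h59.R3J3
import Pool.Agent.Work.MP_8f87b2_h59.RqJ
import Pool.Agent.Work.MP_8f87b2_h68.J3R

/-!
# MP_8f87b2_co: J3V of height 3 against the right windows, every `q`

Words: no condition. Inner words of J3V: no condition. Inner words of the windows: `q ≥ 1` no condition, `q = 0`: `2 ∈ cont R'` and
`B' = B0 [3]`.
-/

set_option autoImplicit false
set_option linter.all false

namespace Pool.OddHC

open Finset Equiv BinaryTree Pool.Agent.Work.MP_8f87b2_co HM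

namespace J59

open J J3

variable {k n q : ℕ} {F F' : Set (Cyc k)} {g g' : DG k} {R B S Q R' B' S' : BinaryTree Unit}

theorem t4_zero {A : BinaryTree Unit} (h : OddHC.ht A ≤ 3) : t4 A = 0 := by
  unfold t4
  rw [Multiset.countP_eq_zero]
  intro x hx h4
  rw [OddHC.ht_eq] at h
  have := Multiset.le_sup hx
  omega

/-- the words of J3V of height 3 have at most one part `≥ 4` -/
theorem j33_t4 (hR : OddHC.ht R' ≤ 3) (hB : OddHC.ht B' ≤ 3) (hS : OddHC.ht S' ≤ 3) {j : ℕ} (hj : j < 20) :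
    t4 (H1.W R' .nil B' S' j) ≤ 1 := by
  have r := t4_zero hR
  have b := t4_zero hB
  have s := t4_zero hS
  have up := t4_up
  have ap := t4_app
  have o : ∀ C, t4 (.nil △ C) = t4 C := fun C => t4_low (by decide) C
  have z := t4_nil
  interval_cases j
  · change t4 (app R' ((.nil △ .nil) △ .nil)) ≤ 1
    rw [ap, t4_low (by decide)]; omega
  · change t4 (app R' (.nil △ (.nil △ .nil))) ≤ 1
    rw [ap, o, o]; omega
  · change t4 (.nil △ app R' (.nil △ .nil)) ≤ 1
    rw [o, ap, o]; omega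
  · change t4 (app R' (.nil △ .nil) △ .nil) ≤ 1
    have := up (app R' (.nil △ .nil)) .nil
    rw [ap, o] at this; omega
  · change t4 ((.nil △ .nil) △ R') ≤ 1
    rw [t4_low (by decide)]; omega
  · change t4 (.nil △ (.nil △ R')) ≤ 1
    rw [o, o]; omega
  · change t4 (R' △ (.nil △ .nil)) ≤ 1
    have := up R' (.nil △ .nil)
    rw [o] at this; omega
  · change t4 ((.nil △ R') △ .nil) ≤ 1
    have := up (.nil △ R') .nil
    rw [o] at this; omega
  · change t4 (.nil △ (R' △ .nil)) ≤ 1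
    have := up R' .nil
    rw [o]; omega
  · change t4 ((R' △ .nil) △ .nil) ≤ 1
    have := up (R' △ .nil) .nil
    have := up R' .nil
    omega
  · change t4 (app B' ((.nil △ .nil) △ S')) ≤ 1
    rw [ap, t4_low (by decide)]; omega
  · change t4 (app B' (.nil △ (.nil △ S'))) ≤ 1
    rw [ap, o, o]; omega
  · change t4 (S' △ app B' (.nil △ .nil)) ≤ 1
    have := up S' (app B' (.nil △ .nil))
    rw [ap, o] at this; omega
  · change t4 (app S' (app B' (.nil △ .nil) △ .nil)) ≤ 1
    have := up (app B' (.nil △ .nil)) .nil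
    rw [ap, o] at this
    rw [ap]; omega
  · change t4 ((.nil △ S') △ B') ≤ 1
    have := up (.nil △ S') B'
    rw [o] at this; omega
  · change t4 (.nil △ (S' △ B')) ≤ 1
    have := up S' B'
    rw [o]; omega
  · change t4 (app S' (B' △ (.nil △ .nil))) ≤ 1
    have := up B' (.nil △ .nil)
    rw [o] at this
    rw [ap]; omega
  · change t4 ((S' △ B') △ .nil) ≤ 1
    have := up (S' △ B') .nil
    have := up S' B'
    omega
  · change t4 (.nil △ app S' (B' △ .nil)) ≤ 1
    have := up B' .nil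
    rw [o, ap]; omega
  · change t4 (app S' (B' △ .nil) △ .nil) ≤ 1
    have h1 := up (app S' (B' △ .nil)) .nil
    have h2 := up B' .nil
    rw [ap] at h1
    omega

/-- a word which ends in the pile 3 plus one or two -/
theorem end_false {a b v : List Bool} {m : ℕ} (hm : m = 1 ∨ m = 2)
    (e : v ++ ([true, true, true, false, false, false] ++ List.replicate m false) =
      b ++ ([false, false, true, true, false, false] ++ a.map not)) :
    ∃ c, a = c ++ [true, true, true, true] := by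
  have e1 := congrArg List.reverse e
  rw [List.reverse_append, List.reverse_append, List.reverse_append, List.reverse_append, ← List.map_reverse] at e1
  obtain ⟨r, hr⟩ : ∃ r, a.reverse = r := ⟨_, rfl⟩
  rw [hr] at e1
  suffices h : ∃ c, r = true :: true :: true :: true :: c by
    obtain ⟨c, hc⟩ := h
    refine ⟨c.reverse, ?_⟩
    have := congrArg List.reverse hr
    rw [List.reverse_reverse, hc] at this
    simpa using this
  rcases hm with rfl | rfl
  all_goals
    rcases r with _ | ⟨x1, r⟩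
    · simp [List.replicate] at e1
    rcases r with _ | ⟨x2, r⟩
    · cases x1 <;> simp [List.replicate] at e1
    rcases r with _ | ⟨x3, r⟩
    · cases x1 <;> cases x2 <;> simp [List.replicate] at e1
    rcases r with _ | ⟨x4, r⟩
    · cases x1 <;> cases x2 <;> cases x3 <;> simp [List.replicate] at e1
    cases x1 <;> cases x2 <;> cases x3 <;> cases x4 <;> simp [List.replicate] at e1
    exact ⟨r, rfl⟩

theorem mem_raise2 {M : Multiset ℕ} (h : 2 ∈ M) (h3 : 3 ≤ M.sup) : 2 ∈ raise M := by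
  unfold raise
  apply Multiset.mem_cons_of_mem
  exact (Multiset.mem_erase_of_ne (by omega)).2 h

/-- the word 6 of a window with `ht R = 4` and the words 17, 19 of J3V with `B' = B0 [3]` -/
theorem inn6_j33 (h : NodeM k 0 R B S) (w0 : X k) {w : X k} (hw : w = TT (H1.wX R B S 0 w0 6))
    {B0 : BinaryTree Unit} (h4 : OddHC.ht R = 4)
    (e : w.1 = (S' △ app B0 (pc 3)) △ .nil ∨ w.1 = app S' (app B0 (pc 3) △ .nil) △ .nil) : False := by
  obtain ⟨a, b, h1⟩ := H1.hg_FMT (g := 3) (by omega) (H1.hg_of_cont (by omega) (nR h)) (by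
    rw [H1.ht_eq, h4]; norm_num)
  have hW : (H1.wX R B S 0 w0 6).1 = R △ ((.nil △ .nil) △ .nil) := by
    rw [H1.wX_eq h.dat h.size w0 (by norm_num)]
    rfl
  have h2 := h1.fm.node (Z := (.nil △ .nil) △ .nil) (by
    have e1 : Tsq.ht ((.nil △ .nil) △ .nil : BinaryTree Unit) = 2 := rfl
    rw [e1, H1.ht_eq R]
    omega)
  rw [← hW] at h2
  have h3 := h2.wdT
  rw [← hw] at h3
  have h5 : wd w.1 = (b.map not ++ [true]) ++ ([false, false, true, true, false, false] ++ a.map not) := by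
    rw [h3]
    simp [wd_node, wd]
  have h6 : ∃ (v : List Bool) (m : ℕ), (m = 1 ∨ m = 2) ∧
      wd w.1 = v ++ ([true, true, true, false, false, false] ++ List.replicate m false) := by
    rcases e with e | e
    · refine ⟨true :: true :: (wd S' ++ false :: wd B0), 1, Or.inl rfl, ?_⟩
      rw [e]
      change wd ((S' △ app B0 (((.nil △ .nil) △ .nil) △ .nil)) △ .nil) = _
      simp [wd_app, wd_node, wd]
    · refine ⟨true :: (wd S' ++ true :: wd B0), 2, Or.inr rfl, ?_⟩
      rw [e]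
      change wd (app S' (app B0 (((.nil △ .nil) △ .nil) △ .nil) △ .nil) △ .nil) = _
      simp [wd_app, wd_node, wd, List.replicate]
  obtain ⟨v, m, hm, h7⟩ := h6
  obtain ⟨c, hc⟩ := end_false hm (h7.symm.trans h5)
  have h8 := wd_take R c.length
  rw [h1.fm.eq, hc, List.append_assoc, List.take_left'] at h8
  · have h9 := h1.fm.top
    rw [hc, List.count_append, List.count_append, H1.ht_eq, h4] at h9
    simp at h9
    omega
  · rfl

/-- **J3V of height 3 with a part 2 and `B' = B0 [3]`: no inner word of a right window, `q = 0`** -/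
theorem inn_j33 (h : NodeM k 0 R B S) (h' : SqD k R' B' S') (h3 : OddHC.ht R' = 3) (h2 : 2 ∈ OddHC.cont R')
    (hB : ∃ B0, B' = app B0 (pc 3)) (w0 : X k) {i : ℕ} (hi : i ∈ [0, 1, 3, 6, 8, 9])
    {w : X k} (hw : w = TT (H1.wX R B S 0 w0 i)) {j : ℕ} (hj : j < 20) (h9 : j ≠ 9)
    (e : w.1 = H1.W R' .nil B' S' j) : False := by
  obtain ⟨hi', hj'⟩ := inn_j3 h h' w0 hi hw hj h9 e
  have hS3 : OddHC.ht S' = 3 := h'.htS.trans h3
  obtain ⟨B0, hB0⟩ := hB
  have hB3 : OddHC.ht B' = 3 := by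
    have h5 := h'.htB
    have h6 : 3 ≤ OddHC.ht B' := by
      rw [hB0, ht_app]
      have : OddHC.ht (pc 3) = 3 := rfl
      omega
    omega
  have hcs := h'.cont
  have hcc : OddHC.cont w.1 = OddHC.cont (H1.wX R B S 0 w0 i).1 := by rw [hw, H1.cont_TT]
  have hhw : OddHC.ht w.1 = OddHC.ht (H1.wX R B S 0 w0 i).1 := by
    rw [OddHC.ht_eq, hcc, ← OddHC.ht_eq]
  have sS : 3 ≤ (OddHC.cont S').sup := by rw [← OddHC.ht_eq]; omega
  have sB : 3 ≤ (OddHC.cont B').sup := by rw [← OddHC.ht_eq]; omega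
  have hw2 : 2 ∈ OddHC.cont w.1 ∧ OddHC.ht w.1 = 5 := by
    rcases hj' with rfl | ⟨rfl, -⟩
    · rw [e]
      change 2 ∈ OddHC.cont ((S' △ B') △ .nil) ∧ OddHC.ht ((S' △ B') △ .nil) = 5
      constructor
      · rw [cont_node, cont_nil, add_zero]
        apply mem_raise2
        · rw [cont_node, Multiset.mem_add]
          rw [← hcs, Multiset.mem_add] at h2
          rcases h2 with h2 | h2
          · exact Or.inr h2
          · exact Or.inl (mem_raise2 h2 sS)
        · rw [← OddHC.ht_eq, ht_node]; omega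
      · rw [ht_node, ht_node, hS3, hB3]; rfl
    · rw [e]
      change 2 ∈ OddHC.cont (app S' (B' △ .nil) △ .nil) ∧ OddHC.ht (app S' (B' △ .nil) △ .nil) = 5
      constructor
      · rw [cont_node, cont_nil, add_zero]
        apply mem_raise2
        · rw [cont_app, cont_node, cont_nil, add_zero, Multiset.mem_add]
          rw [← hcs, Multiset.mem_add] at h2
          rcases h2 with h2 | h2
          · exact Or.inr (mem_raise2 h2 sB)
          · exact Or.inl h2
        · rw [← OddHC.ht_eq, ht_app]; omega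
      · rw [ht_node, ht_app, ht_node, hS3, hB3]; rfl
  obtain ⟨hw2, hw5⟩ := hw2
  rcases hi' with rfl | rfl
  · rw [hcc, H1.wX_eq h.dat h.size w0 (by norm_num), H1.cont_W0] at hw2
    rcases Multiset.mem_add.1 hw2 with h6 | h6
    · have := nR h 2 h6; omega
    · simp at h6
  · have h4 : OddHC.ht R = 4 := by
      rw [hhw, H1.wX_eq h.dat h.size w0 (by norm_num)] at hw5
      change OddHC.ht (R △ ((.nil △ .nil) △ .nil)) = 5 at hw5
      rw [ht_node] at hw5
      have e1 : OddHC.ht ((.nil △ .nil) △ .nil : BinaryTree Unit) = 2 := rfl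
      omega
    apply inn6_j33 h w0 hw h4 (S' := S') (B0 := B0)
    rw [← hB0]
    rcases hj' with rfl | ⟨rfl, -⟩
    · exact Or.inl e
    · exact Or.inr e

end J59

open J J59 J3

variable {k n q : ℕ} {F F' : Set (Cyc k)} {g g' : DG k}

/-- J3V of height 3 -/
def TyJ33Q (F : Set (Cyc k)) (g : DG k) : Prop :=
  ∃ (R B S : BinaryTree Unit) (w0 : X k), SqD k R B S ∧ J3OK R B S w0 ∧ OddHC.ht R = 3 ∧ 2 ∈ OddHC.cont R ∧
    (∃ B0, B = app B0 (pc 3)) ∧
    F = {cyc (sX R B S w0 0), cyc (sX R B S w0 1), cyc (sX R B S w0 2)} ∧ g = gadS (sX R B S w0)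

theorem TyJ33Q.toJ3V (h : TyJ33Q F g) : TyJ3V F g := by
  obtain ⟨R, B, S, w0, h1, hp, -, -, -, hF, hg⟩ := h
  exact ⟨R, B, S, w0, h1, hp, hF, hg⟩

theorem J59.rqwords (h : TyRq q F g ∨ TySq q F g) {w : X k} (hw : w ∈ g.B) :
    ∃ (R B S : BinaryTree Unit) (w0 : X k) (i : ℕ), NodeM k q R B S ∧ i < 20 ∧ w = H1.wX R B S q w0 i := by
  rcases h with h | h
  · obtain ⟨R, B, S, w0, i, h2, hi, e, -⟩ := h.words w hw
    exact ⟨R, B, S, w0, i, h2, hi, e⟩
  · obtain ⟨R, B, S, w0, i, h2, hi, e, -⟩ := h.words' w hw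
    exact ⟨R, B, S, w0, i, h2, hi, e⟩

theorem J59.rqinn (h : TyRq q F g ∨ TySq q F g) {a : X k × X k} (ha : a ∈ g.arcs) {w : X k} (hw : w ∈ innA a) :
    ∃ (R B S : BinaryTree Unit) (w0 : X k) (i : ℕ), NodeM k q R B S ∧ i ∈ [0, 1, 3, 6, 8, 9] ∧
      w = TT (H1.wX R B S q w0 i) := by
  rcases h with h | h
  · obtain ⟨R, B, S, w0, i, h1, hi, e, -⟩ := h.inn0 a ha w hw
    exact ⟨R, B, S, w0, i, h1, hi, e⟩
  · obtain ⟨R, B, S, w0, i, h1, hi, e, -⟩ := h.inn0 a ha w hw
    refine ⟨R, B, S, w0, i, h1, ?_, e⟩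
    simp only [List.mem_cons, List.not_mem_nil, or_false] at hi ⊢
    omega

/-- **W-Rq-J33, W-Sq-J33**, every `q` -/
theorem TyRq.dis_J33 (h : TyRq q F g ∨ TySq q F g) (h' : TyJ33Q F' g') : ∀ w ∈ g.B, w ∉ g'.B := by
  intro w hw hw'
  obtain ⟨R, B, S, w0, i, h1, hi, rfl⟩ := rqwords h hw
  obtain ⟨R', B', S', w0', h2, -, h3, -, -, -, rfl⟩ := h'
  obtain ⟨j, hj, h9, e'⟩ := mem_gadS.1 hw'
  have hW := H1.wX_eq h1.dat h1.size w0 hi
  have e2 : (H1.wX R B S q w0 i).1 = H1.W R' .nil B' S' j := by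
    rw [← h2.word w0' hj, e']
  have hS : OddHC.ht S' = 3 := h2.htS.trans h3
  rcases Nat.eq_zero_or_pos q with rfl | hq
  · rw [hW] at e2
    have hS1 := htSR h1
    have hT := h1.top
    have key : ∀ X : BinaryTree Unit, OddHC.ht X = 3 → ¬ (X = R △ .nil ∨ X = S △ B ∨ X = app S (B △ .nil)) := by
      rintro X hX (rfl | rfl | rfl)
      · rw [ht_node] at hX; omega
      · rw [ht_node] at hX; omega
      · rw [ht_app] at hX; omega
    rcases rW h2 h1 hi hj h9 e2 with h4 | h4 | h4 | ⟨_, h4⟩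
    · exact key R' h3 (Or.inl h4)
    · exact key R' h3 (Or.inr (Or.inl h4))
    · exact key R' h3 (Or.inr (Or.inr h4))
    · exact key S' hS h4
  · obtain ⟨h4, h5⟩ := t4_N h1 hq (card_N h1)
    have h6 := w_t4 (Q := H1.ch (q + 1)) h4 h5 hi
    rw [← hW, e2] at h6
    have h7 := j33_t4 (R' := R') (B' := B') (S' := S') h3.le (h2.htB.trans h3.le) hS.le hj
    omega

/-- **I-Rq-J33, I-Sq-J33**, every `q` -/
theorem TyRq.inner_J33 (h : TyRq q F g ∨ TySq q F g) (h' : TyJ33Q F' g') :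
    ∀ a ∈ g.arcs, ∀ w ∈ innA a, w ∉ g'.B := by
  intro a ha w hw hw'
  obtain ⟨R, B, S, w0, i, h1, hi, e⟩ := rqinn h ha hw
  obtain ⟨R', B', S', w0', h2, -, h3, hm, hB, -, rfl⟩ := h'
  obtain ⟨j, hj, h9, e'⟩ := mem_gadS.1 hw'
  have e2 : w.1 = H1.W R' .nil B' S' j := by
    rw [← h2.word w0' hj, e']
  rcases Nat.eq_zero_or_pos q with rfl | hq
  · exact inn_j33 h1 h2 h3 hm hB w0 hi e hj h9 e2
  · have hi' : i < 20 := by
      simp only [List.mem_cons, List.not_mem_nil, or_false] at hi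
      omega
    obtain ⟨h4, h5⟩ := t4_N h1 hq (card_N h1)
    have h6 := w_t4 (Q := H1.ch (q + 1)) h4 h5 hi'
    rw [← H1.wX_eq h1.dat h1.size w0 hi', ← t4_TT, ← e, e2] at h6
    have h7 := j33_t4 (R' := R') (B' := B') (S' := S') h3.le (h2.htB.trans h3.le) (h2.htS.trans h3).le hj
    omega

/-- **I-J33-Rq, I-J33-Sq**, every `q` -/
theorem TyJ33Q.inner_Rq (h : TyJ33Q F g) (h' : TyRq q F' g' ∨ TySq q F' g') :
    ∀ a ∈ g.arcs, ∀ w ∈ innA a, w ∉ g'.B := by
  intro a ha w hw hw'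
  obtain ⟨R, B, S, w0, i, h1, hi, e⟩ := rqwords h' hw'
  rcases Nat.eq_zero_or_pos q with rfl | hq
  · rw [e] at hw
    exact (h.toJ3V.ni2 a ha _ hw).not (SRun.NRS.of_M h1 w0 hi)
  · obtain ⟨R', B', S', w0', h2, -, h3, -, -, -, rfl⟩ := h
    have key : ∀ i j : ℕ, i < 20 → a = (sX R' B' S' w0' i, sX R' B' S' w0' j) → t4 w.1 ≤ 1 := by
      rintro i j hi rfl
      have hw' : w = TT (sX R' B' S' w0' i) := hw
      rw [hw', t4_TT, h2.word w0' hi]
      exact j33_t4 (R' := R') (B' := B') (S' := S') h3.le (h2.htB.trans h3.le) (h2.htS.trans h3).le hi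
    have h8 : t4 w.1 ≤ 1 := by
      have hp' : a = (sX R' B' S' w0' 3, sX R' B' S' w0' 12) ∨ a = (sX R' B' S' w0' 6, sX R' B' S' w0' 15) ∨
          a = (sX R' B' S' w0' 8, sX R' B' S' w0' 14) := ha
      rcases hp' with e | e | e
      · exact key 3 12 (by norm_num) e
      · exact key 6 15 (by norm_num) e
      · exact key 8 14 (by norm_num) e
    obtain ⟨h4, h5⟩ := t4_N h1 hq (card_N h1)
    have h6 := w_t4 (Q := H1.ch (q + 1)) h4 h5 hi
    rw [← H1.wX_eq h1.dat h1.size w0 hi, ← e] at h6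
    omega

end Pool.OddHC
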