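import Pool.Agent.Work.MP_8f87b2_h59.J33
import Pool.Agent.Work.MP_8f87b2_h29.DnRows
import Pool.Agent.Work.MP_8f87b2_h61.JsT
import Pool.Agent.Work.MP_8f87b2_h61.JtW
import Pool.Agent.Work.MP_8f87b2_h4.Meet2

/-!
# MP_8f87b2_co: J3V of height 3, the remaining rows of the word matrix (helper59)

J33 - J33 (condition: different contents, or `sJ33J33`), J1 - J33, J1M - J33, Dn - J33 (no condition), words and inner words.
-/

set_option autoImplicit false
set_option linter.all false

namespace Pool.OddHC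

open Finset Equiv BinaryTree Pool.Agent.Work.MP_8f87b2_co HM

namespace J59

open J J3

variable {k n q : ℕ} {F F' : Set (Cyc k)} {g g' : DG k} {R B S Q R' B' S' U : BinaryTree Unit}

/-- the data of a group of type J33 -/
def D33 (F : Set (Cyc k)) (g : DG k) (R B S : BinaryTree Unit) (w0 : X k) : Prop :=
  SqD k R B S ∧ OddHC.ht R = 3 ∧ 2 ∈ OddHC.cont R ∧ (∃ B0, B = app B0 (pc 3)) ∧
    F = {cyc (sX R B S w0 0), cyc (sX R B S w0 1), cyc (sX R B S w0 2)} ∧ g = gadS (sX R B S w0)

theorem _root_.Pool.OddHC.TyJ33Q.data (h : TyJ33Q F g) : ∃ R B S w0, D33 F g R B S w0 := by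
  obtain ⟨R, B, S, w0, h1, -, h2, h3, h4, h5, h6⟩ := h
  exact ⟨R, B, S, w0, h1, h2, h3, h4, h5, h6⟩

/-- the words of J3V of height 3 have height at most 5 -/
theorem ht_j33 (hR : OddHC.ht R ≤ 3) (hB : OddHC.ht B ≤ 3) (hS : OddHC.ht S ≤ 3) {j : ℕ} (hj : j < 20) :
    OddHC.ht (H1.W R .nil B S j) ≤ 5 := by
  have hn : OddHC.ht (BinaryTree.nil : BinaryTree Unit) = 0 := rfl
  interval_cases j <;>
    simp only [H1.W, H1.app_nil, app, ht_app, ht_node, hn] <;> omega

theorem D33.hts {w0 : X k} (h : D33 F g R B S w0) : OddHC.ht R = 3 ∧ OddHC.ht B = 3 ∧ OddHC.ht S = 3 := by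
  obtain ⟨h1, h2, -, ⟨B0, h4⟩, -, -⟩ := h
  refine ⟨h2, ?_, h1.htS.trans h2⟩
  have h5 := h1.htB
  have h6 : 3 ≤ OddHC.ht B := by
    rw [h4, ht_app]
    have : OddHC.ht (pc 3) = 3 := rfl
    omega
  omega

/-- all words of a group of type J33 -/
theorem D33.word {w0 : X k} (h : D33 F g R B S w0) {w : X k} (hw : w ∈ g.B) :
    ∃ i, i < 20 ∧ i ≠ 9 ∧ w.1 = H1.W R .nil B S i := by
  obtain ⟨h1, -, -, -, -, rfl⟩ := h
  obtain ⟨j, hj, h9, e'⟩ := mem_gadS.1 hw
  exact ⟨j, hj, h9, by rw [← h1.word w0 hj, e']⟩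

theorem D33.low {w0 : X k} (h : D33 F g R B S w0) {w : X k} (hw : w ∈ g.B) : OddHC.ht w.1 ≤ 5 := by
  obtain ⟨i, hi, -, e⟩ := h.word hw
  obtain ⟨a, b, c⟩ := h.hts
  rw [e]
  exact ht_j33 a.le b.le c.le hi

/-- the inner words are `T` of words -/
theorem D33.inn {w0 : X k} (h : D33 F g R B S w0) {a : X k × X k} (ha : a ∈ g.arcs) {w : X k} (hw : w ∈ innA a) :
    ∃ i, (i = 3 ∨ i = 6 ∨ i = 8) ∧ w = TT (sX R B S w0 i) := by
  obtain ⟨h1, -, -, -, -, rfl⟩ := h
  have hp' : a = (sX R B S w0 3, sX R B S w0 12) ∨ a = (sX R B S w0 6, sX R B S w0 15) ∨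
      a = (sX R B S w0 8, sX R B S w0 14) := ha
  rcases hp' with rfl | rfl | rfl
  · exact ⟨3, Or.inl rfl, hw⟩
  · exact ⟨6, Or.inr (Or.inl rfl), hw⟩
  · exact ⟨8, Or.inr (Or.inr rfl), hw⟩

theorem D33.lowInn {w0 : X k} (h : D33 F g R B S w0) {a : X k × X k} (ha : a ∈ g.arcs) {w : X k} (hw : w ∈ innA a) :
    OddHC.ht w.1 ≤ 5 := by
  obtain ⟨i, hi, e⟩ := h.inn ha hw
  obtain ⟨a, b, c⟩ := h.hts
  have hi' : i < 20 := by omega
  rw [e, OddHC.ht_eq, H1.cont_TT, ← OddHC.ht_eq, h.1.word w0 hi']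
  exact ht_j33 a.le b.le c.le hi'

theorem D33.lastC {w0 : X k} (h : D33 F g R B S w0) : ∃ B0, B = app B0 (pc 3) := h.2.2.2.1

/-- `sq` of `Q [2]` -/
theorem sq_end : ∀ Z : BinaryTree Unit, Z ≠ .nil → 3 ≤ OddHC.ht Z → ∃ Y, (Tsq.sq (app Z ((.nil △ .nil) △ .nil))).2 =
    app Y ((.nil △ .nil) △ .nil)
  | .nil, h, _ => absurd rfl h
  | .node u A C, _, h3 => by
    change ∃ Y, (Tsq.sq (A △ app C ((.nil △ .nil) △ .nil))).2 = _
    rw [Tsq.sq_node]
    split_ifs with hc
    · have hC : 3 ≤ OddHC.ht C := by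
        rw [H1.ht_eq, H1.ht_eq, ht_app] at hc
        have e2 : OddHC.ht ((.nil △ .nil) △ .nil : BinaryTree Unit) = 2 := rfl
        have h3' : 3 ≤ OddHC.ht (A △ C) := h3
        rw [ht_node] at h3'
        omega
      have hC0 : C ≠ .nil := by
        rintro rfl
        exact absurd hC (by decide)
      obtain ⟨Y, hY⟩ := sq_end C hC0 hC
      exact ⟨Y, hY⟩
    · exact ⟨C, rfl⟩

theorem app_pc_ne {X Y : BinaryTree Unit} : app X ((.nil △ .nil) △ .nil) ≠ app Y (pc 3) := by
  intro e
  have h1 := congrArg wd e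
  rw [wd_app, wd_app] at h1
  have h2 := congrArg List.reverse h1
  have e3 : wd (pc 3) = [true, true, true, false, false, false] := by
    change wd (((.nil △ .nil) △ .nil) △ .nil) = _
    simp [wd_node, wd]
  have e2 : wd ((.nil △ .nil) △ .nil : BinaryTree Unit) = [true, true, false, false] := by
    simp [wd_node, wd]
  rw [e3, e2, List.reverse_append, List.reverse_append] at h2
  simp at h2

/-- the condition of the row J33 - J33 for equal contents -/
def sJ33J33 (F F' : Set (Cyc k)) (g g' : DG k) : Prop :=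
  ∃ R B S w0 R' B' S' w0', D33 F g R B S w0 ∧ D33 F' g' R' B' S' w0' ∧
    (∀ (n : ℕ) (x y : X n), x.1 = R → y.1 = R' → cyc x ≠ cyc y) ∧
    (∀ Q : BinaryTree Unit, ¬ (B = (.nil △ .nil) △ Q ∧ R' = app Q ((.nil △ .nil) △ S)) ∧
      ¬ (B' = (.nil △ .nil) △ Q ∧ R = app Q ((.nil △ .nil) △ S')))

theorem D33.no2 {w0 : X k} (h : D33 F g R B S w0) (hR : R = app Q ((.nil △ .nil) △ .nil)) : False := by
  obtain ⟨h1, h2, -, ⟨B0, h4⟩, -, -⟩ := h
  have hQ : 3 ≤ OddHC.ht Q := by
    rw [hR, ht_app] at h2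
    have e2 : OddHC.ht ((.nil △ .nil) △ .nil : BinaryTree Unit) = 2 := rfl
    omega
  have hQ0 : Q ≠ .nil := by
    rintro rfl
    exact absurd hQ (by decide)
  obtain ⟨Y, hY⟩ := sq_end Q hQ0 hQ
  have h5 : (Tsq.sq R).2 = B := by rw [h1.sq]
  rw [← hR, h5, h4] at hY
  exact app_pc_ne hY.symm

theorem nil_one {Z : BinaryTree Unit} (h : BinaryTree.nil ∈ comps Z) : 1 ∈ OddHC.cont Z := by
  refine mem_comps h ?_
  have : raise (OddHC.cont (BinaryTree.nil : BinaryTree Unit)) = {1} := by
    rw [cont_nil, raise_zero]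
  rw [this]
  exact Multiset.mem_singleton_self _

/-- every word has a part 2 -/
theorem D33.two {w0 : X k} (h : D33 F g R B S w0) {i : ℕ} (hi : i < 20) :
    2 ∈ OddHC.cont (H1.W R .nil B S i) := by
  obtain ⟨a, b, c⟩ := h.hts
  have h2 := h.2.2.1
  have hcs := h.1.cont
  have sR : 3 ≤ (OddHC.cont R).sup := by rw [← OddHC.ht_eq]; omega
  have sS : 3 ≤ (OddHC.cont S).sup := by rw [← OddHC.ht_eq]; omega
  have sB : 3 ≤ (OddHC.cont B).sup := by rw [← OddHC.ht_eq]; omega
  have up : ∀ A : BinaryTree Unit, 3 ≤ OddHC.ht A → 2 ∈ OddHC.cont A → ∀ Y, 2 ∈ OddHC.cont (A △ Y) := by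
    intro A hA h2 Y
    rw [cont_node]
    exact Multiset.mem_add.2 (Or.inl (mem_raise2 h2 (by rw [← OddHC.ht_eq]; exact hA)))
  have rt : ∀ A Y : BinaryTree Unit, 2 ∈ OddHC.cont Y → 2 ∈ OddHC.cont (A △ Y) := by
    intro A Y h2
    rw [cont_node]
    exact Multiset.mem_add.2 (Or.inr h2)
  have al : ∀ A Y : BinaryTree Unit, 2 ∈ OddHC.cont A → 2 ∈ OddHC.cont (app A Y) := by
    intro A Y h2
    rw [cont_app]
    exact Multiset.mem_add.2 (Or.inl h2)
  have ar : ∀ A Y : BinaryTree Unit, 2 ∈ OddHC.cont Y → 2 ∈ OddHC.cont (app A Y) := by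
    intro A Y h2
    rw [cont_app]
    exact Multiset.mem_add.2 (Or.inr h2)
  have hl : ∀ A Y : BinaryTree Unit, OddHC.ht A ≤ OddHC.ht (app A Y) := by
    intro A Y
    rw [ht_app]
    exact le_max_left _ _
  have hr : ∀ A Y : BinaryTree Unit, OddHC.ht Y ≤ OddHC.ht (app A Y) := by
    intro A Y
    rw [ht_app]
    exact le_max_right _ _
  have hn : ∀ A Y : BinaryTree Unit, OddHC.ht Y ≤ OddHC.ht (A △ Y) := by
    intro A Y
    rw [ht_node]
    exact le_max_right _ _
  have hm : ∀ A Y : BinaryTree Unit, OddHC.ht A ≤ OddHC.ht (A △ Y) := by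
    intro A Y
    rw [ht_node]
    omega
  have hSB : 2 ∈ OddHC.cont S ∨ 2 ∈ OddHC.cont B := by
    rw [← hcs] at h2
    exact (Multiset.mem_add.1 h2).symm
  interval_cases i
  · exact al _ _ h2
  · exact al _ _ h2
  · exact rt _ _ (al _ _ h2)
  · exact up _ (by have := hl R (.nil △ .nil); omega) (al _ _ h2) _
  · exact rt _ _ h2
  · exact rt _ _ (rt _ _ h2)
  · exact up _ a.ge h2 _
  · exact up _ (by have := hn .nil R; omega) (rt _ _ h2) _
  · exact rt _ _ (up _ a.ge h2 _)
  · exact up _ (by have := hm R .nil; omega) (up _ a.ge h2 _) _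
  · exact hSB.elim (fun h => ar _ _ (rt _ _ h)) (fun h => al _ _ h)
  · exact hSB.elim (fun h => ar _ _ (rt _ _ (rt _ _ h))) (fun h => al _ _ h)
  · exact hSB.elim (fun h => up _ c.ge h _) (fun h => rt _ _ (al _ _ h))
  · exact hSB.elim (fun h => al _ _ h)
      (fun h => ar _ _ (up _ (by have := hl B (.nil △ .nil); omega) (al _ _ h) _))
  · exact hSB.elim (fun h => up _ (by have := hn .nil S; omega) (rt _ _ h) _) (fun h => rt _ _ h)
  · exact hSB.elim (fun h => rt _ _ (up _ c.ge h _)) (fun h => rt _ _ (rt _ _ h))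
  · exact hSB.elim (fun h => al _ _ h) (fun h => ar _ _ (up _ b.ge h _))
  · exact hSB.elim (fun h => up _ (by have := hm S B; omega) (up _ c.ge h _) _)
      (fun h => up _ (by have := hm S B; omega) (rt _ _ h) _)
  · exact hSB.elim (fun h => rt _ _ (al _ _ h)) (fun h => rt _ _ (ar _ _ (up _ b.ge h _)))
  · exact hSB.elim (fun h => up _ (by have := hl S (B △ .nil); omega) (al _ _ h) _)
      (fun h => up _ (by have := hl S (B △ .nil); omega) (ar _ _ (up _ b.ge h _)) _)

theorem comps_nn {Z : BinaryTree Unit} (h : Z ≠ .nil) : ∃ A Y, comps Z = A :: comps Y ∧ Z = A △ Y := by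
  cases Z with
  | nil => exact absurd rfl h
  | node _ A Y => exact ⟨A, Y, rfl, rfl⟩

/-- `(U)[2]` is no word of J3V of height 3 -/
theorem D33.noH {w0 : X k} (h : D33 F g R B S w0) (hU : 3 ≤ OddHC.ht U) {i : ℕ} (hi : i < 20) (h9 : i ≠ 9) :
    U △ ((.nil △ .nil) △ .nil) ≠ H1.W R .nil B S i := by
  intro e
  obtain ⟨a, b, c⟩ := h.hts
  have hz : OddHC.ht (.nil △ .nil : BinaryTree Unit) = 1 := rfl
  have hz0 : OddHC.ht (.nil : BinaryTree Unit) = 0 := rfl
  have hU0 : U ≠ .nil := fun h0 => by rw [h0, hz0] at hU; omega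
  have hU1 : U ≠ .nil △ .nil := fun h0 => by rw [h0, hz] at hU; omega
  have h1 : U :: (.nil △ .nil) :: [] = comps (H1.W R .nil B S i) := by
    rw [← e]
    rfl
  obtain ⟨B0, hB⟩ := h.lastC
  have cB : comps B = comps B0 ++ [(.nil △ .nil) △ .nil] := by
    rw [hB, comps_app]
    rfl
  have nR : R ≠ .nil := fun h0 => by rw [h0] at a; exact absurd a (by decide)
  have nS : S ≠ .nil := fun h0 => by rw [h0] at c; exact absurd c (by decide)
  obtain ⟨r, R1, hR1, -⟩ := comps_nn nR
  obtain ⟨s, S1, hS1, -⟩ := comps_nn nS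
  have cn : comps (.nil : BinaryTree Unit) = [] := rfl
  have c1 : comps (.nil △ .nil : BinaryTree Unit) = [.nil] := rfl
  have l2 : ∀ l : List (BinaryTree Unit), ∀ z, U :: (.nil △ .nil) :: [] = l ++ [z] → z = .nil △ .nil := by
    intro l z hh
    have := congrArg List.getLast? hh
    simpa using this.symm
  have ne : (.nil : BinaryTree Unit) ≠ .nil △ .nil := by decide
  have l3 : ∀ (l : List (BinaryTree Unit)) x z, U :: (.nil △ .nil) :: [] = l ++ [x, z] → z = .nil △ .nil := by
    intro l x z hh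
    have := congrArg List.getLast? hh
    simpa using this.symm
  interval_cases i
  · change _ = comps (app R _) at h1
    rw [comps_app, comps_node, cn, hR1] at h1
    simp only [List.cons_append, List.cons.injEq] at h1
    have h2 : comps R1 = [] := by
      have h3 := h1.2
      rcases hc : comps R1 with _ | ⟨x, l⟩
      · rfl
      · rw [hc] at h3
        have h4 := congrArg List.length h3
        simp at h4
    have h5 := h.1.one
    rw [← h1.1] at hR1
    have h6 : R = U △ .nil := by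
      cases R with
      | nil => exact absurd rfl nR
      | node _ A Y =>
        rw [comps_node, h2, List.cons.injEq] at hR1
        obtain ⟨e1, e2⟩ := hR1
        cases Y with
        | nil => rw [e1]
        | node _ A' Y' => simp [comps] at e2
    rw [h6, ht_node] at a
    omega
  · change _ = comps (app R (.nil △ (.nil △ .nil))) at h1
    rw [comps_app, comps_node, c1] at h1
    exact ne (l3 _ _ _ h1)
  · change _ = comps (.nil △ _) at h1
    rw [comps_node, List.cons.injEq] at h1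
    exact hU0 h1.1
  · change _ = comps (_ △ .nil) at h1
    rw [comps_node, cn] at h1
    simp at h1
  · change _ = comps (_ △ _) at h1
    rw [comps_node, List.cons.injEq] at h1
    exact hU1 h1.1
  · change _ = comps (_ △ _) at h1
    rw [comps_node, List.cons.injEq] at h1
    exact hU0 h1.1
  · change _ = comps (R △ (.nil △ .nil)) at h1
    rw [comps_node, c1] at h1
    simp at h1
  · change _ = comps (_ △ .nil) at h1
    rw [comps_node, cn] at h1
    simp at h1
  · change _ = comps (.nil △ _) at h1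
    rw [comps_node, List.cons.injEq] at h1
    exact hU0 h1.1
  · exact absurd rfl h9
  · change _ = comps (app B (_ △ S)) at h1
    rw [comps_app, comps_node, cB, hS1] at h1
    have := congrArg List.length h1
    simp at this
    omega
  · change _ = comps (app B (.nil △ (.nil △ S))) at h1
    rw [comps_app, comps_node, comps_node, cB, hS1] at h1
    have := congrArg List.length h1
    simp at this
    omega
  · change _ = comps (S △ app B (.nil △ .nil)) at h1
    rw [comps_node, comps_app, c1, ← List.cons_append] at h1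
    exact ne (l2 _ _ h1)
  · change _ = comps (app S (app B (.nil △ .nil) △ .nil)) at h1
    rw [comps_app, comps_node, cn] at h1
    have h2 := l2 _ _ h1
    have h3 := congrArg OddHC.ht h2
    rw [ht_app, hz] at h3
    omega
  · change _ = comps ((.nil △ S) △ B) at h1
    rw [comps_node, cB, ← List.cons_append] at h1
    have h2 := congrArg OddHC.ht (l2 _ _ h1)
    rw [hz] at h2
    exact absurd h2 (by decide)
  · change _ = comps (.nil △ _) at h1
    rw [comps_node, List.cons.injEq] at h1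
    exact hU0 h1.1
  · change _ = comps (app S (B △ (.nil △ .nil))) at h1
    rw [comps_app, comps_node, c1] at h1
    exact ne (l3 _ _ _ h1)
  · change _ = comps (_ △ .nil) at h1
    rw [comps_node, cn] at h1
    simp at h1
  · change _ = comps (.nil △ _) at h1
    rw [comps_node, List.cons.injEq] at h1
    exact hU0 h1.1
  · change _ = comps (_ △ .nil) at h1
    rw [comps_node, cn] at h1
    simp at h1

/-- `[2]()U` is no word of J3V of height 3 -/
theorem D33.noN {w0 : X k} (h : D33 F g R B S w0) (hU : 2 ≤ (comps U).length) {i : ℕ} (hi : i < 20) (h9 : i ≠ 9) :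
    (.nil △ .nil) △ (.nil △ U) ≠ H1.W R .nil B S i := by
  intro e
  obtain ⟨a, b, c⟩ := h.hts
  have hz : OddHC.ht (.nil △ .nil : BinaryTree Unit) = 1 := rfl
  have hz0 : OddHC.ht (.nil : BinaryTree Unit) = 0 := rfl
  have h1 : (.nil △ .nil) :: .nil :: comps U = comps (H1.W R .nil B S i) := by
    rw [← e]
    rfl
  obtain ⟨B0, hB⟩ := h.lastC
  have cB : comps B = comps B0 ++ [(.nil △ .nil) △ .nil] := by
    rw [hB, comps_app]
    rfl
  have nR : R ≠ .nil := fun h0 => by rw [h0] at a; exact absurd a (by decide)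
  have nS : S ≠ .nil := fun h0 => by rw [h0] at c; exact absurd c (by decide)
  obtain ⟨r, R1, hR1, hR2⟩ := comps_nn nR
  obtain ⟨s, S1, hS1, hS2⟩ := comps_nn nS
  have hs2 : OddHC.ht s + 1 = 3 := by
    obtain ⟨X, Y, e1, e2, e3⟩ := h.1.top2
    rw [hS2] at e1
    rw [(H1.node_inj e1).1, e2, a]
  have oR : BinaryTree.nil ∉ comps R := by
    intro h2
    have := nil_one h2
    exact absurd (Multiset.count_pos.2 this) (by rw [h.1.one]; omega)
  have oSB : 1 ∉ OddHC.cont B ∧ 1 ∉ OddHC.cont S := by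
    have h2 : 1 ∉ OddHC.cont R := fun h3 => absurd (Multiset.count_pos.2 h3) (by rw [h.1.one]; omega)
    rw [← h.1.cont, Multiset.mem_add, not_or] at h2
    exact h2
  have oB : BinaryTree.nil ∉ comps B := fun h2 => oSB.1 (nil_one h2)
  have oS : BinaryTree.nil ∉ comps S := fun h2 => oSB.2 (nil_one h2)
  have cn : comps (.nil : BinaryTree Unit) = [] := rfl
  have c1 : comps (.nil △ .nil : BinaryTree Unit) = [.nil] := rfl
  have ne : (.nil : BinaryTree Unit) ≠ .nil △ .nil := by decide
  have len : ∀ z : BinaryTree Unit, (.nil △ .nil) :: .nil :: comps U ≠ [z] := by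
    intro z h2
    have := congrArg List.length h2
    simp at this
  have hs3 : s ≠ .nil △ .nil := fun h0 => by rw [h0, hz] at hs2; omega
  interval_cases i
  · change _ = comps (app R _) at h1
    rw [comps_app, comps_node, cn] at h1
    have : BinaryTree.nil ∈ comps R ++ [.nil △ .nil] := by
      rw [← h1]; simp
    rcases List.mem_append.1 this with h2 | h2
    · exact oR h2
    · exact ne (List.mem_singleton.1 h2)
  · change _ = comps (app R (.nil △ (.nil △ .nil))) at h1
    rw [comps_app, comps_node, c1, hR1, List.cons_append, List.cons.injEq] at h1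
    rcases hc : comps R1 with _ | ⟨x, l⟩
    · have h6 : R = (.nil △ .nil) △ .nil := by
        rw [hR2, ← h1.1]
        cases R1 with
        | nil => rfl
        | node _ A' Y' => simp [comps] at hc
      rw [h6] at a
      exact absurd a (by decide)
    · rw [hc, List.cons_append, List.cons.injEq] at h1
      apply oR
      rw [hR1, hc, ← h1.2.1]
      simp
  · change _ = comps (.nil △ _) at h1
    rw [comps_node, List.cons.injEq] at h1
    exact ne h1.1.symm
  · change _ = comps (_ △ .nil) at h1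
    rw [comps_node, cn] at h1
    exact len _ h1
  · change _ = comps (_ △ R) at h1
    rw [comps_node, List.cons.injEq] at h1
    apply oR
    rw [← h1.2]
    simp
  · change _ = comps (_ △ _) at h1
    rw [comps_node, List.cons.injEq] at h1
    exact ne h1.1.symm
  · change _ = comps (R △ (.nil △ .nil)) at h1
    rw [comps_node, c1] at h1
    have := congrArg List.length h1
    simp only [List.length_cons, List.length_nil] at this
    omega
  · change _ = comps (_ △ .nil) at h1
    rw [comps_node, cn] at h1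
    exact len _ h1
  · change _ = comps (.nil △ _) at h1
    rw [comps_node, List.cons.injEq] at h1
    exact ne h1.1.symm
  · exact absurd rfl h9
  · change _ = comps (app B ((.nil △ .nil) △ S)) at h1
    rw [comps_app, comps_node] at h1
    have : BinaryTree.nil ∈ comps B ++ (.nil △ .nil) :: comps S := by
      rw [← h1]; simp
    rcases List.mem_append.1 this with h2 | h2
    · exact oB h2
    · rcases List.mem_cons.1 h2 with h2 | h2
      · exact ne h2
      · exact oS h2
  · change _ = comps (app B (.nil △ (.nil △ S))) at h1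
    rw [comps_app, comps_node, comps_node, cB] at h1
    rcases hc : comps B0 with _ | ⟨x, l⟩
    · rw [hc] at h1
      simp only [List.nil_append, List.singleton_append, List.cons.injEq] at h1
      exact absurd h1.1 (by decide)
    · rw [hc] at h1
      simp only [List.cons_append, List.append_assoc, List.cons.injEq] at h1
      rcases l with _ | ⟨y, l⟩
      · simp only [List.nil_append, List.singleton_append, List.cons.injEq] at h1
        exact absurd h1.2.1 (by decide)
      · simp only [List.cons_append, List.cons.injEq] at h1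
        apply oB
        rw [cB, hc, ← h1.2.1]
        simp
  · change _ = comps (S △ app B (.nil △ .nil)) at h1
    rw [comps_node, List.cons.injEq] at h1
    rw [← h1.1, hz] at c
    omega
  · change _ = comps (app S (app B (.nil △ .nil) △ .nil)) at h1
    rw [comps_app, hS1, List.cons_append, List.cons.injEq] at h1
    exact hs3 h1.1.symm
  · change _ = comps ((.nil △ S) △ B) at h1
    rw [comps_node, List.cons.injEq] at h1
    have h2 := (H1.node_inj h1.1).2
    exact nS h2.symm
  · change _ = comps (.nil △ _) at h1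
    rw [comps_node, List.cons.injEq] at h1
    exact ne h1.1.symm
  · change _ = comps (app S (B △ (.nil △ .nil))) at h1
    rw [comps_app, hS1, List.cons_append, List.cons.injEq] at h1
    exact hs3 h1.1.symm
  · change _ = comps (_ △ .nil) at h1
    rw [comps_node, cn] at h1
    exact len _ h1
  · change _ = comps (.nil △ _) at h1
    rw [comps_node, List.cons.injEq] at h1
    exact ne h1.1.symm
  · change _ = comps (_ △ .nil) at h1
    rw [comps_node, cn] at h1
    exact len _ h1

end J59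

open J59 J3

variable {k n q : ℕ} {F F' : Set (Cyc k)} {g g' : DG k}

/-- **W-J33-J33**, the condition `sJ33J33` -/
theorem TyJ33Q.dis_J33' (hd : ∀ c ∈ F, c ∉ F') (hs : sJ33J33 F F' g g') : ∀ w ∈ g.B, w ∉ g'.B := by
  obtain ⟨R, B, S, w0, R', B', S', w0', h1, h2, hU, hc⟩ := hs
  intro w hw hw'
  obtain ⟨i, hi, -, e⟩ := h1.word hw
  obtain ⟨j, hj, -, e'⟩ := h2.word hw'
  refine SqD.dis h1.1 h2.1 (w0 := w0) (w0' := w0') ?_ hU ?_ ?_ hi hj (e.symm.trans e')
  · intro e5
    apply hd (cyc (sX R B S w0 0))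
    · rw [h1.2.2.2.2.1]
      exact Or.inl rfl
    · rw [h2.2.2.2.2.1, e5]
      exact Or.inl rfl
  · obtain ⟨a, -, -⟩ := h1.hts
    obtain ⟨b, -, -⟩ := h2.hts
    right; right
    omega
  · intro Q
    refine ⟨?_, (hc Q).1, ?_, (hc Q).2⟩
    · rintro ⟨-, h⟩
      exact h2.no2 h
    · rintro ⟨-, h⟩
      exact h1.no2 h

/-- **W-J33-J33**, different contents -/
theorem TyJ33Q.dis_J33 (h : TyJ33Q F g) (h' : TyJ33Q F' g') (hd : ∀ c ∈ F, c ∉ F')
    (hc : (∀ c ∈ F, ∀ c' ∈ F', contc c ≠ contc c') ∨ sJ33J33 F F' g g') : ∀ w ∈ g.B, w ∉ g'.B := by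
  rcases hc with hc | hc
  · obtain ⟨R, B, S, w0, h1⟩ := h.data
    obtain ⟨R', B', S', w0', h2⟩ := h'.data
    have key : OddHC.cont R ≠ OddHC.cont R' := by
      intro e
      apply hc (cyc (sX R B S w0 0)) (by rw [h1.2.2.2.2.1]; exact Or.inl rfl)
        (cyc (sX R' B' S' w0' 0)) (by rw [h2.2.2.2.2.1]; exact Or.inl rfl)
      rw [contc_cyc, contc_cyc, h1.1.word w0 (by norm_num), h2.1.word w0' (by norm_num)]
      change OddHC.cont (app R ((.nil △ .nil) △ .nil)) = OddHC.cont (app R' ((.nil △ .nil) △ .nil))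
      rw [cont_app, cont_app, e]
    apply TyJ33Q.dis_J33' hd
    refine ⟨R, B, S, w0, R', B', S', w0', h1, h2, ?_, ?_⟩
    · intro n x y hx hy e
      apply key
      rw [← hx, ← hy, ← contc_cyc, ← contc_cyc, e]
    · intro Q
      have e1 : ∀ Z : BinaryTree Unit, OddHC.cont ((.nil △ .nil) △ Z) =
        raise (OddHC.cont (.nil △ .nil)) + OddHC.cont Z := fun Z => cont_node _ _
      constructor
      · rintro ⟨a, b⟩
        apply key
        rw [← h1.1.cont, a, b, cont_app, e1, e1]
        ac_rfl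
      · rintro ⟨a, b⟩
        apply key
        rw [← h2.1.cont, a, b, cont_app, e1, e1]
        ac_rfl
  · exact TyJ33Q.dis_J33' hd hc

/-- **W-Dn-J33** -/
theorem TyJ33Q.dis_Dn (h : TyJ33Q F g) (h' : TyDn F' g') : ∀ w ∈ g.B, w ∉ g'.B := by
  intro w hw hw'
  obtain ⟨R, B, S, w0, h1⟩ := h.data
  obtain ⟨i, hi, h9, e⟩ := h1.word hw
  obtain ⟨U, hU, a, b, c, ha, hb, hc, -, -, -, -, rfl⟩ := h'
  have hw2 : w ∈ ({a, b, c} : Finset (X k)) := hw'
  simp only [Finset.mem_insert, Finset.mem_singleton] at hw2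
  rcases hw2 with rfl | rfl | rfl
  · apply h1.noH hU.h3 hi h9
    rw [← e, ha]
    rfl
  · have h2 := h1.two hi
    rw [← e, hb] at h2
    change 2 ∈ OddHC.cont (app U (((.nil △ .nil) △ .nil) △ .nil)) at h2
    rw [cont_app, Multiset.mem_add] at h2
    rcases h2 with h2 | h2
    · exact absurd (Multiset.count_pos.2 h2) (by rw [hU.c2]; omega)
    · have e3 : OddHC.cont (((.nil △ .nil) △ .nil) △ .nil : BinaryTree Unit) = {3} := by
        have := cont_pc 2
        exact this
      rw [e3, Multiset.mem_singleton] at h2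
      omega
  · apply h1.noN hU.len hi h9
    rw [← e, hc]
    rfl

/-- **W-J1-J33** -/
theorem TyJ33Q.dis_J1 (h : TyJ33Q F g) (hk : 13 ≤ k) (h' : J1.TyJs F' g') : ∀ w ∈ g.B, w ∉ g'.B := by
  intro w hw hw'
  obtain ⟨R, B, S, w0, h1⟩ := h.data
  have h2 := h1.low hw
  have h3 := h'.big hk w hw'
  omega

/-- **W-J1M-J33** -/
theorem TyJ33Q.dis_J4 (h : TyJ33Q F g) (hk : 13 ≤ k) (h' : J1.TyJt F' g') : ∀ w ∈ g.B, w ∉ g'.B := by
  intro w hw hw'
  obtain ⟨R, B, S, w0, h1⟩ := h.data
  have h2 := h1.low hw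
  have h3 := h'.big7 hk w hw'
  omega

/-- **I-J33-J1** -/
theorem TyJ33Q.inner_J1 (h : TyJ33Q F g) (hk : 13 ≤ k) (h' : J1.TyJs F' g') :
    ∀ a ∈ g.arcs, ∀ w ∈ innA a, w ∉ g'.B := by
  intro a ha w hw hw'
  obtain ⟨R, B, S, w0, h1⟩ := h.data
  have h2 := h1.lowInn ha hw
  have h3 := h'.big hk w hw'
  omega

/-- **I-J33-J1M** -/
theorem TyJ33Q.inner_J4 (h : TyJ33Q F g) (hk : 13 ≤ k) (h' : J1.TyJt F' g') :
    ∀ a ∈ g.arcs, ∀ w ∈ innA a, w ∉ g'.B := by
  intro a ha w hw hw'
  obtain ⟨R, B, S, w0, h1⟩ := h.data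
  have h2 := h1.lowInn ha hw
  have h3 := h'.big7 hk w hw'
  omega

end Pool.OddHC
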