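import Pool.Agent.Work.MP_8f87b2_h13.TyR3
import Pool.Agent.Work.MP_8f87b2_h35.InJ
import Pool.Agent.Work.MP_8f87b2_h84.Rows
import Pool.Agent.Work.MP_8f87b2_h22.JX

/-!
# MP_8f87b2_co: the right windows R3, S3 (`c = 3`) against the one-soliton gadgets (JM, JY, J4, J5, NM in the form `JG`)

`w_t3`: every word of a window has at least two parts `≥ 3`. `TyR3.dis_JG`, `TyS3.dis_JG`: no common word.
`TyR3.inner_JG`, `TyS3.inner_JG`: the inner words (clean phase for word 6 at content `{h, 3, 3}`).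
`JG.inner_R3`, `JG.inner_S3`: the inner words of the one-soliton gadgets.
-/

set_option autoImplicit false

namespace Pool.OddHC

open Finset Equiv BinaryTree Pool.Agent.Work.MP_8f87b2_co HM

namespace J59

open J

variable {k n : ℕ} {R B S A : BinaryTree Unit}

/-- all parts at least 3 -/
def hv3 (A : BinaryTree Unit) : Prop := ∀ x ∈ OddHC.cont A, 3 ≤ x

theorem hv3.o1 (h : hv3 A) : J.o1 A = 0 := by
  unfold J.o1
  rw [Multiset.count_eq_zero]
  intro h1
  have := h 1 h1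
  omega

theorem hv3.ht (h : hv3 A) (h0 : A ≠ .nil) : 3 ≤ OddHC.ht A := by
  rw [OddHC.ht_eq]
  exact h _ (sup_mem fun e => h0 (cont_eq_zero.1 e))

theorem hv3.t3n (h : hv3 A) (C : BinaryTree Unit) : t3 (A △ C) = t3 A + t3 C := by
  by_cases h0 : A = .nil
  · subst h0
    rw [t3_o, t3_nil, zero_add]
  · exact t3_hi (h.ht h0) C

theorem hv3.o1n (h : hv3 A) (h0 : A ≠ .nil) (C : BinaryTree Unit) : J.o1 (A △ C) = J.o1 C := by
  have := h.ht h0
  rw [o1_hi (by omega), h.o1, zero_add]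

theorem t3_ge (A C : BinaryTree Unit) : t3 C ≤ t3 (A △ C) := by
  rw [t3_node]
  omega

theorem t3b (t : ℕ) : t3 (b2 t) = 0 := by
  induction t with
  | zero => rfl
  | succ t ih =>
    change t3 ((.nil △ .nil) △ b2 t) = 0
    rw [t3_l1, ih]

theorem o1b (t : ℕ) : J.o1 (b2 t) = 0 := by
  induction t with
  | zero => rfl
  | succ t ih =>
    change J.o1 ((.nil △ .nil) △ b2 t) = 0
    rw [o1_l1, ih]

theorem htb (t : ℕ) : OddHC.ht (b2 (t + 1)) = 2 := by
  induction t with
  | zero => rfl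
  | succ t ih =>
    change OddHC.ht ((.nil △ .nil) △ b2 (t + 1)) = 2
    rw [ht_node, ih]
    rfl

/-- the mixed words with two parts at least 3 -/
def MF (w : BinaryTree Unit) : Prop :=
  ∃ (t u : ℕ) (D : BinaryTree Unit), GD D ∧
    ((J.o1 w = 1 ∧ (w = (.nil △ b2 (t + 1)) △ RR u D 0 ∨ w = .nil △ (b2 (t + 1) △ RR u D 0) ∨
        w = b2 (t + 1) △ app (RR u D 0) (.nil △ .nil))) ∨
      (J.o1 w = 0 ∧ w = (b2 (t + 1) △ RR u D 0) △ .nil))

theorem RR_snoc (p : ℕ) (D : BinaryTree Unit) (t : ℕ) : RR p D t = app (RR p D 0) (b2 t) := by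
  apply cs_inj
  rw [cs_app, cs_RR, cs_RR, cs_b2]
  simp

theorem mf_of (hn : 1 ≤ n) {C : Finset (X k)} {P U M : Set (ZMod (2 * n + 1) → ℕ)}
    (h : JG n C P U M) {w : X k} (hw : w ∈ C) (h2 : 2 ≤ t3 w.1) : MF w.1 := by
  rcases h w hw with ⟨Φ, _, h1⟩ | ⟨G, _, _, h1⟩ | ⟨Ψ, _, h1⟩
  · have := h1.t3 hn
    omega
  · rw [h1, t3_RF hn] at h2
    omega
  · obtain ⟨t, u, D, ht1, hD, e, hcs⟩ := mx_cases h1
    obtain ⟨t, rfl⟩ : ∃ m, t = m + 1 := ⟨t - 1, by omega⟩
    have e3 := t3_RF hn Ψ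
    have e1 := o1_RF hn Ψ
    rw [e, RR_snoc, t3_app, t3b, add_zero] at e3
    rw [e, RR_snoc, o1_app, o1b, add_zero] at e1
    have hS : 3 ≤ OddHC.ht (RR u D 0) := by
      rw [ht_RR hD]
      have := hD.ht
      omega
    have hb := htb t
    have tb := t3b (t + 1)
    have ob := o1b (t + 1)
    have z3 : t3 (BinaryTree.nil : BinaryTree Unit) = 0 := rfl
    have z1 : J.o1 (BinaryTree.nil : BinaryTree Unit) = 0 := rfl
    have z0 : OddHC.ht (BinaryTree.nil : BinaryTree Unit) = 0 := rfl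
    rcases hcs with e0 | e0 | e0 | e0 | e0 | e0 | e0 | e0 | e0
    · rw [e0, t3_app, t3_o, t3_o] at h2
      omega
    · rw [e0, t3_o, t3_app, t3_hi hS] at h2
      omega
    · refine ⟨t, u, D, hD, Or.inl ⟨?_, Or.inl e0⟩⟩
      rw [e0, o1_hi (by rw [ht_node]; omega), o1_o]
      omega
    · rw [e0, t3_app, t3_hi (by rw [ht_app]; omega), t3_app, t3_o] at h2
      omega
    · rw [e0, t3_app, t3_hi hS, t3_o] at h2
      omega
    · refine ⟨t, u, D, hD, Or.inl ⟨?_, Or.inr (Or.inl e0)⟩⟩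
      rw [e0, o1_o, o1_hi (by omega)]
      omega
    · rw [e0, t3_hi (by rw [ht_app, ht_node]; omega), t3_app, t3_hi hS] at h2
      omega
    · refine ⟨t, u, D, hD, Or.inl ⟨?_, Or.inr (Or.inr e0)⟩⟩
      rw [e0, o1_hi (by omega), o1_app, o1_o]
      omega
    · refine ⟨t, u, D, hD, Or.inr ⟨?_, e0⟩⟩
      rw [e0, o1_hi (by rw [ht_node]; omega), o1_hi (by omega)]
      omega

/-! ### The words of the windows -/

theorem nR (h : NodeM k 0 R B S) : hv3 R := fun x hx => h.part x hx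

theorem nB (h : NodeM k 0 R B S) : hv3 B := fun x hx =>
  h.part x (by rw [← h.eq]; exact Multiset.mem_add.2 (Or.inl hx))

theorem nS (h : NodeM k 0 R B S) : hv3 S := fun x hx =>
  h.part x (by rw [← h.eq]; exact Multiset.mem_add.2 (Or.inr hx))

theorem htSR (h : NodeM k 0 R B S) : OddHC.ht S = OddHC.ht R := h.dat.htS

theorem neS (h : NodeM k 0 R B S) : S ≠ .nil := by
  rintro rfl
  have h1 := htSR h
  have h2 := h.top
  rw [← h1, OddHC.ht] at h2
  omega

theorem t3R (h : NodeM k 0 R B S) : 2 ≤ t3 R :=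
  two_c3 h.mem (by omega) (by rw [← OddHC.ht_eq]; exact h.top)

theorem t3BS (h : NodeM k 0 R B S) : t3 B + t3 S = t3 R := by
  unfold t3
  rw [← h.eq, Multiset.countP_add]

/-- **every word of a window has at least two parts `≥ 3`** -/
theorem w_t3 (h : NodeM k 0 R B S) {i : ℕ} (hi : i < 20) :
    2 ≤ t3 (H1.W R (H1.ch (0 + 1)) B S i) := by
  have hR := nR h
  have hB := nB h
  have hS := nS h
  have h1 := htSR h
  have h2 := h.top
  have h3 := t3R h
  have h4 := t3BS h
  have z3 : t3 (BinaryTree.nil : BinaryTree Unit) = 0 := rfl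
  have z0 : OddHC.ht (BinaryTree.nil : BinaryTree Unit) = 0 := rfl
  interval_cases i
  · change 2 ≤ t3 (app R (((.nil △ .nil) △ .nil) △ .nil))
    rw [t3_app]; omega
  · change 2 ≤ t3 (app R (.nil △ (.nil △ (.nil △ .nil))))
    rw [t3_app]; omega
  · change 2 ≤ t3 (.nil △ app R (.nil △ (.nil △ .nil)))
    rw [t3_o, t3_app]; omega
  · change 2 ≤ t3 (app R (.nil △ (.nil △ .nil)) △ .nil)
    rw [t3_hi (by rw [ht_app]; omega), t3_app]; omega
  · change 2 ≤ t3 ((.nil △ (.nil △ .nil)) △ R)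
    exact h3.trans (t3_ge _ _)
  · change 2 ≤ t3 ((.nil △ .nil) △ (.nil △ R))
    rw [t3_l1, t3_o]; omega
  · change 2 ≤ t3 (R △ ((.nil △ .nil) △ .nil))
    rw [hR.t3n]; omega
  · change 2 ≤ t3 (.nil △ ((.nil △ R) △ .nil))
    rw [t3_o, t3_hi (by rw [ht_node]; omega), t3_o]; omega
  · change 2 ≤ t3 (.nil △ (.nil △ (R △ .nil)))
    rw [t3_o, t3_o, hR.t3n]; omega
  · change 2 ≤ t3 ((R △ .nil) △ (.nil △ .nil))
    rw [t3_hi (by rw [ht_node]; omega), hR.t3n]; omega
  · change 2 ≤ t3 (app B (((.nil △ .nil) △ .nil) △ S))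
    have := t3_ge ((.nil △ .nil) △ .nil) S
    rw [t3_app]; omega
  · change 2 ≤ t3 (app B (.nil △ (.nil △ (.nil △ S))))
    rw [t3_app, t3_o, t3_o, t3_o]; omega
  · change 2 ≤ t3 (S △ app B (.nil △ (.nil △ .nil)))
    rw [hS.t3n, t3_app]; omega
  · change 2 ≤ t3 (app S (app B (.nil △ (.nil △ .nil)) △ .nil))
    rw [t3_app]
    by_cases hb : B = .nil
    · subst hb; omega
    · have := hB.ht hb
      rw [t3_hi (by rw [ht_app]; omega), t3_app]; omega
  · change 2 ≤ t3 ((.nil △ (.nil △ S)) △ B)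
    rw [t3_hi (by rw [ht_node, ht_node]; omega), t3_o, t3_o]; omega
  · change 2 ≤ t3 ((.nil △ .nil) △ (S △ B))
    rw [t3_l1, hS.t3n]; omega
  · change 2 ≤ t3 (app S (B △ ((.nil △ .nil) △ .nil)))
    rw [t3_app, hB.t3n]; omega
  · change 2 ≤ t3 (.nil △ ((S △ B) △ .nil))
    rw [t3_o, t3_hi (by rw [ht_node]; omega), hS.t3n]; omega
  · change 2 ≤ t3 (.nil △ (.nil △ app S (B △ .nil)))
    rw [t3_o, t3_o, t3_app, hB.t3n]; omega
  · change 2 ≤ t3 (app S (B △ .nil) △ (.nil △ .nil))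
    rw [t3_hi (by rw [ht_app]; omega), t3_app, hB.t3n]; omega

theorem rr_ne (p : ℕ) (D : BinaryTree Unit) (t : ℕ) : RR p D t ≠ .nil := by
  intro e
  have := congrArg cs e
  rw [cs_RR] at this
  simp at this

theorem ls_rr (u : ℕ) (D : BinaryTree Unit) : ls (RR u D 0) = D := by
  have e : RR u D 0 = app (b2 u) (D △ .nil) := by
    apply cs_inj
    rw [cs_app, cs_RR, cs_b2]
    simp
  rw [e, ls_app _ (by simp), ls_single]

theorem gd_ne {D C : BinaryTree Unit} (h : GD D) : D ≠ .nil △ C := by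
  rintro rfl
  have := h.nn .nil (by rw [cs_node']; exact List.mem_cons_self)
  simp [isN] at this

/-- the last component of the mixed words of type A, B, C -/
theorem ls_mf {w : BinaryTree Unit} {t u : ℕ} {D : BinaryTree Unit}
    (h : w = (.nil △ b2 (t + 1)) △ RR u D 0 ∨ w = .nil △ (b2 (t + 1) △ RR u D 0) ∨
        w = b2 (t + 1) △ app (RR u D 0) (.nil △ .nil)) : ls w = D ∨ ls w = .nil := by
  rcases h with rfl | rfl | rfl
  · left
    rw [ls_node _ (rr_ne _ _ _), ls_rr]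
  · left
    rw [ls_node _ (by simp), ls_node _ (rr_ne _ _ _), ls_rr]
  · right
    rw [ls_node _ (by
      intro e
      have := congrArg cs e
      rw [cs_app] at this
      simp at this), ls_app _ (by simp), ls_single]

/-- the first component of the mixed words of type A, B, C -/
theorem fs_mf {w : BinaryTree Unit} {t u : ℕ} {D : BinaryTree Unit}
    (h : w = (.nil △ b2 (t + 1)) △ RR u D 0 ∨ w = .nil △ (b2 (t + 1) △ RR u D 0) ∨
        w = b2 (t + 1) △ app (RR u D 0) (.nil △ .nil)) :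
    fs w = .nil △ ((.nil △ .nil) △ b2 t) ∨ fs w = .nil ∨ fs w = (.nil △ .nil) △ b2 t := by
  rcases h with rfl | rfl | rfl
  · left; rfl
  · right; left; rfl
  · right; right; rfl

/-- **no word of a window is such a mixed word** -/
theorem w_mf (h : NodeM k 0 R B S) {i : ℕ} (hi : i < 20) (e : MF (H1.W R (H1.ch (0 + 1)) B S i)) :
    t3 (H1.W R (H1.ch (0 + 1)) B S i) ≠ 2 := by
  intro e2
  obtain ⟨t, u, D, hD, hc⟩ := e
  have hR := nR h
  have hB := nB h
  have hS := nS h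
  have h1 := htSR h
  have h2 := h.top
  have h3 := t3R h
  have h4 := t3BS h
  have oR := hR.o1
  have oB := hB.o1
  have oS := hS.o1
  have hR0 : R ≠ .nil := h.ne
  have hS0 := neS h
  have z3 : t3 (BinaryTree.nil : BinaryTree Unit) = 0 := rfl
  have z1 : J.o1 (BinaryTree.nil : BinaryTree Unit) = 0 := rfl
  have z0 : OddHC.ht (BinaryTree.nil : BinaryTree Unit) = 0 := rfl
  have c3 : t3 (((.nil △ .nil) △ .nil) △ .nil) = 1 := by decide
  interval_cases i
  · -- 0
    change t3 (app R (((.nil △ .nil) △ .nil) △ .nil)) = 2 at e2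
    rw [t3_app] at e2; omega
  · -- 1
    change (J.o1 (app R (.nil △ (.nil △ (.nil △ .nil)))) = 1 ∧ _) ∨
      (J.o1 (app R (.nil △ (.nil △ (.nil △ .nil)))) = 0 ∧ _) at hc
    rw [o1_app, o1_o, o1_o, o1_o] at hc; omega
  · -- 2
    change (J.o1 (.nil △ app R (.nil △ (.nil △ .nil))) = 1 ∧ _) ∨
      (J.o1 (.nil △ app R (.nil △ (.nil △ .nil))) = 0 ∧ _) at hc
    rw [o1_o, o1_app, o1_o, o1_o] at hc; omega
  · -- 3
    change (J.o1 (app R (.nil △ (.nil △ .nil)) △ .nil) = 1 ∧ _) ∨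
      (J.o1 (app R (.nil △ (.nil △ .nil)) △ .nil) = 0 ∧ _) at hc
    rw [o1_hi (by rw [ht_app]; omega), o1_app, o1_o, o1_o] at hc; omega
  · -- 4
    change (_ ∧ _) ∨ (J.o1 ((.nil △ (.nil △ .nil)) △ R) = 0 ∧
      (.nil △ (.nil △ .nil)) △ R = (((.nil △ .nil) △ b2 t) △ RR u D 0) △ .nil) at hc
    rcases hc with ⟨_, hc⟩ | ⟨_, hc⟩
    · have h5 := fs_mf hc
      change (.nil △ (.nil △ .nil) : BinaryTree Unit) = _ ∨ (.nil △ (.nil △ .nil) : BinaryTree Unit) = _ ∨
        (.nil △ (.nil △ .nil) : BinaryTree Unit) = _ at h5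
      rcases h5 with h5 | h5 | h5
      · have := (node_inj' (node_inj' h5).2).1
        simp at this
      · simp at h5
      · have := (node_inj' h5).1
        simp at this
    · have := (node_inj' hc).2
      exact hR0 this
  · -- 5
    rcases hc with ⟨_, hc⟩ | ⟨_, hc⟩
    · have h5 := fs_mf hc
      change (.nil △ .nil : BinaryTree Unit) = _ ∨ (.nil △ .nil : BinaryTree Unit) = _ ∨
        (.nil △ .nil : BinaryTree Unit) = _ at h5
      rcases h5 with h5 | h5 | h5
      · have := (node_inj' h5).2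
        simp at this
      · simp at h5
      · have := (node_inj' h5).1
        simp at this
    · have := (node_inj' hc).2
      simp at this
  · -- 6
    rcases hc with ⟨hc, _⟩ | ⟨_, hc⟩
    · change J.o1 (R △ ((.nil △ .nil) △ .nil)) = 1 at hc
      rw [hR.o1n hR0, o1_l1] at hc
      omega
    · have := (node_inj' hc).2
      simp at this
  · -- 7
    change (J.o1 (.nil △ ((.nil △ R) △ .nil)) = 1 ∧ _) ∨
      (J.o1 (.nil △ ((.nil △ R) △ .nil)) = 0 ∧ _) at hc
    rw [o1_o, o1_hi (by rw [ht_node]; omega), o1_o] at hc; omega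
  · -- 8
    change (J.o1 (.nil △ (.nil △ (R △ .nil))) = 1 ∧ _) ∨
      (J.o1 (.nil △ (.nil △ (R △ .nil))) = 0 ∧ _) at hc
    rw [o1_o, o1_o] at hc; omega
  · -- 9
    rcases hc with ⟨_, hc⟩ | ⟨_, hc⟩
    · have h5 := fs_mf hc
      change (R △ .nil : BinaryTree Unit) = _ ∨ (R △ .nil : BinaryTree Unit) = _ ∨
        (R △ .nil : BinaryTree Unit) = _ at h5
      rcases h5 with h5 | h5 | h5
      · exact hR0 (node_inj' h5).1
      · simp at h5
      · have := (node_inj' h5).1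
        rw [this] at h2
        revert h2
        decide
    · have := (node_inj' hc).2
      change (.nil △ .nil : BinaryTree Unit) = .nil at this
      simp at this
  · -- 10
    change t3 (app B (((.nil △ .nil) △ .nil) △ S)) = 2 at e2
    have h5 : t3 (((.nil △ .nil) △ .nil) △ S) = 1 + t3 S := by
      rw [t3_node]; rfl
    rw [t3_app, h5] at e2
    omega
  · -- 11
    change (J.o1 (app B (.nil △ (.nil △ (.nil △ S)))) = 1 ∧ _) ∨
      (J.o1 (app B (.nil △ (.nil △ (.nil △ S)))) = 0 ∧ _) at hc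
    rw [o1_app, o1_o, o1_o, o1_o] at hc; omega
  · -- 12
    change (J.o1 (S △ app B (.nil △ (.nil △ .nil))) = 1 ∧ _) ∨
      (J.o1 (S △ app B (.nil △ (.nil △ .nil))) = 0 ∧ _) at hc
    rw [hS.o1n hS0, o1_app, o1_o, o1_o] at hc; omega
  · -- 13
    by_cases hb : B = .nil
    · subst hb
      have hl : ls (app S ((.nil △ (.nil △ .nil)) △ .nil)) = .nil △ (.nil △ .nil) := by
        rw [ls_app _ (by simp), ls_single]
      rcases hc with ⟨_, hc⟩ | ⟨hc, _⟩
      · have h5 := ls_mf hc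
        change ls (app S ((.nil △ (.nil △ .nil)) △ .nil)) = D ∨
          ls (app S ((.nil △ (.nil △ .nil)) △ .nil)) = .nil at h5
        rw [hl] at h5
        rcases h5 with h5 | h5
        · exact gd_ne hD h5.symm
        · simp at h5
      · change J.o1 (app S ((.nil △ (.nil △ .nil)) △ .nil)) = 0 at hc
        have h6 : J.o1 ((.nil △ (.nil △ .nil)) △ .nil) = 1 := by
          rw [o1_node]; decide
        rw [o1_app, h6] at hc
        omega
    · have h5 := hB.ht hb
      change (J.o1 (app S (app B (.nil △ (.nil △ .nil)) △ .nil)) = 1 ∧ _) ∨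
        (J.o1 (app S (app B (.nil △ (.nil △ .nil)) △ .nil)) = 0 ∧ _) at hc
      rw [o1_app, o1_hi (by rw [ht_app]; omega), o1_app, o1_o, o1_o] at hc
      omega
  · -- 14
    change (J.o1 ((.nil △ (.nil △ S)) △ B) = 1 ∧ _) ∨ (J.o1 ((.nil △ (.nil △ S)) △ B) = 0 ∧ _) at hc
    rw [o1_hi (by rw [ht_node, ht_node]; omega), o1_o, o1_o] at hc
    omega
  · -- 15
    rcases hc with ⟨hc, _⟩ | ⟨_, hc⟩
    · change J.o1 ((.nil △ .nil) △ (S △ B)) = 1 at hc
      rw [o1_l1, hS.o1n hS0] at hc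
      omega
    · have := (node_inj' hc).2
      simp at this
  · -- 16
    rcases hc with ⟨hc0, hc⟩ | ⟨_, hc⟩
    · by_cases hb : B = .nil
      · subst hb
        have h5 := ls_mf hc
        have hl : ls (app S (.nil △ ((.nil △ .nil) △ .nil))) = .nil △ .nil := by
          rw [ls_app _ (by simp), ls_node _ (by simp), ls_single]
        change ls (app S (.nil △ ((.nil △ .nil) △ .nil))) = D ∨
          ls (app S (.nil △ ((.nil △ .nil) △ .nil))) = .nil at h5
        rw [hl] at h5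
        rcases h5 with h5 | h5
        · exact gd_ne hD h5.symm
        · simp at h5
      · change J.o1 (app S (B △ ((.nil △ .nil) △ .nil))) = 1 at hc0
        rw [o1_app, hB.o1n hb, o1_l1] at hc0
        omega
    · have h5 := congrArg nc hc
      change nc (app S (B △ ((.nil △ .nil) △ .nil))) = 1 at h5
      rw [nc_app, nc_node, nc_node, nc_nil] at h5
      omega
  · -- 17
    rcases hc with ⟨_, hc⟩ | ⟨hc, _⟩
    · rcases hc with hc | hc | hc
      · have := (node_inj' hc).1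
        change BinaryTree.nil = _ at this
        simp at this
      · have h5 := (node_inj' (node_inj' hc).2).1
        have h6 := (node_inj' h5).1
        rw [h6] at h1
        have : OddHC.ht (BinaryTree.nil △ BinaryTree.nil : BinaryTree Unit) = 1 := rfl
        omega
      · have := (node_inj' hc).1
        change BinaryTree.nil = (.nil △ .nil) △ b2 t at this
        simp at this
    · change J.o1 (.nil △ ((S △ B) △ .nil)) = 0 at hc
      rw [o1_o] at hc
      omega
  · -- 18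
    change (J.o1 (.nil △ (.nil △ app S (B △ .nil))) = 1 ∧ _) ∨
      (J.o1 (.nil △ (.nil △ app S (B △ .nil))) = 0 ∧ _) at hc
    rw [o1_o, o1_o] at hc
    omega
  · -- 19
    have hl : ls (app S (B △ .nil) △ (.nil △ .nil)) = .nil := by
      rw [ls_node _ (by simp), ls_single]
    rcases hc with ⟨_, hc⟩ | ⟨_, hc⟩
    · rcases hc with hc | hc | hc
      · have h5 := congrArg ls hc
        change ls (app S (B △ .nil) △ (.nil △ .nil)) = _ at h5
        rw [hl, ls_node _ (rr_ne _ _ _), ls_rr] at h5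
        have := hD.ht
        rw [← h5] at this
        revert this
        decide
      · have h5 := (node_inj' hc).1
        have h6 := congrArg nc h5
        rw [nc_app, nc_node, nc_nil] at h6
        omega
      · have h5 := congrArg nc (node_inj' hc).2
        change nc (.nil △ .nil : BinaryTree Unit) = _ at h5
        rw [nc_app, nc_node, nc_nil] at h5
        have := nc_pos (rr_ne u D 0)
        omega
    · have := (node_inj' hc).2
      change (.nil △ .nil : BinaryTree Unit) = .nil at this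
      simp at this

/-- the words of the mixed type have exactly two parts at least 3 -/
theorem mf_t3 (hn : 1 ≤ n) {C : Finset (X k)} {P U M : Set (ZMod (2 * n + 1) → ℕ)}
    (h : JG n C P U M) {w : X k} (hw : w ∈ C) : t3 w.1 ≤ 2 := by
  rcases h w hw with ⟨Φ, _, h1⟩ | ⟨G, _, _, h1⟩ | ⟨Ψ, _, h1⟩
  · have := h1.t3 hn
    omega
  · rw [h1, t3_RF hn]
    omega
  · obtain ⟨t, u, D, ht1, hD, e, hcs⟩ := mx_cases h1
    obtain ⟨t, rfl⟩ : ∃ m, t = m + 1 := ⟨t - 1, by omega⟩
    have e3 := t3_RF hn Ψ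
    rw [e, RR_snoc, t3_app, t3b, add_zero] at e3
    have hS : 3 ≤ OddHC.ht (RR u D 0) := by
      rw [ht_RR hD]
      have := hD.ht
      omega
    have hb := htb t
    have tb := t3b (t + 1)
    have z3 : t3 (BinaryTree.nil : BinaryTree Unit) = 0 := rfl
    have z0 : OddHC.ht (BinaryTree.nil : BinaryTree Unit) = 0 := rfl
    have k1 : ∀ A C : BinaryTree Unit, t3 (A △ C) ≤ t3 A + 1 + t3 C := by
      intro A C
      rw [t3_node]
      have : (raise (OddHC.cont A)).countP (3 ≤ ·) ≤ (OddHC.cont A).countP (3 ≤ ·) + 1 :=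
        c3_raise_le _
      unfold t3
      omega
    rcases hcs with e0 | e0 | e0 | e0 | e0 | e0 | e0 | e0 | e0
    · rw [e0, t3_app, t3_o, t3_o]
      omega
    · rw [e0, t3_o, t3_app, t3_hi hS]
      omega
    · rw [e0]
      have := k1 (.nil △ b2 (t + 1)) (RR u D 0)
      rw [t3_o] at this
      omega
    · rw [e0, t3_app, t3_hi (by rw [ht_app]; omega), t3_app, t3_o]
      omega
    · rw [e0, t3_app, t3_hi hS, t3_o]
      omega
    · rw [e0, t3_o]
      have := k1 (b2 (t + 1)) (RR u D 0)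
      omega
    · rw [e0, t3_hi (by rw [ht_app, ht_node]; omega), t3_app, t3_hi hS]
      omega
    · rw [e0]
      have := k1 (b2 (t + 1)) (app (RR u D 0) (.nil △ .nil))
      rw [t3_app, t3_o] at this
      omega
    · rw [e0, t3_hi (by rw [ht_node]; omega)]
      have := k1 (b2 (t + 1)) (RR u D 0)
      omega

/-- **no word of a window is a word of a one-soliton gadget** -/
theorem w_not_JG (h : NodeM k 0 R B S) (w0 : X k) {i : ℕ} (hi : i < 20) (hn : 1 ≤ n)
    {C : Finset (X k)} {P U M : Set (ZMod (2 * n + 1) → ℕ)} (h' : JG n C P U M) :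
    H1.wX R B S 0 w0 i ∉ C := by
  intro hw
  have e := H1.wX_eq h.dat h.size w0 hi
  have h1 := w_t3 h hi
  rw [← e] at h1
  have h2 := mf_t3 hn h' hw
  have h3 := mf_of hn h' hw h1
  rw [e] at h3
  apply w_mf h hi h3
  rw [← e]
  omega

end J59

open J J59

variable {k n : ℕ} {F F' : Set (Cyc k)} {g g' : DG k}

/-! ### Words -/

/-- **W-R3-JM, W-R3-J3 (J4, J5, NM, JY)** -/
theorem TyR3.dis_JG (h : TyR3 F g) (hn : 1 ≤ n) {C : Finset (X k)} {P U M : Set (ZMod (2 * n + 1) → ℕ)}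
    (h' : JG n C P U M) : ∀ w ∈ g.B, w ∉ C := by
  intro w hw
  obtain ⟨R, B, S, w0, i, h1, -, -, hi, rfl, -⟩ := h.words w hw
  exact w_not_JG h1 w0 hi hn h'

/-- **W-S3-JM, W-S3-J3 (J4, J5, NM, JY)** -/
theorem TyS3.dis_JG (h : TyS3 F g) (hn : 1 ≤ n) {C : Finset (X k)} {P U M : Set (ZMod (2 * n + 1) → ℕ)}
    (h' : JG n C P U M) : ∀ w ∈ g.B, w ∉ C := by
  intro w hw
  obtain ⟨R, B, S, w0, i, h1, -, hi, -, rfl, -⟩ := h.words w hw
  exact w_not_JG h1 w0 hi hn h'

/-! ### Inner words of the one-soliton gadgets -/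

/-- **I-JM-R3, I-J3-R3** -/
theorem JG.inner_R3 (hn : 1 ≤ n) (hp : PathA g) (hA : PureA n g) (h' : TyR3 F' g') :
    ∀ a ∈ g.arcs, ∀ w ∈ innA a, w ∉ g'.B := by
  intro a ha w hw hw'
  have h1 := inn_t3 hn hp hA a ha w hw
  obtain ⟨R, B, S, w0, i, h2, -, -, hi, rfl, -⟩ := h'.words w hw'
  rw [H1.wX_eq h2.dat h2.size w0 hi] at h1
  have := w_t3 h2 hi
  omega

/-- **I-JM-S3, I-J3-S3** -/
theorem JG.inner_S3 (hn : 1 ≤ n) (hp : PathA g) (hA : PureA n g) (h' : TyS3 F' g') :
    ∀ a ∈ g.arcs, ∀ w ∈ innA a, w ∉ g'.B := by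
  intro a ha w hw hw'
  have h1 := inn_t3 hn hp hA a ha w hw
  obtain ⟨R, B, S, w0, i, h2, -, hi, -, rfl, -⟩ := h'.words w hw'
  rw [H1.wX_eq h2.dat h2.size w0 hi] at h1
  have := w_t3 h2 hi
  omega

/-! ### Inner words of the windows -/

/-- clean phase of a window of content `{h, 3, 3}` against the mixed words of the one-soliton gadgets: the inner
word of the arc 6 is not `([3] Y)` -/
def ClJ (g : DG k) : Prop := ∀ p ∈ g.arcs, ∀ w ∈ innA p, 3 ∈ OddHC.cont w.1 → 2 ∈ OddHC.cont w.1 →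
  Multiset.card (OddHC.cont w.1) = 3 → ∀ Y, w.1 = Y △ .nil → H1.fh Y ≠ 2

theorem J59.inn_not_JG {R B S : BinaryTree Unit} (h1 : NodeM k 0 R B S) (w0 : X k) {i : ℕ}
    (hi : i ∈ [0, 1, 3, 6, 8, 9]) {w : X k} (hw : w = TT (H1.wX R B S 0 w0 i))
    (hc : 3 ∈ OddHC.cont w.1 → 2 ∈ OddHC.cont w.1 → Multiset.card (OddHC.cont w.1) = 3 →
      ∀ Y, w.1 = Y △ .nil → H1.fh Y ≠ 2)
    (hn : 1 ≤ n) {C : Finset (X k)} {P U M : Set (ZMod (2 * n + 1) → ℕ)} (h' : JG n C P U M) :
    w ∉ C := by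
  refine h1.not_JG w0 hi (Or.inl hw) ?_ hn h'
  rintro - rfl hcard
  obtain ⟨c1, c2, c3⟩ := h1.winn w0 hi (Or.inl hw)
  obtain ⟨d1, d2⟩ := H1.count_WQ (R := R) (B := B) (S := S) (q := 0) (by have := h1.top; omega)
  refine hc ?_ ?_ ?_
  · rw [c1]
    apply Multiset.count_pos.1
    refine lt_of_lt_of_le ?_ (H1.count_W (R := R) (B := B) (S := S) (q := 0) (x := 3) h1.top 6 hi)
    exact Multiset.count_pos.2 h1.mem
  · rw [c1]
    exact Multiset.count_pos.1 d2
  · rw [c1]
    change Multiset.card (OddHC.cont (R △ (H1.ch 1 △ .nil))) = 3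
    rw [cont_node, Multiset.card_add]
    have h6 : Multiset.card (OddHC.raise (OddHC.cont R)) = 2 := by
      unfold OddHC.raise
      have h0 : OddHC.cont R ≠ 0 := by
        intro h0
        rw [h0] at hcard
        simp at hcard
      rw [Multiset.card_cons, Multiset.card_erase_of_mem (sup_mem h0), hcard]
      rfl
    have h7 : Multiset.card (OddHC.cont (H1.ch 1 △ .nil)) = 1 := rfl
    omega

/-- **I-R3-JM, I-R3-J3**; `hc` only concerns content `{h, 3, 3}` -/
theorem TyR3.inner_JG (h : TyR3 F g) (hc : ClJ g) (hn : 1 ≤ n) {C : Finset (X k)}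
    {P U M : Set (ZMod (2 * n + 1) → ℕ)} (h' : JG n C P U M) :
    ∀ a ∈ g.arcs, ∀ w ∈ innA a, w ∉ C := by
  intro a ha w hw
  obtain ⟨R, B, S, w0, i, h1, -, -, hi, e, -⟩ := h.inn a ha
  have e' : w = TT a.1 := hw
  exact inn_not_JG h1 w0 hi (by rw [e', e]) (hc a ha w hw) hn h'

/-- **I-S3-JM, I-S3-J3**; `hc` only concerns content `{h, 3, 3}` -/
theorem TyS3.inner_JG (h : TyS3 F g) (hc : ClJ g) (hn : 1 ≤ n) {C : Finset (X k)}
    {P U M : Set (ZMod (2 * n + 1) → ℕ)} (h' : JG n C P U M) :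
    ∀ a ∈ g.arcs, ∀ w ∈ innA a, w ∉ C := by
  intro a ha w hw
  obtain ⟨R, B, S, w0, i, h1, -, hi, e, -⟩ := h.inn a ha
  have hi' : i ∈ [0, 1, 3, 6, 8, 9] := by
    simp only [List.mem_cons, List.not_mem_nil, or_false] at hi ⊢
    omega
  have e' : w = TT a.1 := hw
  exact inn_not_JG h1 w0 hi' (by rw [e', e]) (hc a ha w hw) hn h'

end Pool.OddHC
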