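import Pool.Agent.Work.MP_8f87b2_h59.R3J1
import Pool.Agent.Work.MP_8f87b2_h6.TyJ3V

/-!
# MP_8f87b2_co: the right windows R3, S3 (`c = 3`) against J3V (and every gadget on the words `W R' nil B' S' j`, `j ≠ 9`)

`rW`: a common word only if `R'` is one of `(R)`, `(S)B`, `S(B)`, or `B' = nil` and `S'` is one of them.
-/

set_option autoImplicit false
set_option linter.all false

namespace Pool.OddHC

open Finset Equiv BinaryTree Pool.Agent.Work.MP_8f87b2_co HM

namespace J59

open J J3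

variable {k : ℕ} {R B S R' B' S' A : BinaryTree Unit}

theorem cs_cont {X Y : BinaryTree Unit} (h : Y ∈ cs X) : ∀ x ∈ raise (OddHC.cont Y), x ∈ OddHC.cont X := by
  induction X with
  | nil => exact absurd h (by rw [cs_nil]; simp)
  | node u A C _ ih =>
    intro x hx
    have h' : Y ∈ cs (A △ C) := h
    rw [cs_node', List.mem_cons] at h'
    change x ∈ OddHC.cont (A △ C)
    rw [cont_node, Multiset.mem_add]
    rcases h' with rfl | h'
    · exact Or.inl hx
    · exact Or.inr (ih h' x hx)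

theorem hv3.mem (h : hv3 A) {Y : BinaryTree Unit} (hY : Y ∈ cs A) : 2 ≤ OddHC.ht Y := by
  have h1 := h _ (cs_cont hY _ (sup_mem_raise _))
  rw [OddHC.ht_eq]
  omega

/-- no part 1 -/
def n1 (A : BinaryTree Unit) : Prop := J.o1 A = 0

theorem n1.mem (h : n1 A) {Y : BinaryTree Unit} (hY : Y ∈ cs A) : 1 ∉ raise (OddHC.cont Y) := by
  intro h1
  have h2 := cs_cont hY 1 h1
  unfold n1 J.o1 at h
  rw [Multiset.count_eq_zero] at h
  exact h h2

theorem n1.nil (h : n1 A) : BinaryTree.nil ∉ cs A := by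
  intro h1
  apply h.mem h1
  rw [cont_nil, raise_zero]
  simp

theorem n1.two (h : n1 A) : (.nil △ (.nil △ .nil) : BinaryTree Unit) ∉ cs A := by
  intro h1
  apply h.mem h1
  decide

theorem fs_mem (h : A ≠ .nil) : fs A ∈ cs A := by
  cases A with
  | nil => exact absurd rfl h
  | node u X Y =>
    change X ∈ cs (X △ Y)
    rw [cs_node']
    exact List.mem_cons_self

theorem ls_mem (h : A ≠ .nil) : ls A ∈ cs A := by
  induction A with
  | nil => exact absurd rfl h
  | node u X Y _ ih =>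
    change ls (X △ Y) ∈ cs (X △ Y)
    rw [cs_node']
    by_cases hY : Y = .nil
    · subst hY
      exact List.mem_cons_self
    · rw [ls_node _ hY]
      exact List.mem_cons_of_mem _ (ih hY)

theorem n1.fs (h : n1 A) (h0 : A ≠ .nil) : OddHC.fs A ≠ .nil := fun e => h.nil (by
  rw [← e]; exact fs_mem h0)

theorem n1.ls (h : n1 A) (h0 : A ≠ .nil) : OddHC.ls A ≠ .nil := fun e => h.nil (by
  rw [← e]; exact ls_mem h0)

theorem nc_cs (X : BinaryTree Unit) : nc X = (cs X).length := by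
  induction X with
  | nil => rfl
  | node u A C _ ih =>
    change nc (A △ C) = (cs (A △ C)).length
    rw [nc_node, cs_node', ih]
    rfl

theorem cs_app' (P Q : BinaryTree Unit) : cs (app P Q) = cs P ++ cs Q := cs_app P Q

/-- the classes of the words of J3V -/
def Sig (R' B' S' w : BinaryTree Unit) : Prop :=
  (J.o1 w = 0 ∧ (w = app R' ((.nil △ .nil) △ .nil) ∨ w = (.nil △ .nil) △ R' ∨
      w = app B' ((.nil △ .nil) △ S') ∨ (B' = .nil ∧ w = app S' ((.nil △ .nil) △ .nil)) ∨ nc w = 1)) ∨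
  (J.o1 w = 1 ∧ (nc w = 1 ∨
      (fs w ≠ .nil ∧ ls w = .nil ∧ (w = R' △ (.nil △ .nil) ∨ w = S' △ app B' (.nil △ .nil) ∨ 3 ≤ nc w)) ∨
      (fs w = .nil ∧ ls w ≠ .nil ∧ (w = .nil △ (R' △ .nil) ∨ w = .nil △ (S' △ B') ∨ 3 ≤ nc w)) ∨
      (fs w ≠ .nil ∧ ls w ≠ .nil ∧ ((B' ≠ .nil ∧ w = app S' (app B' (.nil △ .nil) △ .nil)) ∨
        w = (.nil △ S') △ B')))) ∨
  (J.o1 w = 2 ∧ .nil ∈ cs w ∧ 3 ≤ nc w ∧ (w = app R' (.nil △ (.nil △ .nil)) ∨
      (fs w = .nil ∧ ls w = .nil) ∨ w = .nil △ (.nil △ R') ∨ w = app B' (.nil △ (.nil △ S')) ∨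
      (B' = .nil ∧ w = app S' (.nil △ (.nil △ .nil)))))

theorem sqd_sig (h : SqD k R' B' S') {j : ℕ} (hj : j < 20) (h9 : j ≠ 9) :
    Sig R' B' S' (H1.W R' .nil B' S' j) := by
  have hR := h.ne
  have hS := h.neS
  have h3 := h.h3
  have hSR := h.htS
  have nR : n1 R' := h.one
  have nS : n1 S' := h.oneS
  have nB : n1 B' := h.oneB
  have oR : J.o1 R' = 0 := h.one
  have oS : J.o1 S' = 0 := h.oneS
  have oB : J.o1 B' = 0 := h.oneB
  have cR := nc_pos hR
  have cS := nc_pos hS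
  have fR := nR.fs hR
  have fS := nS.fs hS
  have lR := nR.ls hR
  have lS := nS.ls hS
  have z1 : J.o1 (BinaryTree.nil : BinaryTree Unit) = 0 := rfl
  have z0 : OddHC.ht (BinaryTree.nil : BinaryTree Unit) = 0 := rfl
  have q1 : ∀ {A : BinaryTree Unit} (C : BinaryTree Unit), 2 ≤ OddHC.ht A →
      J.o1 (A △ C) = J.o1 A + J.o1 C := fun C h => o1_hi h C
  have hB2 : B' ≠ .nil → 2 ≤ OddHC.ht B' := by
    intro hb
    have h1 := cont_pos _ _ (sup_mem fun e => hb (cont_eq_zero.1 e))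
    rw [← OddHC.ht_eq] at h1
    by_contra h2
    have h4 : OddHC.ht B' = 1 := by omega
    have h5 := sup_mem fun e => hb (cont_eq_zero.1 e)
    rw [← OddHC.ht_eq, h4] at h5
    have h6 : (OddHC.cont B').count 1 = 0 := h.oneB
    rw [Multiset.count_eq_zero] at h6
    exact h6 h5
  interval_cases j
  · -- 0
    refine Or.inl ⟨?_, Or.inl rfl⟩
    change J.o1 (app R' ((.nil △ .nil) △ .nil)) = 0
    rw [o1_app, o1_l1, oR] <;> omega
  · -- 1
    refine Or.inr (Or.inr ⟨?_, ?_, ?_, Or.inl rfl⟩)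
    · change J.o1 (app R' (.nil △ (.nil △ .nil))) = 2
      rw [o1_app, o1_o, o1_o, oR] <;> omega
    · change .nil ∈ cs (app R' (.nil △ (.nil △ .nil)))
      rw [cs_app', cs_node', cs_node']
      simp
    · change 3 ≤ nc (app R' (.nil △ (.nil △ .nil)))
      rw [nc_app, nc_node, nc_node]; omega
  · -- 2
    refine Or.inr (Or.inr ⟨?_, ?_, ?_, Or.inr (Or.inl ⟨rfl, ?_⟩)⟩)
    · change J.o1 (.nil △ app R' (.nil △ .nil)) = 2
      rw [o1_o, o1_app, o1_o, oR] <;> omega
    · change .nil ∈ cs (.nil △ app R' (.nil △ .nil))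
      rw [cs_node']
      simp
    · change 3 ≤ nc (.nil △ app R' (.nil △ .nil))
      rw [nc_node, nc_app, nc_node]; omega
    · change ls (.nil △ app R' (.nil △ .nil)) = .nil
      rw [ls_node _ (H1.app_ne (by simp)), ls_app _ (by simp), ls_single]
  · -- 3
    refine Or.inr (Or.inl ⟨?_, Or.inl rfl⟩)
    change J.o1 (app R' (.nil △ .nil) △ .nil) = 1
    rw [q1 _ (by rw [ht_app]; omega), o1_app, o1_o, oR] <;> omega
  · -- 4
    refine Or.inl ⟨?_, Or.inr (Or.inl rfl)⟩
    change J.o1 ((.nil △ .nil) △ R') = 0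
    rw [o1_l1, oR] <;> omega
  · -- 5
    refine Or.inr (Or.inr ⟨?_, ?_, ?_, Or.inr (Or.inr (Or.inl rfl))⟩)
    · change J.o1 (.nil △ (.nil △ R')) = 2
      rw [o1_o, o1_o, oR] <;> omega
    · change .nil ∈ cs (.nil △ (.nil △ R'))
      rw [cs_node']
      simp
    · change 3 ≤ nc (.nil △ (.nil △ R'))
      rw [nc_node, nc_node]; omega
  · -- 6
    refine Or.inr (Or.inl ⟨?_, Or.inr (Or.inl ⟨?_, rfl, Or.inl rfl⟩)⟩)
    · change J.o1 (R' △ (.nil △ .nil)) = 1
      rw [q1 _ (by omega), o1_o, oR] <;> omega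
    · exact hR
  · -- 7
    refine Or.inr (Or.inl ⟨?_, Or.inl rfl⟩)
    change J.o1 ((.nil △ R') △ .nil) = 1
    rw [q1 _ (by rw [ht_node]; omega), o1_o, oR] <;> omega
  · -- 8
    refine Or.inr (Or.inl ⟨?_, Or.inr (Or.inr (Or.inl ⟨rfl, ?_, Or.inl rfl⟩))⟩)
    · change J.o1 (.nil △ (R' △ .nil)) = 1
      rw [o1_o, q1 _ (by omega), oR] <;> omega
    · exact hR
  · exact absurd rfl h9
  · -- 10
    refine Or.inl ⟨?_, Or.inr (Or.inr (Or.inl rfl))⟩
    change J.o1 (app B' ((.nil △ .nil) △ S')) = 0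
    rw [o1_app, o1_l1, oB, oS] <;> omega
  · -- 11
    refine Or.inr (Or.inr ⟨?_, ?_, ?_, Or.inr (Or.inr (Or.inr (Or.inl rfl)))⟩)
    · change J.o1 (app B' (.nil △ (.nil △ S'))) = 2
      rw [o1_app, o1_o, o1_o, oB, oS] <;> omega
    · change .nil ∈ cs (app B' (.nil △ (.nil △ S')))
      rw [cs_app', cs_node']
      simp
    · change 3 ≤ nc (app B' (.nil △ (.nil △ S')))
      rw [nc_app, nc_node, nc_node]; omega
  · -- 12
    refine Or.inr (Or.inl ⟨?_, Or.inr (Or.inl ⟨?_, ?_, Or.inr (Or.inl rfl)⟩)⟩)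
    · change J.o1 (S' △ app B' (.nil △ .nil)) = 1
      rw [q1 _ (by omega), o1_app, o1_o, oB, oS] <;> omega
    · exact hS
    · change ls (S' △ app B' (.nil △ .nil)) = .nil
      rw [ls_node _ (H1.app_ne (by simp)), ls_app _ (by simp), ls_single]
  · -- 13
    by_cases hb : B' = .nil
    · subst hb
      refine Or.inl ⟨?_, Or.inr (Or.inr (Or.inr (Or.inl ⟨rfl, rfl⟩)))⟩
      change J.o1 (app S' ((.nil △ .nil) △ .nil)) = 0
      rw [o1_app, o1_l1, oS] <;> omega
    · have := hB2 hb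
      refine Or.inr (Or.inl ⟨?_, Or.inr (Or.inr (Or.inr ⟨?_, ?_, Or.inl ⟨hb, rfl⟩⟩))⟩)
      · change J.o1 (app S' (app B' (.nil △ .nil) △ .nil)) = 1
        rw [o1_app, q1 _ (by rw [ht_app]; omega), o1_app, o1_o, oB, oS] <;> omega
      · change fs (app S' (app B' (.nil △ .nil) △ .nil)) ≠ .nil
        rw [fs_app hS]
        exact fS
      · change ls (app S' (app B' (.nil △ .nil) △ .nil)) ≠ .nil
        rw [ls_app _ (by simp), ls_single]
        exact H1.app_ne (by simp)
  · -- 14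
    by_cases hb : B' = .nil
    · subst hb
      refine Or.inr (Or.inl ⟨?_, Or.inl rfl⟩)
      change J.o1 ((.nil △ S') △ .nil) = 1
      rw [q1 _ (by rw [ht_node]; omega), o1_o, oS] <;> omega
    · refine Or.inr (Or.inl ⟨?_, Or.inr (Or.inr (Or.inr ⟨?_, ?_, Or.inr rfl⟩))⟩)
      · change J.o1 ((.nil △ S') △ B') = 1
        rw [q1 _ (by rw [ht_node]; omega), o1_o, oS, oB] <;> omega
      · change (.nil △ S' : BinaryTree Unit) ≠ .nil
        simp
      · change ls ((.nil △ S') △ B') ≠ .nil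
        rw [ls_node _ hb]
        exact nB.ls hb
  · -- 15
    refine Or.inr (Or.inl ⟨?_, Or.inr (Or.inr (Or.inl ⟨rfl, ?_, Or.inr (Or.inl rfl)⟩))⟩)
    · change J.o1 (.nil △ (S' △ B')) = 1
      rw [o1_o, q1 _ (by omega), oB, oS] <;> omega
    · change ls (.nil △ (S' △ B')) ≠ .nil
      rw [ls_node _ (by simp)]
      by_cases hb : B' = .nil
      · subst hb
        exact hS
      · rw [ls_node _ hb]
        exact nB.ls hb
  · -- 16
    by_cases hb : B' = .nil
    · subst hb
      refine Or.inr (Or.inr ⟨?_, ?_, ?_, Or.inr (Or.inr (Or.inr (Or.inr ⟨rfl, rfl⟩)))⟩)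
      · change J.o1 (app S' (.nil △ (.nil △ .nil))) = 2
        rw [o1_app, o1_o, o1_o, oS] <;> omega
      · change .nil ∈ cs (app S' (.nil △ (.nil △ .nil)))
        rw [cs_app', cs_node']
        simp
      · change 3 ≤ nc (app S' (.nil △ (.nil △ .nil)))
        rw [nc_app, nc_node, nc_node]; omega
    · refine Or.inr (Or.inl ⟨?_, Or.inr (Or.inl ⟨?_, ?_, Or.inr (Or.inr ?_)⟩)⟩)
      · change J.o1 (app S' (B' △ (.nil △ .nil))) = 1
        rw [o1_app, q1 _ (hB2 hb), o1_o, oB, oS] <;> omega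
      · change fs (app S' (B' △ (.nil △ .nil))) ≠ .nil
        rw [fs_app hS]
        exact fS
      · change ls (app S' (B' △ (.nil △ .nil))) = .nil
        rw [ls_app _ (by simp), ls_node _ (by simp), ls_single]
      · change 3 ≤ nc (app S' (B' △ (.nil △ .nil)))
        rw [nc_app, nc_node, nc_node]; omega
  · -- 17
    refine Or.inl ⟨?_, Or.inr (Or.inr (Or.inr (Or.inr rfl)))⟩
    change J.o1 ((S' △ B') △ .nil) = 0
    rw [q1 _ (by rw [ht_node]; omega), q1 _ (by omega), oB, oS] <;> omega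
  · -- 18
    by_cases hb : B' = .nil
    · subst hb
      refine Or.inr (Or.inr ⟨?_, ?_, ?_, Or.inr (Or.inl ⟨rfl, ?_⟩)⟩)
      · change J.o1 (.nil △ app S' (.nil △ .nil)) = 2
        rw [o1_o, o1_app, o1_o, oS] <;> omega
      · change .nil ∈ cs (.nil △ app S' (.nil △ .nil))
        rw [cs_node']
        simp
      · change 3 ≤ nc (.nil △ app S' (.nil △ .nil))
        rw [nc_node, nc_app, nc_node]; omega
      · change ls (.nil △ app S' (.nil △ .nil)) = .nil
        rw [ls_node _ (H1.app_ne (by simp)), ls_app _ (by simp), ls_single]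
    · refine Or.inr (Or.inl ⟨?_, Or.inr (Or.inr (Or.inl ⟨rfl, ?_, Or.inr (Or.inr ?_)⟩))⟩)
      · change J.o1 (.nil △ app S' (B' △ .nil)) = 1
        rw [o1_o, o1_app, q1 _ (hB2 hb), oB, oS] <;> omega
      · change ls (.nil △ app S' (B' △ .nil)) ≠ .nil
        rw [ls_node _ (H1.app_ne (by simp)), ls_app _ (by simp), ls_single]
        exact hb
      · change 3 ≤ nc (.nil △ app S' (B' △ .nil))
        rw [nc_node, nc_app, nc_node]; omega
  · -- 19
    by_cases hb : B' = .nil
    · subst hb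
      refine Or.inr (Or.inl ⟨?_, Or.inl rfl⟩)
      change J.o1 (app S' (.nil △ .nil) △ .nil) = 1
      rw [q1 _ (by rw [ht_app]; omega), o1_app, o1_o, oS] <;> omega
    · refine Or.inl ⟨?_, Or.inr (Or.inr (Or.inr (Or.inr rfl)))⟩
      change J.o1 (app S' (B' △ .nil) △ .nil) = 0
      rw [q1 _ (by rw [ht_app]; omega), o1_app, q1 _ (hB2 hb), oB, oS] <;> omega

/-- the six cases -/
def Six (R B S R' B' S' : BinaryTree Unit) : Prop :=
  R' = R △ .nil ∨ R' = S △ B ∨ R' = app S (B △ .nil) ∨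
    (B' = .nil ∧ (S' = R △ .nil ∨ S' = S △ B ∨ S' = app S (B △ .nil)))

/-- **a common word of a right window and of J3V** -/
theorem rW (h' : SqD k R' B' S') (h : NodeM k 0 R B S) {i j : ℕ} (hi : i < 20) (hj : j < 20) (h9 : j ≠ 9)
    (e : H1.W R (H1.ch (0 + 1)) B S i = H1.W R' .nil B' S' j) : Six R B S R' B' S' := by
  have sg := sqd_sig h' hj h9
  rw [← e] at sg
  have hR := nR h
  have hB := nB h
  have hS := nS h
  have h1 := htSR h
  have h2 := h.top
  have oR := hR.o1
  have oS := hS.o1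
  have oB := hB.o1
  have hR0 : R ≠ .nil := h.ne
  have hS0 := neS h
  have nR1 := nc_pos hR0
  have nS1 := nc_pos hS0
  have fR := fsR hR hR0
  have fS := fsR hS hS0
  have lR := lsR hR hR0
  have lS := lsR hS hS0
  have hR' := h'.ne
  have hS' := h'.neS
  have nR' : n1 R' := h'.one
  have nS' : n1 S' := h'.oneS
  have nB' : n1 B' := h'.oneB
  have cR' := nc_pos hR'
  have cS' := nc_pos hS'
  have fR' := nR'.fs hR'
  have fS' := nS'.fs hS'
  have lR' := nR'.ls hR'
  have lS' := nS'.ls hS'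
  have z1 : J.o1 (BinaryTree.nil : BinaryTree Unit) = 0 := rfl
  have z0 : OddHC.ht (BinaryTree.nil : BinaryTree Unit) = 0 := rfl
  have t1 : OddHC.ht (.nil △ .nil : BinaryTree Unit) = 1 := rfl
  -- the words with a component `(())`
  have lw : ∀ {w : BinaryTree Unit}, (w = app R' ((.nil △ .nil) △ .nil) ∨ w = (.nil △ .nil) △ R' ∨
      w = app B' ((.nil △ .nil) △ S') ∨ (B' = .nil ∧ w = app S' ((.nil △ .nil) △ .nil)) ∨ nc w = 1) →
      (.nil △ .nil : BinaryTree Unit) ∈ cs w ∨ nc w = 1 := by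
    rintro w (rfl | rfl | rfl | ⟨-, rfl⟩ | h3)
    · left; rw [cs_app', cs_node']; simp
    · left; rw [cs_node']; simp
    · left; rw [cs_app', cs_node']; simp
    · left; rw [cs_app', cs_node']; simp
    · exact Or.inr h3
  have lm : ∀ {X : BinaryTree Unit}, hv3 X → (.nil △ .nil : BinaryTree Unit) ∉ cs X := by
    intro X hX h3
    have := hX.mem h3
    omega
  have nm : ∀ {X : BinaryTree Unit}, hv3 X → (.nil : BinaryTree Unit) ∉ cs X := by
    intro X hX h3
    have := hX.mem h3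
    omega
  -- no component `()`
  have d1 : (.nil : BinaryTree Unit) ∉ cs (app S' (app B' (.nil △ .nil) △ .nil)) := by
    rw [cs_app', cs_node', cs_nil, List.mem_append, List.mem_singleton]
    rintro (h3 | h3)
    · exact nS'.nil h3
    · exact H1.app_ne (by simp) h3.symm
  have d2 : (.nil : BinaryTree Unit) ∉ cs ((.nil △ S') △ B') := by
    rw [cs_node', List.mem_cons]
    rintro (h3 | h3)
    · simp at h3
    · exact nB'.nil h3
  interval_cases i
  · -- 0
    have e1 : J.o1 (H1.W R (H1.ch (0 + 1)) B S 0) = 0 := by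
      change J.o1 (app R (((.nil △ .nil) △ .nil) △ .nil)) = 0
      rw [o1_app, oR]; decide
    have e2 : (.nil △ .nil : BinaryTree Unit) ∉ cs (H1.W R (H1.ch (0 + 1)) B S 0) := by
      change _ ∉ cs (app R (((.nil △ .nil) △ .nil) △ .nil))
      rw [cs_app', cs_node', cs_nil, List.mem_append, List.mem_singleton]
      rintro (h3 | h3)
      · exact lm hR h3
      · simp at h3
    have e3 : nc (H1.W R (H1.ch (0 + 1)) B S 0) = nc R + 1 := by
      change nc (app R (((.nil △ .nil) △ .nil) △ .nil)) = _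
      rw [nc_app]; rfl
    rcases sg with ⟨_, sg⟩ | ⟨o, _⟩ | ⟨o, _⟩
    · rcases lw sg with h3 | h3
      · exact absurd h3 e2
      · omega
    · omega
    · omega
  · -- 1
    have e1 : J.o1 (H1.W R (H1.ch (0 + 1)) B S 1) = 3 := by
      change J.o1 (app R (.nil △ (.nil △ (.nil △ .nil)))) = 3
      rw [o1_app, o1_o, o1_o, o1_o]; omega
    rcases sg with ⟨o, _⟩ | ⟨o, _⟩ | ⟨o, _⟩ <;> omega
  · -- 2
    have e1 : J.o1 (H1.W R (H1.ch (0 + 1)) B S 2) = 3 := by
      change J.o1 (.nil △ app R (.nil △ (.nil △ .nil))) = 3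
      rw [o1_o, o1_app, o1_o, o1_o]; omega
    rcases sg with ⟨o, _⟩ | ⟨o, _⟩ | ⟨o, _⟩ <;> omega
  · -- 3
    have e1 : J.o1 (H1.W R (H1.ch (0 + 1)) B S 3) = 2 := by
      change J.o1 (app R (.nil △ (.nil △ .nil)) △ .nil) = 2
      rw [o1_hi (by rw [ht_app]; omega), o1_app, o1_o, o1_o]; omega
    have e3 : nc (H1.W R (H1.ch (0 + 1)) B S 3) = 1 := rfl
    rcases sg with ⟨o, _⟩ | ⟨o, _⟩ | ⟨o, _, h3, _⟩ <;> omega
  · -- 4
    have e1 : J.o1 (H1.W R (H1.ch (0 + 1)) B S 4) = 1 := by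
      change J.o1 ((.nil △ (.nil △ .nil)) △ R) = 1
      have : J.o1 ((.nil △ (.nil △ .nil)) △ R) = 1 + J.o1 R := by rw [o1_node]; rfl
      omega
    have e3 : nc (H1.W R (H1.ch (0 + 1)) B S 4) = nc R + 1 := rfl
    have e4 : ls (H1.W R (H1.ch (0 + 1)) B S 4) = ls R := ls_node _ hR0
    have e5 : fs (H1.W R (H1.ch (0 + 1)) B S 4) = .nil △ (.nil △ .nil) := rfl
    rcases sg with ⟨o, _⟩ | ⟨_, h3 | ⟨_, h3, _⟩ | ⟨h3, _, _⟩ | ⟨_, _, ⟨_, h3⟩ | h3⟩⟩ | ⟨o, _⟩
    · omega
    · omega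
    · rw [e4] at h3; exact absurd h3 lR
    · rw [e5] at h3; simp at h3
    · rw [h3, fs_app hS'] at e5
      have := fs_mem hS'
      rw [e5] at this
      exact absurd this nS'.two
    · rw [h3] at e5
      have h4 := (node_inj' e5).2
      have := h'.htS
      have := h'.h3
      rw [h4] at *
      omega
    · omega
  · -- 5
    have e1 : J.o1 (H1.W R (H1.ch (0 + 1)) B S 5) = 1 := by
      change J.o1 ((.nil △ .nil) △ (.nil △ R)) = 1
      rw [o1_l1, o1_o]; omega
    have e3 : nc (H1.W R (H1.ch (0 + 1)) B S 5) = nc R + 1 + 1 := rfl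
    have e4 : ls (H1.W R (H1.ch (0 + 1)) B S 5) = ls R := by
      change ls ((.nil △ .nil) △ (.nil △ R)) = _
      rw [ls_node _ (by simp), ls_node _ hR0]
    have e5 : fs (H1.W R (H1.ch (0 + 1)) B S 5) = .nil △ .nil := rfl
    have e6 : (.nil : BinaryTree Unit) ∈ cs (H1.W R (H1.ch (0 + 1)) B S 5) := by
      change _ ∈ cs ((.nil △ .nil) △ (.nil △ R))
      rw [cs_node', cs_node']; simp
    rcases sg with ⟨o, _⟩ | ⟨_, h3 | ⟨_, h3, _⟩ | ⟨h3, _, _⟩ | ⟨_, _, ⟨_, h3⟩ | h3⟩⟩ | ⟨o, _⟩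
    · omega
    · omega
    · rw [e4] at h3; exact absurd h3 lR
    · rw [e5] at h3; simp at h3
    · rw [h3] at e6; exact absurd e6 d1
    · rw [h3] at e6; exact absurd e6 d2
    · omega
  · -- 6
    have e1 : J.o1 (H1.W R (H1.ch (0 + 1)) B S 6) = 0 := by
      change J.o1 (R △ ((.nil △ .nil) △ .nil)) = 0
      rw [hR.o1n hR0, o1_l1]; rfl
    have e3 : nc (H1.W R (H1.ch (0 + 1)) B S 6) = 2 := rfl
    have bb : ∀ X : BinaryTree Unit, R △ ((.nil △ .nil) △ .nil) ≠ (.nil △ .nil) △ X := by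
      intro X h3
      have h4 := (node_inj' h3).1
      rw [h4] at h2
      omega
    rcases sg with ⟨_, h3 | h3 | h3 | ⟨h4, h3⟩ | h3⟩ | ⟨o, _⟩ | ⟨o, _⟩
    · left
      exact (app_cancel_right ((.nil △ .nil) △ .nil) (X := R △ .nil) (Y := R') h3).symm
    · exact absurd h3 (bb _)
    · have h4 := congrArg nc h3
      rw [e3, nc_app, nc_node] at h4
      have h5 : B' = .nil := nc_eq_zero.1 (by omega)
      subst h5
      exact absurd h3 (bb _)
    · right; right; right
      exact ⟨h4, Or.inl (app_cancel_right ((.nil △ .nil) △ .nil) (X := R △ .nil) (Y := S') h3).symm⟩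
    · omega
    · omega
    · omega
  · -- 7
    have e1 : J.o1 (H1.W R (H1.ch (0 + 1)) B S 7) = 2 := by
      change J.o1 (.nil △ ((.nil △ R) △ .nil)) = 2
      rw [o1_o, o1_hi (by rw [ht_node]; omega), o1_o]; omega
    have e3 : nc (H1.W R (H1.ch (0 + 1)) B S 7) = 2 := rfl
    rcases sg with ⟨o, _⟩ | ⟨o, _⟩ | ⟨o, _, h3, _⟩ <;> omega
  · -- 8
    have e1 : J.o1 (H1.W R (H1.ch (0 + 1)) B S 8) = 2 := by
      change J.o1 (.nil △ (.nil △ (R △ .nil))) = 2
      rw [o1_o, o1_o, hR.o1n hR0]; rfl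
    have e4 : ls (H1.W R (H1.ch (0 + 1)) B S 8) = R := rfl
    have e5 : fs (H1.W R (H1.ch (0 + 1)) B S 8) = .nil := rfl
    rcases sg with ⟨o, _⟩ | ⟨o, _⟩ | ⟨_, _, _, h3 | ⟨_, h3⟩ | h3 | h3 | ⟨_, h3⟩⟩
    · omega
    · omega
    · rw [h3, ls_app _ (by simp)] at e4
      exact absurd e4.symm hR0
    · rw [e4] at h3; exact absurd h3 hR0
    · left
      exact ((node_inj' (node_inj' h3).2).2).symm
    · by_cases hb : B' = .nil
      · subst hb
        right; right; right
        exact ⟨rfl, Or.inl ((node_inj' (node_inj' h3).2).2).symm⟩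
      · rw [h3, fs_app hb] at e5
        exact absurd e5 (nB'.fs hb)
    · rw [h3, ls_app _ (by simp)] at e4
      exact absurd e4.symm hR0
  · -- 9
    have e1 : J.o1 (H1.W R (H1.ch (0 + 1)) B S 9) = 1 := by
      change J.o1 ((R △ .nil) △ (.nil △ .nil)) = 1
      rw [o1_hi (by rw [ht_node]; omega), hR.o1n hR0]; rfl
    have e3 : nc (H1.W R (H1.ch (0 + 1)) B S 9) = 2 := rfl
    have e4 : ls (H1.W R (H1.ch (0 + 1)) B S 9) = .nil := rfl
    have e5 : fs (H1.W R (H1.ch (0 + 1)) B S 9) = R △ .nil := rfl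
    rcases sg with ⟨o, _⟩ | ⟨_, h3 | ⟨_, _, h3 | h3 | h3⟩ | ⟨h3, _, _⟩ | ⟨_, h3, _⟩⟩ | ⟨o, _⟩
    · omega
    · omega
    · left
      exact (node_inj' h3).1.symm
    · right; right; right
      obtain ⟨h4, h5⟩ := node_inj' h3
      have h6 := congrArg nc h5
      change 1 = nc (app B' (.nil △ .nil)) at h6
      rw [nc_app, nc_node, nc_nil] at h6
      exact ⟨nc_eq_zero.1 (by omega), Or.inl h4.symm⟩
    · omega
    · rw [e5] at h3; simp at h3
    · exact absurd e4 h3
    · omega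
  · -- 10
    have e1 : J.o1 (H1.W R (H1.ch (0 + 1)) B S 10) = 0 := by
      change J.o1 (app B (((.nil △ .nil) △ .nil) △ S)) = 0
      have : J.o1 (((.nil △ .nil) △ .nil) △ S) = 0 + J.o1 S := by rw [o1_node]; rfl
      rw [o1_app, this]; omega
    have e2 : (.nil △ .nil : BinaryTree Unit) ∉ cs (H1.W R (H1.ch (0 + 1)) B S 10) := by
      change _ ∉ cs (app B (((.nil △ .nil) △ .nil) △ S))
      rw [cs_app', cs_node', List.mem_append, List.mem_cons]
      rintro (h3 | h3 | h3)
      · exact lm hB h3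
      · simp at h3
      · exact lm hS h3
    have e3 : nc (H1.W R (H1.ch (0 + 1)) B S 10) = nc B + (nc S + 1) := by
      change nc (app B (((.nil △ .nil) △ .nil) △ S)) = _
      rw [nc_app]; rfl
    rcases sg with ⟨_, sg⟩ | ⟨o, _⟩ | ⟨o, _⟩
    · rcases lw sg with h3 | h3
      · exact absurd h3 e2
      · omega
    · omega
    · omega
  · -- 11
    have e1 : J.o1 (H1.W R (H1.ch (0 + 1)) B S 11) = 3 := by
      change J.o1 (app B (.nil △ (.nil △ (.nil △ S)))) = 3
      rw [o1_app, o1_o, o1_o, o1_o]; omega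
    rcases sg with ⟨o, _⟩ | ⟨o, _⟩ | ⟨o, _⟩ <;> omega
  · -- 12
    have e1 : J.o1 (H1.W R (H1.ch (0 + 1)) B S 12) = 2 := by
      change J.o1 (S △ app B (.nil △ (.nil △ .nil))) = 2
      rw [hS.o1n hS0, o1_app, o1_o, o1_o]; omega
    have e4 : ls (H1.W R (H1.ch (0 + 1)) B S 12) = .nil := by
      change ls (S △ app B (.nil △ (.nil △ .nil))) = .nil
      rw [ls_node _ (H1.app_ne (by simp)), ls_app _ (by simp)]; rfl
    have e5 : fs (H1.W R (H1.ch (0 + 1)) B S 12) = S := rfl
    rcases sg with ⟨o, _⟩ | ⟨o, _⟩ | ⟨_, _, _, h3 | ⟨h3, _⟩ | h3 | h3 | ⟨h4, h3⟩⟩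
    · omega
    · omega
    · right; left
      exact (app_cancel_right (.nil △ (.nil △ .nil)) (X := S △ B) (Y := R') h3).symm
    · rw [e5] at h3; exact absurd h3 hS0
    · rw [h3] at e5; exact absurd e5.symm hS0
    · rw [h3, ls_app _ (by simp), ls_node _ (by simp), ls_node _ hS'] at e4
      exact absurd e4 lS'
    · right; right; right
      exact ⟨h4, Or.inr (Or.inl (app_cancel_right (.nil △ (.nil △ .nil)) (X := S △ B) (Y := S') h3).symm)⟩
  · -- 13
    by_cases hb : B = .nil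
    · subst hb
      have e1 : J.o1 (H1.W R (H1.ch (0 + 1)) .nil S 13) = 1 := by
        change J.o1 (app S ((.nil △ (.nil △ .nil)) △ .nil)) = 1
        have h6 : J.o1 ((.nil △ (.nil △ .nil)) △ .nil) = 1 := by
          rw [o1_node]; decide
        rw [o1_app, h6]; omega
      have e3 : nc (H1.W R (H1.ch (0 + 1)) .nil S 13) = nc S + 1 := by
        change nc (app S ((.nil △ (.nil △ .nil)) △ .nil)) = _
        rw [nc_app]; rfl
      have e5 : fs (H1.W R (H1.ch (0 + 1)) .nil S 13) = fs S := fs_app hS0 _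
      have e4 : ls (H1.W R (H1.ch (0 + 1)) .nil S 13) = .nil △ (.nil △ .nil) := by
        change ls (app S ((.nil △ (.nil △ .nil)) △ .nil)) = _
        rw [ls_app _ (by simp), ls_single]
      rcases sg with ⟨o, _⟩ | ⟨_, h3 | ⟨_, h3, _⟩ | ⟨h3, _, _⟩ | ⟨_, _, ⟨_, h3⟩ | h3⟩⟩ | ⟨o, _⟩
      · omega
      · omega
      · rw [e4] at h3; simp at h3
      · rw [e5] at h3; exact absurd h3 fS
      · rw [h3, ls_app _ (by simp), ls_single] at e4
        have h4 : B' = .nil △ .nil :=
          app_cancel_right (.nil △ .nil) (X := B') (Y := .nil △ .nil) e4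
        rw [h4] at nB'
        exact absurd nB' (by unfold n1; decide)
      · by_cases hb' : B' = .nil
        · subst hb'
          rw [h3] at e3
          change 1 = nc S + 1 at e3
          omega
        · rw [h3, ls_node _ hb'] at e4
          have := ls_mem hb'
          rw [e4] at this
          exact absurd this nB'.two
      · omega
    · have h5 := hB.ht hb
      have e1 : J.o1 (H1.W R (H1.ch (0 + 1)) B S 13) = 2 := by
        change J.o1 (app S (app B (.nil △ (.nil △ .nil)) △ .nil)) = 2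
        rw [o1_app, o1_hi (by rw [ht_app]; omega), o1_app, o1_o, o1_o]; omega
      have e6 : (.nil : BinaryTree Unit) ∉ cs (H1.W R (H1.ch (0 + 1)) B S 13) := by
        change _ ∉ cs (app S (app B (.nil △ (.nil △ .nil)) △ .nil))
        rw [cs_app', cs_node', cs_nil, List.mem_append, List.mem_singleton]
        rintro (h3 | h3)
        · exact nm hS h3
        · exact H1.app_ne (by simp) h3.symm
      rcases sg with ⟨o, _⟩ | ⟨o, _⟩ | ⟨_, h3, _⟩
      · omega
      · omega
      · exact absurd h3 e6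
  · -- 14
    have e1 : J.o1 (H1.W R (H1.ch (0 + 1)) B S 14) = 2 := by
      change J.o1 ((.nil △ (.nil △ S)) △ B) = 2
      rw [o1_hi (by rw [ht_node, ht_node]; omega), o1_o, o1_o]; omega
    have e6 : (.nil : BinaryTree Unit) ∉ cs (H1.W R (H1.ch (0 + 1)) B S 14) := by
      change _ ∉ cs ((.nil △ (.nil △ S)) △ B)
      rw [cs_node', List.mem_cons]
      rintro (h3 | h3)
      · simp at h3
      · exact nm hB h3
    rcases sg with ⟨o, _⟩ | ⟨o, _⟩ | ⟨_, h3, _⟩
    · omega
    · omega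
    · exact absurd h3 e6
  · -- 15
    have e1 : J.o1 (H1.W R (H1.ch (0 + 1)) B S 15) = 0 := by
      change J.o1 ((.nil △ .nil) △ (S △ B)) = 0
      rw [o1_l1, hS.o1n hS0]; omega
    have e3 : nc (H1.W R (H1.ch (0 + 1)) B S 15) = nc B + 1 + 1 := rfl
    have hSB : (.nil △ .nil : BinaryTree Unit) ∉ cs (S △ B) := by
      rw [cs_node', List.mem_cons]
      rintro (h3 | h3)
      · rw [← h3] at h1
        omega
      · exact lm hB h3
    have e4 : ls (H1.W R (H1.ch (0 + 1)) B S 15) ≠ .nil △ .nil := by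
      change ls ((.nil △ .nil) △ (S △ B)) ≠ _
      rw [ls_node _ (by simp)]
      intro h3
      apply hSB
      rw [← h3]
      exact ls_mem (by simp)
    rcases sg with ⟨_, h3 | h3 | h3 | ⟨h4, h3⟩ | h3⟩ | ⟨o, _⟩ | ⟨o, _⟩
    · rw [h3, ls_app _ (by simp), ls_single] at e4
      exact absurd rfl e4
    · right; left
      exact (node_inj' h3).2.symm
    · by_cases hb : B' = .nil
      · subst hb
        right; right; right
        exact ⟨rfl, Or.inr (Or.inl (node_inj' h3).2.symm)⟩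
      · exfalso
        have h4 := congrArg cs h3
        change cs ((.nil △ .nil) △ (S △ B)) = _ at h4
        obtain ⟨X, Y, rfl⟩ : ∃ X Y, B' = X △ Y := by
          cases B' with
          | nil => exact absurd rfl hb
          | node u X Y => exact ⟨X, Y, rfl⟩
        have hxy : cs (X △ Y) = X :: cs Y := rfl
        rw [cs_node', cs_app', hxy, List.cons_append, List.cons.injEq] at h4
        apply hSB
        rw [h4.2, cs_node']
        simp
    · rw [h3, ls_app _ (by simp), ls_single] at e4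
      exact absurd rfl e4
    · omega
    · omega
    · omega
  · -- 16
    by_cases hb : B = .nil
    · subst hb
      have e1 : J.o1 (H1.W R (H1.ch (0 + 1)) .nil S 16) = 1 := by
        change J.o1 (app S (.nil △ ((.nil △ .nil) △ .nil))) = 1
        rw [o1_app, o1_o, o1_l1]; omega
      have e3 : nc (H1.W R (H1.ch (0 + 1)) .nil S 16) = nc S + 2 := by
        change nc (app S (.nil △ ((.nil △ .nil) △ .nil))) = _
        rw [nc_app]; rfl
      have e5 : fs (H1.W R (H1.ch (0 + 1)) .nil S 16) = fs S := fs_app hS0 _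
      have e4 : ls (H1.W R (H1.ch (0 + 1)) .nil S 16) = .nil △ .nil := by
        change ls (app S (.nil △ ((.nil △ .nil) △ .nil))) = _
        rw [ls_app _ (by simp)]; rfl
      have e6 : (.nil : BinaryTree Unit) ∈ cs (H1.W R (H1.ch (0 + 1)) .nil S 16) := by
        change _ ∈ cs (app S (.nil △ ((.nil △ .nil) △ .nil)))
        rw [cs_app', cs_node']; simp
      rcases sg with ⟨o, _⟩ | ⟨_, h3 | ⟨_, h3, _⟩ | ⟨h3, _, _⟩ | ⟨_, _, ⟨_, h3⟩ | h3⟩⟩ | ⟨o, _⟩
      · omega
      · omega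
      · rw [e4] at h3; simp at h3
      · rw [e5] at h3; exact absurd h3 fS
      · rw [h3] at e6; exact absurd e6 d1
      · rw [h3] at e6; exact absurd e6 d2
      · omega
    · have e1 : J.o1 (H1.W R (H1.ch (0 + 1)) B S 16) = 0 := by
        change J.o1 (app S (B △ ((.nil △ .nil) △ .nil))) = 0
        rw [o1_app, hB.o1n hb, o1_l1]; omega
      have e3 : nc (H1.W R (H1.ch (0 + 1)) B S 16) = nc S + 2 := by
        change nc (app S (B △ ((.nil △ .nil) △ .nil))) = _
        rw [nc_app]; rfl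
      have e5 : fs (H1.W R (H1.ch (0 + 1)) B S 16) = fs S := fs_app hS0 _
      have e7 : H1.W R (H1.ch (0 + 1)) B S 16 = app (app S (B △ .nil)) ((.nil △ .nil) △ .nil) := by
        change app S (B △ ((.nil △ .nil) △ .nil)) = _
        rw [H1.app_assoc]; rfl
      rcases sg with ⟨_, h3 | h3 | h3 | ⟨h4, h3⟩ | h3⟩ | ⟨o, _⟩ | ⟨o, _⟩
      · right; right; left
        rw [e7] at h3
        exact (app_cancel_right _ h3).symm
      · rw [h3] at e5
        change (.nil △ .nil : BinaryTree Unit) = fs S at e5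
        exact absurd (by rw [e5]; exact fs_mem hS0) (lm hS)
      · exfalso
        rw [e7] at h3
        have h4 := congrArg List.dropLast (congrArg cs h3)
        have hne : cs S' ≠ [] := by
          intro h5
          rw [nc_cs, h5] at cS'
          simp at cS'
        rw [cs_app', cs_app', cs_app', cs_node', cs_node', cs_node', cs_nil,
          List.dropLast_append_of_ne_nil (by simp), List.dropLast_append_of_ne_nil (by simp),
          List.dropLast_cons_of_ne_nil hne] at h4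
        have h5 : (.nil △ .nil : BinaryTree Unit) ∈ cs S ++ [B] ++ [] := by
          have : (.nil △ .nil : BinaryTree Unit) ∈ cs B' ++ (.nil △ .nil) :: (cs S').dropLast := by simp
          rw [← h4] at this
          exact this
        rw [List.append_nil, List.mem_append, List.mem_singleton] at h5
        rcases h5 with h5 | h5
        · exact lm hS h5
        · have := hB.ht hb
          rw [← h5] at this
          omega
      · right; right; right
        rw [e7] at h3
        exact ⟨h4, Or.inr (Or.inr (app_cancel_right _ h3).symm)⟩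
      · omega
      · omega
      · omega
  · -- 17
    have e1 : J.o1 (H1.W R (H1.ch (0 + 1)) B S 17) = 1 := by
      change J.o1 (.nil △ ((S △ B) △ .nil)) = 1
      rw [o1_o, o1_hi (by rw [ht_node]; omega), hS.o1n hS0]; omega
    have e3 : nc (H1.W R (H1.ch (0 + 1)) B S 17) = 2 := rfl
    have e5 : fs (H1.W R (H1.ch (0 + 1)) B S 17) = .nil := rfl
    rcases sg with ⟨o, _⟩ | ⟨_, h3 | ⟨h3, _, _⟩ | ⟨_, _, h3 | h3 | h3⟩ | ⟨h3, _, _⟩⟩ | ⟨o, _⟩
    · omega
    · omega
    · exact absurd e5 h3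
    · right; left
      exact (node_inj' (node_inj' h3).2).1.symm
    · right; right; right
      obtain ⟨h4, h5⟩ := node_inj' (node_inj' h3).2
      exact ⟨h5.symm, Or.inr (Or.inl h4.symm)⟩
    · omega
    · exact absurd e5 h3
    · omega
  · -- 18
    by_cases hb : B = .nil
    · subst hb
      have e1 : J.o1 (H1.W R (H1.ch (0 + 1)) .nil S 18) = 3 := by
        change J.o1 (.nil △ (.nil △ app S (.nil △ .nil))) = 3
        rw [o1_o, o1_o, o1_app, o1_o]; omega
      rcases sg with ⟨o, _⟩ | ⟨o, _⟩ | ⟨o, _⟩ <;> omega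
    · have e1 : J.o1 (H1.W R (H1.ch (0 + 1)) B S 18) = 2 := by
        change J.o1 (.nil △ (.nil △ app S (B △ .nil))) = 2
        rw [o1_o, o1_o, o1_app, hB.o1n hb]; omega
      have e4 : ls (H1.W R (H1.ch (0 + 1)) B S 18) = B := by
        change ls (.nil △ (.nil △ app S (B △ .nil))) = B
        rw [ls_node _ (by simp), ls_node _ (H1.app_ne (by simp)), ls_app _ (by simp), ls_single]
      have e5 : fs (H1.W R (H1.ch (0 + 1)) B S 18) = .nil := rfl
      rcases sg with ⟨o, _⟩ | ⟨o, _⟩ | ⟨_, _, _, h3 | ⟨_, h3⟩ | h3 | h3 | ⟨_, h3⟩⟩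
      · omega
      · omega
      · rw [h3, fs_app hR'] at e5
        exact absurd e5 fR'
      · rw [e4] at h3; exact absurd h3 hb
      · right; right; left
        exact ((node_inj' (node_inj' h3).2).2).symm
      · by_cases hb' : B' = .nil
        · subst hb'
          right; right; right
          exact ⟨rfl, Or.inr (Or.inr ((node_inj' (node_inj' h3).2).2).symm)⟩
        · rw [h3, fs_app hb'] at e5
          exact absurd e5 (nB'.fs hb')
      · rw [h3, fs_app hS'] at e5
        exact absurd e5 fS'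
  · -- 19
    have e3 : nc (H1.W R (H1.ch (0 + 1)) B S 19) = 2 := rfl
    have e4 : ls (H1.W R (H1.ch (0 + 1)) B S 19) = .nil := rfl
    have e5 : fs (H1.W R (H1.ch (0 + 1)) B S 19) = app S (B △ .nil) := rfl
    by_cases hb : B = .nil
    · subst hb
      have e1 : J.o1 (H1.W R (H1.ch (0 + 1)) .nil S 19) = 2 := by
        change J.o1 (app S (.nil △ .nil) △ (.nil △ .nil)) = 2
        rw [o1_hi (by rw [ht_app]; omega), o1_app, o1_o]; omega
      rcases sg with ⟨o, _⟩ | ⟨o, _⟩ | ⟨o, _, h3, _⟩ <;> omega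
    · have e1 : J.o1 (H1.W R (H1.ch (0 + 1)) B S 19) = 1 := by
        change J.o1 (app S (B △ .nil) △ (.nil △ .nil)) = 1
        rw [o1_hi (by rw [ht_app]; omega), o1_app, hB.o1n hb, o1_o]; omega
      rcases sg with ⟨o, _⟩ | ⟨_, h3 | ⟨_, _, h3 | h3 | h3⟩ | ⟨h3, _, _⟩ | ⟨_, h3, _⟩⟩ | ⟨o, _⟩
      · omega
      · omega
      · right; right; left
        exact (node_inj' h3).1.symm
      · right; right; right
        obtain ⟨h4, h5⟩ := node_inj' h3
        have h6 := congrArg nc h5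
        change 1 = nc (app B' (.nil △ .nil)) at h6
        rw [nc_app, nc_node, nc_nil] at h6
        exact ⟨nc_eq_zero.1 (by omega), Or.inr (Or.inr h4.symm)⟩
      · omega
      · rw [e5] at h3
        exact absurd h3 (H1.app_ne (by simp))
      · exact absurd e4 h3
      · omega

/-! ### The inner words of the windows -/

/-- the words of J3V with long ends -/
theorem j3_long {R' B' S' : BinaryTree Unit} {j : ℕ} (hj : j < 20) (h9 : j ≠ 9)
    (h : Ge3 (H1.W R' .nil B' S' j)) :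
    j = 10 ∨ j = 11 ∨ j = 17 ∨ (j = 19 ∧ B' ≠ .nil) := by
  obtain ⟨⟨r, e⟩, ⟨r', e'⟩⟩ := h
  have e2 := congrArg List.reverse e'
  interval_cases j
  · change (wd (app R' ((.nil △ .nil) △ .nil))).reverse = _ at e2
    simp [wd_app, wd_node, wd, List.replicate] at e2
  · change (wd (app R' (.nil △ (.nil △ .nil)))).reverse = _ at e2
    simp [wd_app, wd_node, wd, List.replicate] at e2
  · change wd (.nil △ app R' (.nil △ .nil)) = _ at e
    simp [wd_node, wd, List.replicate] at e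
  · change (wd (app R' (.nil △ .nil) △ .nil)).reverse = _ at e2
    simp [wd_app, wd_node, wd, List.replicate] at e2
  · change wd ((.nil △ .nil) △ R') = _ at e
    simp [wd_node, wd, List.replicate] at e
  · change wd (.nil △ (.nil △ R')) = _ at e
    simp [wd_node, wd, List.replicate] at e
  · change (wd (R' △ (.nil △ .nil))).reverse = _ at e2
    simp [wd_node, wd, List.replicate] at e2
  · change wd ((.nil △ R') △ .nil) = _ at e
    simp [wd_node, wd, List.replicate] at e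
  · change wd (.nil △ (R' △ .nil)) = _ at e
    simp [wd_node, wd, List.replicate] at e
  · exact absurd rfl h9
  · exact Or.inl rfl
  · exact Or.inr (Or.inl rfl)
  · change (wd (S' △ app B' (.nil △ .nil))).reverse = _ at e2
    simp [wd_app, wd_node, wd, List.replicate] at e2
  · change (wd (app S' (app B' (.nil △ .nil) △ .nil))).reverse = _ at e2
    simp [wd_app, wd_node, wd, List.replicate] at e2
  · change wd ((.nil △ S') △ B') = _ at e
    simp [wd_node, wd, List.replicate] at e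
  · change wd (.nil △ (S' △ B')) = _ at e
    simp [wd_node, wd, List.replicate] at e
  · change (wd (app S' (B' △ (.nil △ .nil)))).reverse = _ at e2
    simp [wd_app, wd_node, wd, List.replicate] at e2
  · exact Or.inr (Or.inr (Or.inl rfl))
  · change wd (.nil △ app S' (B' △ .nil)) = _ at e
    simp [wd_node, wd, List.replicate] at e
  · refine Or.inr (Or.inr (Or.inr ⟨rfl, ?_⟩))
    rintro rfl
    change (wd (app S' (.nil △ .nil) △ .nil)).reverse = _ at e2
    simp [wd_app, wd_node, wd, List.replicate] at e2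

theorem w_o10 (h : NodeM k 0 R B S) {i : ℕ} (hi : i ∈ [0, 1, 3, 6, 8, 9])
    (e : J.o1 (H1.W R (H1.ch (0 + 1)) B S i) = 0) : i = 0 ∨ i = 6 := by
  have h1 := h.top
  have hR := (nR h).o1
  simp only [List.mem_cons, List.not_mem_nil, or_false] at hi
  rcases hi with rfl | rfl | rfl | rfl | rfl | rfl
  · exact Or.inl rfl
  · change J.o1 (app R (.nil △ (.nil △ (.nil △ .nil)))) = 0 at e
    rw [o1_app, o1_o] at e; omega
  · change J.o1 (app R (.nil △ (.nil △ .nil)) △ .nil) = 0 at e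
    rw [o1_hi (by rw [ht_app]; omega), o1_app, o1_o] at e; omega
  · exact Or.inr rfl
  · change J.o1 (.nil △ (.nil △ (R △ .nil))) = 0 at e
    rw [o1_o] at e; omega
  · change J.o1 ((R △ .nil) △ (.nil △ .nil)) = 0 at e
    rw [o1_hi (by rw [ht_node]; omega), o1_o] at e; omega

theorem w_o12 (h : NodeM k 0 R B S) {i : ℕ} (hi : i ∈ [0, 1, 3, 6, 8, 9])
    (e : J.o1 (H1.W R (H1.ch (0 + 1)) B S i) = 2) : i = 3 ∨ i = 8 := by
  have h1 := h.top
  have hR := (nR h).o1
  have z : J.o1 (BinaryTree.nil : BinaryTree Unit) = 0 := rfl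
  simp only [List.mem_cons, List.not_mem_nil, or_false] at hi
  rcases hi with rfl | rfl | rfl | rfl | rfl | rfl
  · change J.o1 (app R (((.nil △ .nil) △ .nil) △ .nil)) = 2 at e
    rw [o1_app, o1_hi (by rw [ht_node, ht_node]; omega), o1_l1] at e; omega
  · change J.o1 (app R (.nil △ (.nil △ (.nil △ .nil)))) = 2 at e
    rw [o1_app, o1_o, o1_o, o1_o] at e; omega
  · exact Or.inl rfl
  · change J.o1 (R △ ((.nil △ .nil) △ .nil)) = 2 at e
    rw [o1_hi (by omega), o1_l1] at e; omega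
  · exact Or.inr rfl
  · change J.o1 ((R △ .nil) △ (.nil △ .nil)) = 2 at e
    rw [o1_hi (by rw [ht_node]; omega), o1_hi (by omega), o1_o] at e; omega

theorem contR0 (h : NodeM k 0 R B S) : OddHC.cont R ≠ 0 := fun e => h.ne (cont_eq_zero.1 e)

theorem c6 (h : NodeM k 0 R B S) : OddHC.cont (H1.W R (H1.ch (0 + 1)) B S 6) = raise (OddHC.cont R) + {2} := by
  change OddHC.cont (R △ ((.nil △ .nil) △ .nil)) = _
  rw [cont_node, cont_node, cont_node, cont_nil, raise_zero, add_zero, add_zero]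
  rfl

theorem c3 (h : NodeM k 0 R B S) :
    OddHC.cont (H1.W R (H1.ch (0 + 1)) B S 3) = raise (OddHC.cont R) + ({1} + {1}) := by
  change OddHC.cont (app R (.nil △ (.nil △ .nil)) △ .nil) = _
  rw [cont_node, cont_app, cont_node, cont_node, cont_nil, raise_zero, add_zero, add_zero, add_comm (OddHC.cont R),
    raise_add (c := 3) _ (nR h) (contR0 h), add_comm]
  intro x hx
  have : x = 1 := by simpa using hx
  omega

theorem c8 (h : NodeM k 0 R B S) :
    OddHC.cont (H1.W R (H1.ch (0 + 1)) B S 8) = raise (OddHC.cont R) + ({1} + {1}) := by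
  change OddHC.cont (.nil △ (.nil △ (R △ .nil))) = _
  rw [cont_node, cont_node, cont_node, cont_nil, raise_zero, add_zero, ← add_assoc, add_comm]

/-- `T (R' Z)` has long ends -/
theorem ge3_TT {A Z : BinaryTree Unit} {x : X k} (h : hv3 A) (hA : 3 < OddHC.ht A) (hZ : OddHC.ht Z ≤ OddHC.ht A)
    (e : x.1 = app A Z) : Ge3 (TT x).1 := by
  obtain ⟨a, b, h1⟩ := H1.hg_FMT (g := 3) (by omega) (H1.hg_of_cont (by omega) h) (by rw [H1.ht_eq]; exact hA)
  have h2 : H1.FMT 3 x.1 a (b ++ wd Z) := by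
    rw [e]
    exact ⟨h1.fm.app_right (by rw [H1.ht_eq, H1.ht_eq]; exact hZ), h1.up, h1.dn.append _⟩
  obtain ⟨h3, h4⟩ := h2.inner
  exact ge3_inn ⟨le_rfl, h3, h4⟩

/-- **no inner word of a right window is a word of J3V, with the exception of `((S')B')` and `(S'(B'))`** -/
theorem inn_j3 (h : NodeM k 0 R B S) (h' : SqD k R' B' S') (w0 : X k) {i : ℕ} (hi : i ∈ [0, 1, 3, 6, 8, 9])
    {w : X k} (hw : w = TT (H1.wX R B S 0 w0 i)) {j : ℕ} (hj : j < 20) (h9 : j ≠ 9)
    (e : w.1 = H1.W R' .nil B' S' j) : (i = 0 ∨ i = 6) ∧ (j = 17 ∨ (j = 19 ∧ B' ≠ .nil)) := by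
  have hi20 : i < 20 := by
    simp only [List.mem_cons, List.not_mem_nil, or_false] at hi
    omega
  have hW := H1.wX_eq h.dat h.size w0 hi20
  have hg : Ge3 w.1 := by
    rw [hw]
    exact ge3_inn (h.inn w0 hi).1
  have hc : OddHC.cont w.1 = OddHC.cont (H1.W R (H1.ch (0 + 1)) B S i) := by
    rw [hw, H1.cont_TT, hW]
  have htop := h.top
  have hR0 := contR0 h
  have hsup : (raise (OddHC.cont R)).sup = OddHC.ht R + 1 := by
    rw [OddHC.ht_eq]
    unfold raise
    rw [Multiset.sup_cons]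
    apply max_eq_left
    apply Multiset.sup_le.2
    intro x hx
    exact (Multiset.le_sup (Multiset.mem_of_mem_erase hx)).trans (Nat.le_succ _)
  have key : OddHC.cont R' = raise (OddHC.cont R) → hv3 R' ∧ 3 < OddHC.ht R' := by
    intro e1
    constructor
    · intro x hx
      rw [e1] at hx
      exact raise_hv (nR h) hR0 x hx
    · rw [OddHC.ht_eq, e1, hsup]; omega
  have fin : ∀ m, (m, j) ∈ [(0, 10), (1, 11), (3, 12), (6, 15), (8, 14), (9, 17)] →
      Ge3 (TT (sX R' B' S' w m)).1 → i ≠ 0 → False := by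
    intro m hm gy n0
    have e1 := h'.link w hm
    have e2 : sX R' B' S' w j = w := Subtype.ext (by rw [h'.word w hj, e])
    have e3 : H1.wX R B S 0 w0 i = TT (sX R' B' S' w m) := TT.injective (by rw [← hw, e1, e2])
    rw [← e3, hW] at gy
    refine w_small hi20 n0 ?_ ?_ gy
    · rintro rfl; simp at hi
    · rintro rfl; simp at hi
  have hlong := hg
  rw [e] at hlong
  rcases j3_long hj h9 hlong with rfl | rfl | rfl | ⟨rfl, hb⟩
  · exfalso
    have hcc : OddHC.cont w.1 = OddHC.cont R' + {2} := by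
      have := h'.cont10 w
      rwa [h'.word w (by norm_num), ← e] at this
    have ho : J.o1 (H1.W R (H1.ch (0 + 1)) B S i) = 0 := by
      change (OddHC.cont _).count 1 = 0
      rw [← hc, hcc]
      exact h'.onez
    rcases w_o10 h hi ho with rfl | rfl
    · have h2 : 2 ∈ OddHC.cont (H1.W R (H1.ch (0 + 1)) B S 0) := by
        rw [← hc, hcc]
        simp
      rw [H1.cont_W0] at h2
      rcases Multiset.mem_add.1 h2 with h3 | h3
      · have := nR h 2 h3; omega
      · simp at h3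
    · have h1 : OddHC.cont R' = raise (OddHC.cont R) := by
        rw [hc, c6 h] at hcc
        exact (add_right_cancel hcc).symm
      obtain ⟨h2, h3⟩ := key h1
      exact fin 0 (by simp) (ge3_TT (Z := (.nil △ .nil) △ .nil) h2 h3 (by
        change 2 ≤ _
        omega) (h'.word w (by norm_num))) (by norm_num)
  · exfalso
    have hcc : OddHC.cont w.1 = OddHC.cont R' + ({1} + {1}) := by
      have h1 := h'.cont1 w
      rw [cont_same (h'.same w (i := 1) (j := 11) (by simp))] at h1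
      rwa [h'.word w (by norm_num), ← e] at h1
    have ho : J.o1 (H1.W R (H1.ch (0 + 1)) B S i) = 2 := by
      change (OddHC.cont _).count 1 = 2
      rw [← hc, hcc]
      exact h'.oney
    have h1 : OddHC.cont R' = raise (OddHC.cont R) := by
      rcases w_o12 h hi ho with rfl | rfl
      · rw [hc, c3 h] at hcc
        exact (add_right_cancel hcc).symm
      · rw [hc, c8 h] at hcc
        exact (add_right_cancel hcc).symm
    obtain ⟨h2, h3⟩ := key h1
    refine fin 1 (by simp) (ge3_TT (Z := .nil △ (.nil △ .nil)) h2 h3 (by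
      change 1 ≤ _
      omega) (h'.word w (by norm_num))) ?_
    rintro rfl
    rcases w_o12 h hi ho with h4 | h4 <;> omega
  · refine ⟨?_, Or.inl rfl⟩
    apply w_o10 h hi
    change (OddHC.cont _).count 1 = 0
    rw [← hc, e]
    have e1 : J.o1 ((S' △ B') △ .nil) = 0 := by
      have h1 := h'.h3
      have h2 := h'.htS
      rw [o1_hi (by rw [ht_node]; omega), o1_hi (by omega)]
      have h3 : J.o1 S' = 0 := h'.oneS
      have h4 : J.o1 B' = 0 := h'.oneB
      rw [h3, h4]; rfl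
    exact e1
  · refine ⟨?_, Or.inr ⟨rfl, hb⟩⟩
    apply w_o10 h hi
    change (OddHC.cont _).count 1 = 0
    rw [← hc, e]
    have e1 : J.o1 (app S' (B' △ .nil) △ .nil) = 0 := by
      have h1 := h'.h3
      have h2 := h'.htS
      have h4 : J.o1 B' = 0 := h'.oneB
      have h5 : 2 ≤ OddHC.ht B' := by
        rw [OddHC.ht_eq]
        exact J3.two_le h'.oneB hb
      rw [o1_hi (by rw [ht_app]; omega), o1_app, o1_hi h5]
      have h3 : J.o1 S' = 0 := h'.oneS
      rw [h3, h4]; rfl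
    exact e1

end J59

open J J59 J3

variable {k : ℕ} {F F' : Set (Cyc k)} {g g' : DG k}

/-- the data of a right window, both types -/
theorem J59.rwords (h : TyR3 F g ∨ TyS3 F g) {w : X k} (hw : w ∈ g.B) : ∃ (R B S : BinaryTree Unit) (w0 : X k) (i : ℕ),
    NodeM k 0 R B S ∧ ClR B S ∧ i < 20 ∧ w = H1.wX R B S 0 w0 i ∧ cyc (H1.wX R B S 0 w0 0) ∈ F := by
  rcases h with h | h
  · obtain ⟨R, B, S, w0, i, h1, -, hc, hi, e, hF⟩ := h.words w hw
    exact ⟨R, B, S, w0, i, h1, hc, hi, e, hF⟩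
  · obtain ⟨R, B, S, w0, i, h1, hc, hi, -, e, hF⟩ := h.words w hw
    exact ⟨R, B, S, w0, i, h1, hc, hi, e, hF⟩

/-- **W-R3-J3V, W-S3-J3V: a common word only if the word `R'` of the gadget J3V is `(R)`, `(S)B` or `S(B)` for the phase
`R[3]` of the window, or `B' = nil` and `S'` is one of these three words** -/
theorem R3S3.common_J3V (h : TyR3 F g ∨ TyS3 F g) (h' : TyJ3V F' g') {w : X k} (hw : w ∈ g.B) (hw' : w ∈ g'.B) :
    ∃ (R B S R' B' S' : BinaryTree Unit) (w0 w0' : X k), NodeM k 0 R B S ∧ ClR B S ∧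
      cyc (H1.wX R B S 0 w0 0) ∈ F ∧ SqD k R' B' S' ∧ J3OK R' B' S' w0' ∧
      F' = {cyc (sX R' B' S' w0' 0), cyc (sX R' B' S' w0' 1), cyc (sX R' B' S' w0' 2)} ∧
      g' = gadS (sX R' B' S' w0') ∧
      ((R' = R △ .nil ∨ R' = S △ B ∨ R' = app S (B △ .nil)) ∨
        (B' = .nil ∧ (S' = R △ .nil ∨ S' = S △ B ∨ S' = app S (B △ .nil)))) := by
  obtain ⟨R, B, S, w0, i, h1, hc, hi, e, hF⟩ := J59.rwords h hw
  obtain ⟨R', B', S', w0', h2, hp, hF', hg'⟩ := h'
  rw [hg'] at hw'
  obtain ⟨j, hj, h9, e'⟩ := mem_gadS.1 hw'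
  have e2 : H1.W R (H1.ch (0 + 1)) B S i = H1.W R' .nil B' S' j := by
    rw [← H1.wX_eq h1.dat h1.size w0 hi, ← h2.word w0' hj, ← e, e']
  refine ⟨R, B, S, R', B', S', w0, w0', h1, hc, hF, h2, hp, hF', hg', ?_⟩
  rcases rW h2 h1 hi hj h9 e2 with h3 | h3 | h3 | h3
  · exact Or.inl (Or.inl h3)
  · exact Or.inl (Or.inr (Or.inl h3))
  · exact Or.inl (Or.inr (Or.inr h3))
  · exact Or.inr h3

/-- **I-R3-J3V, I-S3-J3V: an inner word of a right window is a word of J3V only if it is `((S')B')` or `(S'(B'))`,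
`B' ≠ nil`; it is then the inner word of the arc of the word 0 or 6** -/
theorem R3S3.inner_J3V (h : TyR3 F g ∨ TyS3 F g) (h' : TyJ3V F' g') {a : X k × X k} (ha : a ∈ g.arcs) {w : X k}
    (hw : w ∈ innA a) (hw' : w ∈ g'.B) :
    ∃ (R B S R' B' S' : BinaryTree Unit) (w0 w0' : X k) (i : ℕ), NodeM k 0 R B S ∧ ClR B S ∧
      cyc (H1.wX R B S 0 w0 0) ∈ F ∧ SqD k R' B' S' ∧ J3OK R' B' S' w0' ∧
      F' = {cyc (sX R' B' S' w0' 0), cyc (sX R' B' S' w0' 1), cyc (sX R' B' S' w0' 2)} ∧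
      g' = gadS (sX R' B' S' w0') ∧ (i = 0 ∨ i = 6) ∧ w = TT (H1.wX R B S 0 w0 i) ∧
      (w.1 = (S' △ B') △ .nil ∨ (w.1 = app S' (B' △ .nil) △ .nil ∧ B' ≠ .nil)) := by
  obtain ⟨R, B, S, w0, i, h1, hc, hi, e, hF⟩ : ∃ (R B S : BinaryTree Unit) (w0 : X k) (i : ℕ),
      NodeM k 0 R B S ∧ ClR B S ∧ i ∈ [0, 1, 3, 6, 8, 9] ∧ a.1 = H1.wX R B S 0 w0 i ∧
      cyc (H1.wX R B S 0 w0 0) ∈ F := by
    rcases h with h | h
    · obtain ⟨R, B, S, w0, i, h1, -, hc, hi, e, hF⟩ := h.inn a ha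
      exact ⟨R, B, S, w0, i, h1, hc, hi, e, hF⟩
    · obtain ⟨R, B, S, w0, i, h1, hc, hi, e, hF⟩ := h.inn a ha
      refine ⟨R, B, S, w0, i, h1, hc, ?_, e, hF⟩
      simp only [List.mem_cons, List.not_mem_nil, or_false] at hi ⊢
      omega
  obtain ⟨R', B', S', w0', h2, hp, hF', hg'⟩ := h'
  rw [hg'] at hw'
  obtain ⟨j, hj, h9, e'⟩ := mem_gadS.1 hw'
  have hw2 : w = TT (H1.wX R B S 0 w0 i) := by
    have h3 : w = TT a.1 := hw
    rw [h3, e]
  have e2 : w.1 = H1.W R' .nil B' S' j := by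
    rw [← h2.word w0' hj, e']
  obtain ⟨h3, h4⟩ := J59.inn_j3 h1 h2 w0 hi hw2 hj h9 e2
  refine ⟨R, B, S, R', B', S', w0, w0', i, h1, hc, hF, h2, hp, hF', hg', h3, hw2, ?_⟩
  rcases h4 with rfl | ⟨rfl, hb⟩
  · exact Or.inl e2
  · exact Or.inr ⟨e2, hb⟩

end Pool.OddHC
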