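import Pool.Agent.Work.MP_8f87b2_h59.RqEJ
import Pool.Agent.Work.MP_8f87b2_h73.Row2
import Pool.Agent.Work.MP_8f87b2_fin.Asm

/-!
# MP_8f87b2_co: the right bare windows against the top, the layer `k - 4` and the bottom

`Rq`, `Sq` (every `q`), `RqE`, the marriage B over a bare node: `FreeTop` for the words and the inner words, and the bottom.
-/

set_option autoImplicit false
set_option linter.all false

namespace Pool.OddHC

open Finset Equiv BinaryTree Pool.Agent.Work.MP_8f87b2_co HM

namespace J59

open T4

variable {k n q : ℕ} {R B S : BinaryTree Unit}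

/-! ### A list with `1101` -/

/-- `1101` occurs -/
def hs : List Bool → Bool
  | true :: true :: false :: true :: _ => true
  | _ :: l => hs l
  | [] => false

theorem hs_cons {x : Bool} {l : List Bool} (h : hs l = true) : hs (x :: l) = true := by
  rw [hs.eq_def]
  split
  · rfl
  · rename_i heq
    injection heq with h1 h2
    rw [← h2]
    exact h
  · rename_i heq
    cases heq

theorem hs_app (u v : List Bool) : hs (u ++ true :: true :: false :: true :: v) = true := by
  induction u with
  | nil => rfl
  | cons x u ih => exact hs_cons ih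

theorem hs_false (l : List Bool) : hs (false :: l) = hs l := by
  rw [hs]
  simp

theorem hs_rep_false (m : ℕ) (l : List Bool) : hs (List.replicate m false ++ l) = hs l := by
  induction m with
  | zero => rfl
  | succ m ih =>
    rw [List.replicate_succ, List.cons_append, hs_false, ih]

/-- a block of ones before two zeros -/
theorem hs_rep_true (m : ℕ) (l : List Bool) : hs (List.replicate m true ++ false :: false :: l) = hs l := by
  induction m with
  | zero =>
    change hs (false :: false :: l) = _
    rw [hs_false, hs_false]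
  | succ m ih =>
    rw [← ih]
    rcases m with _ | _ | m
    · change hs (true :: false :: false :: l) = hs (false :: false :: l)
      rw [hs]
      simp
    · change hs (true :: true :: false :: false :: l) = hs (true :: false :: false :: l)
      rw [hs]
      simp
    · change hs (true :: true :: true :: (List.replicate m true ++ false :: false :: l)) =
        hs (true :: true :: (List.replicate m true ++ false :: false :: l))
      rw [hs]
      simp

/-- a tower -/
theorem hs_pw (m : ℕ) (l : List Bool) : hs (wd (pw (m + 2)) ++ l) = hs l := by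
  rw [wd_pw, List.append_assoc, List.replicate_succ (n := m + 1) (a := false), List.replicate_succ (n := m) (a := false),
    List.cons_append, List.cons_append, hs_rep_true, hs_rep_false]

/-- the words of the layer with three parts, no part 2 and `1101`: none -/
theorem WAll_three (hn : 3 ≤ n) {w : X (n + 2 + 5)} (h : w ∈ WAll n) (h3 : OddHC.ht w.1 = n + 3) (hp : pkn w.1 = 3)
    (h2 : 2 ∉ OddHC.cont w.1) (hh : hs (wd w.1) = true) : False := by
  rcases h with ⟨q, h⟩ | h | ⟨a, ha, h⟩ | h | h | h | h | h | ⟨i, hi, -, rfl⟩ | ⟨q, hq, i, hi, rfl⟩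
  · have := numH h.1; omega
  · rcases numP (by omega) h with a | a | ⟨-, -, rfl⟩
    · omega
    · omega
    · have e : wd (pC n).1 = [true, true, true, false, false, false] ++ (true :: false :: (wd (pw (n + 1 + 2)) ++ [])) := by
        change wd (app (pw 3) (.nil △ pw (n + 3))) = _
        rw [wd_app, wd_node, List.append_nil]
        rfl
      rw [e] at hh
      have e2 : hs ([true, true, true, false, false, false] ++ (true :: false :: (wd (pw (n + 1 + 2)) ++ []))) =
          hs (true :: false :: (wd (pw (n + 1 + 2)) ++ [])) := hs_rep_true 3 _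
      rw [e2] at hh
      have e3 : hs (true :: false :: (wd (pw (n + 1 + 2)) ++ [])) = hs (false :: (wd (pw (n + 1 + 2)) ++ [])) := by
        rw [hs]
        simp
      rw [e3, hs_false, hs_pw] at hh
      exact absurd hh (by decide)
  · have := numE h; omega
  · rcases h with rfl | rfl | rfl
    · have := kA_inv n; omega
    · apply h2
      change 2 ∈ OddHC.cont (app (S0 n) ((.nil △ .nil) △ .nil))
      rw [cont_app, Multiset.mem_add]
      exact Or.inr (by decide)
    · have := kC_inv n; omega
  · rcases numL h with a | a | a <;> omega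
  · rcases numM h with a | a | a <;> omega
  · rcases numHr h with a | a | a <;> omega
  · rcases numHl h with a | a | a <;> omega
  · have hv := wr_inv (n := n) (by omega) i hi
    have v1 := congrArg Prod.fst hv
    have v2 := congrArg Prod.snd hv
    change OddHC.ht _ = _ at v1
    change pkn _ = _ at v2
    rw [v1] at h3
    rw [v2] at hp
    have m2 : 2 ∈ raise (OddHC.cont (.nil △ .nil)) := by decide
    have up : ∀ A Y : BinaryTree Unit, 2 ∈ raise (OddHC.cont A) → 2 ∈ OddHC.cont (A △ Y) := by
      intro A Y h
      rw [cont_node]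
      exact Multiset.mem_add.2 (Or.inl h)
    have rt : ∀ A Y : BinaryTree Unit, 2 ∈ OddHC.cont Y → 2 ∈ OddHC.cont (A △ Y) := by
      intro A Y h
      rw [cont_node]
      exact Multiset.mem_add.2 (Or.inr h)
    interval_cases i <;> (try simp [hr] at h3) <;> (try simp [hr] at hp)
    · exact h2 (rt _ _ (up _ _ m2))
    · exact h2 (up _ _ m2)
    · exact h2 (up _ _ m2)
    · have e : wd (wr n 13).1 = wd (pw (n + 1 + 2)) ++ [true, true, true, false, false, true, false, false] := by
        change wd (pw (n + 2) △ (((.nil △ .nil) △ (.nil △ .nil)) △ .nil)) = wd (pw (n + 2) △ .nil) ++ _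
        simp [wd_node, wd]
      rw [e, hs_pw] at hh
      exact absurd hh (by decide)
    · have e : wd (wr n 16).1 = wd (pw (n + 1 + 2)) ++ [true, true, true, false, false, false, true, false] := by
        change wd (pw (n + 2) △ (((.nil △ .nil) △ .nil) △ (.nil △ .nil))) = wd (pw (n + 2) △ .nil) ++ _
        simp [wd_node, wd]
      rw [e, hs_pw] at hh
      exact absurd hh (by decide)
    · have e : wd (wr n 18).1 = true :: false :: (wd (pw (n + 1 + 2)) ++ [true, true, true, false, false, false]) := by
        change wd (.nil △ (pw (n + 2) △ (((.nil △ .nil) △ .nil) △ .nil))) = true :: false :: (wd (pw (n + 2) △ .nil) ++ _)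
        simp [wd_node, wd]
      have e3 : ∀ l, hs (true :: false :: l) = hs (false :: l) := by
        intro l
        rw [hs]
        simp
      rw [e, e3, hs_false, hs_pw] at hh
      exact absurd hh (by decide)
  · have hv := xt_inv (n := n) hi hq
    have v1 := congrArg Prod.fst hv
    have v2 := congrArg Prod.snd hv
    change OddHC.ht _ = _ at v1
    change pkn _ = _ at v2
    rw [v1] at h3
    rw [v2] at hp
    rw [xt_val hi (by omega)] at h2
    interval_cases i <;> (try simp [shi] at h3) <;> (try simp [shi] at hp)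
    · apply h2
      rw [sh_7, cont_app, Multiset.mem_add]
      exact Or.inr (by decide)
    · apply h2
      rw [sh_9, cont_node, Multiset.mem_add]
      exact Or.inl (by decide)

theorem not_raise2 {M : Multiset ℕ} (h3 : 3 ≤ M.sup) (h : 2 ∉ M) : 2 ∉ raise M := by
  intro h1
  unfold raise at h1
  rcases Multiset.mem_cons.1 h1 with h1 | h1
  · omega
  · exact h (Multiset.mem_of_mem_erase h1)

/-! ### Bare nodes -/

/-- a node of height `k - 6` -/
theorem node6 (h : NodeM (n + 2 + 5) q R B S) : OddHC.ht R ≤ n + 1 ∧ (OddHC.ht R = n + 1 → q = 0 ∧ pkn R = 2) := by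
  have h1 := h.size
  have h2 := h.top
  have c2 := cont_sum R
  have h0 : OddHC.cont R ≠ 0 := by
    intro h0
    rw [OddHC.ht_eq, h0] at h2
    exact absurd h2 (by simp)
  have hm : OddHC.ht R ∈ OddHC.cont R := by
    rw [OddHC.ht_eq]
    exact sup_mem h0
  obtain ⟨M, hM⟩ := Multiset.exists_cons_of_mem hm
  rcases h.memw with h3 | ⟨hq, hc, h3⟩
  · have h4 : q + 3 ∈ M := by
      rw [hM, Multiset.mem_cons] at h3
      rcases h3 with h3 | h3
      · omega
      · exact h3
    obtain ⟨M', hM'⟩ := Multiset.exists_cons_of_mem h4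
    rw [hM, hM', Multiset.sum_cons, Multiset.sum_cons] at c2
    refine ⟨by omega, fun h5 => ?_⟩
    refine ⟨by omega, ?_⟩
    have h6 : M' = 0 := by
      rw [Multiset.eq_zero_iff_forall_notMem]
      intro x hx
      have h7 := Multiset.single_le_sum (by simp) x hx
      have h8 := h.part x (by rw [hM, hM']; exact Multiset.mem_cons_of_mem (Multiset.mem_cons_of_mem hx))
      omega
    rw [← cont_card, hM, hM', h6]
    rfl
  · rw [hM, Multiset.card_cons] at hc
    have h4 : M ≠ 0 := by
      rintro rfl
      simp at hc
    obtain ⟨x, hx⟩ := Multiset.exists_mem_of_ne_zero h4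
    have h5 := h3 x (by rw [hM]; exact Multiset.mem_cons_of_mem hx)
    have h7 := Multiset.single_le_sum (by simp) x hx
    rw [hM, Multiset.sum_cons] at c2
    constructor
    · omega
    · intro h8
      omega

/-- **words against the top** -/
theorem node_top (hn : 3 ≤ n) (h : NodeM (n + 2 + 5) q R B S) (w0 : X (n + 2 + 5)) {i : ℕ} (hi : i < 20) :
    FreeTop n (H1.wX R B S q w0 i) := by
  obtain ⟨h1, h2⟩ := node6 h
  have key := fun ι : Q3 (n + 2) → Q3 (n + 2) => W_free6 hn h.dat (by have := h.size; omega) h1 (fun h3 => by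
    obtain ⟨h4, h5⟩ := h2 h3
    rintro (⟨-, h6⟩ | ⟨h6, -⟩ | ⟨h6, -⟩) <;> omega) hi (H1.wX_eq h.dat h.size w0 hi) (ι := ι)
  exact FreeTop.of (fun ι => (key ι).2) fun h3 => absurd h3 (key id).1

/-- **inner words against the top** -/
theorem node_topI (hn : 3 ≤ n) (h : NodeM (n + 2 + 5) q R B S) (w0 : X (n + 2 + 5)) {i : ℕ} (hi : i < 20) (h17 : i ≠ 17) :
    FreeTop n (TT (H1.wX R B S q w0 i)) := by
  obtain ⟨h1, h2⟩ := node6 h
  have hT : OddHC.ht (TT (H1.wX R B S q w0 i)).1 = OddHC.ht (H1.wX R B S q w0 i).1 := ht_same (same_T _)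
  have hw := H1.wX_eq h.dat h.size w0 hi
  rcases W_low hn h.dat (by have := h.size; omega) h1 hi with h3 | ⟨h3, h4, h5⟩
  · have key : LowW n (TT (H1.wX R B S q w0 i)) := Or.inl (by rw [hT, hw]; exact h3)
    exact FreeTop.of (fun ι => (key.free (by omega)).2) fun h3 => absurd h3 (key.free (by omega) (ι := id)).1
  · rcases h4 with rfl | rfl
    · obtain ⟨rfl, hp⟩ := h2 h3
      have hta : OddHC.ht (TT (H1.wX R B S 0 w0 9)).1 = n + 3 := by rw [hT, hw, h5]
      apply FreeTop.of
      · intro ι h6
        have := top_low h6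
        omega
      · intro h6
        exfalso
        have eW : (H1.wX R B S 0 w0 9).1 = (R △ .nil) △ (.nil △ .nil) := hw
        have hc : OddHC.cont (TT (H1.wX R B S 0 w0 9)).1 = raise (raise (OddHC.cont R)) + {1} := by
          rw [H1.cont_TT, eW, cont_node, cont_node, cont_node, cont_nil, add_zero, add_zero, raise_zero]
        refine WAll_three hn h6 hta ?_ ?_ ?_
        · rw [← cont_card, hc, Multiset.card_add]
          have r1 : ∀ M : Multiset ℕ, M ≠ 0 → Multiset.card (raise M) = Multiset.card M := by
            intro M hM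
            unfold raise
            rw [Multiset.card_cons, Multiset.card_erase_of_mem (sup_mem hM), Nat.pred_eq_sub_one]
            have := Multiset.card_pos.2 hM
            omega
          have n1 : OddHC.cont R ≠ 0 := by
            intro h0
            have := cont_card R
            rw [h0, hp] at this
            exact absurd this (by decide)
          have n2 : raise (OddHC.cont R) ≠ 0 := by
            unfold raise
            exact Multiset.cons_ne_zero
          rw [r1 _ n2, r1 _ n1, cont_card, hp]
          rfl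
        · rw [hc, Multiset.mem_add, not_or]
          constructor
          · have s1 : (OddHC.cont R).sup = n + 1 := by rw [← OddHC.ht_eq, h3]
            have s2 : (raise (OddHC.cont R)).sup = n + 2 := by
              have := ht_node R .nil
              have e0 : OddHC.ht (R △ .nil) = n + 2 := by
                rw [ht_node, h3]
                have : OddHC.ht (BinaryTree.nil : BinaryTree Unit) = 0 := rfl
                omega
              rw [OddHC.ht_eq, cont_node, cont_nil, add_zero] at e0
              exact e0
            apply not_raise2 (by omega)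
            apply not_raise2 (by omega)
            intro h7
            have := h.part 2 h7
            omega
          · simp
        · obtain ⟨a, b, f⟩ := H1.hg_FMT (g := 3) (by omega) (H1.hg_of_cont (by omega) (nR h)) (by
            rw [H1.ht_eq, h3]; omega)
          have t0 : Tsq.ht R = n + 1 := by rw [H1.ht_eq, h3]
          have tn : Tsq.ht (.nil : BinaryTree Unit) = 0 := rfl
          have f2 := f.fm.node (Z := .nil) (by omega)
          have t1 : Tsq.ht (R △ .nil) = n + 2 := by rw [Tsq.ht_node, t0, tn]; omega
          have t2 : Tsq.ht (.nil △ .nil : BinaryTree Unit) = 1 := rfl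
          have f3 := f2.node (Z := .nil △ .nil) (by omega)
          rw [← eW] at f3
          have eT := f3.wdT
          rw [eT]
          have e1 : ((b ++ false :: wd (.nil : BinaryTree Unit)) ++ false :: wd (.nil △ .nil : BinaryTree Unit)).map not ++
              false :: (true :: true :: a).map not =
              b.map not ++ true :: true :: false :: true :: (false :: (true :: true :: a).map not) := by
            simp [wd_node, wd]
          rw [e1]
          exact hs_app _ _
    · exact absurd rfl h17

theorem ht_W_ge {Q : BinaryTree Unit} (hS : OddHC.ht S = OddHC.ht R) {i : ℕ} (hi : i < 20) :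
    OddHC.ht R ≤ OddHC.ht (H1.W R Q B S i) := by
  interval_cases i <;> simp only [H1.W, ht_app, ht_node] <;> omega

/-- **the bottom** -/
theorem node_bot {s : Bool} (h : NodeM k q R B S) (w0 : X k) {i : ℕ} (hi : i < 20) :
    H1.wX R B S q w0 i ∉ botW k s := by
  intro hw
  have h1 := botW_ht hw
  rw [H1.wX_eq h.dat h.size w0 hi] at h1
  have h2 := h.top
  have h3 := h.dat.htS
  have h4 := ht_W_ge (B := B) (Q := H1.ch (q + 1)) h3 hi
  omega

end J59

open J59 J3

/-! ### The rows -/

/-- **R, S: top** -/
theorem TyRq.top {n q : ℕ} {F : Set (Cyc (n + 2 + 5))} {g : DG (n + 2 + 5)} (hn : 3 ≤ n)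
    (h : TyRq q F g ∨ TySq q F g) : ∀ w ∈ g.B, FreeTop n w := by
  intro w hw
  obtain ⟨R, B, S, w0, i, h1, hi, rfl⟩ := rqwords h hw
  exact node_top hn h1 w0 hi

/-- **R, S: inner words, top** -/
theorem TyRq.topI {n q : ℕ} {F : Set (Cyc (n + 2 + 5))} {g : DG (n + 2 + 5)} (hn : 3 ≤ n)
    (h : TyRq q F g ∨ TySq q F g) : ∀ a ∈ g.arcs, ∀ w ∈ innA a, FreeTop n w := by
  intro a ha w hw
  obtain ⟨R, B, S, w0, i, h1, hi, rfl⟩ := rqinn h ha hw
  simp only [List.mem_cons, List.not_mem_nil, or_false] at hi
  exact node_topI hn h1 w0 (by omega) (by omega)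

/-- **R, S: bottom** -/
theorem TyRq.bot {k q : ℕ} {F : Set (Cyc k)} {g : DG k} {s : Bool} (h : TyRq q F g ∨ TySq q F g) :
    ∀ w ∈ g.B, w ∉ botW k s := by
  intro w hw
  obtain ⟨R, B, S, w0, i, h1, hi, rfl⟩ := rqwords h hw
  exact node_bot h1 w0 hi

/-- **RE: top** -/
theorem TyRqE.top {n q : ℕ} {F : Set (Cyc (n + 2 + 5))} {g : DG (n + 2 + 5)} (hn : 3 ≤ n)
    (h : TyRqE q F g) : ∀ w ∈ g.B, FreeTop n w := by
  intro w hw
  obtain ⟨R, B, S, w0, i, h1, hi, rfl, -⟩ := h.words' w hw
  exact node_top hn h1 w0 hi

/-- **RE: inner words, top** -/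
theorem TyRqE.topI {n q : ℕ} {F : Set (Cyc (n + 2 + 5))} {g : DG (n + 2 + 5)} (hn : 3 ≤ n)
    (h : TyRqE q F g) : ∀ a ∈ g.arcs, ∀ w ∈ innA a, FreeTop n w := by
  intro a ha w hw
  obtain ⟨R, B, S, w0, i, h1, hi, rfl, -⟩ := h.inn0 a ha w hw
  simp only [List.mem_cons, List.not_mem_nil, or_false] at hi
  exact node_topI hn h1 w0 (by omega) (by omega)

/-- **RE: bottom** -/
theorem TyRqE.bot {k q : ℕ} {F : Set (Cyc k)} {g : DG k} {s : Bool} (h : TyRqE q F g) :
    ∀ w ∈ g.B, w ∉ botW k s := by
  intro w hw
  obtain ⟨R, B, S, w0, i, h1, hi, rfl, -⟩ := h.words' w hw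
  exact node_bot h1 w0 hi

/-- **marriage B over a bare node: top** -/
theorem TyMarB.topN {n q : ℕ} {R B S : BinaryTree Unit} {F : Set (Cyc (n + 2 + 5))} {g : DG (n + 2 + 5)} (hn : 3 ≤ n)
    (h1 : NodeM (n + 2 + 5) q R B S) (h : TyMarB B S (H1.ch (q + 1)) F g) : ∀ w ∈ g.B, FreeTop n w := by
  intro w hw
  have key : ∀ i < 20, w.1 = H1.W R (H1.ch (q + 1)) B S i → FreeTop n w := by
    intro i hi e
    have : w = H1.wX R B S q w i := Subtype.ext (e.trans (H1.wX_eq h1.dat h1.size w hi).symm)
    rw [this]
    exact node_top hn h1 w hi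
  rcases h.words w hw with ⟨e, _⟩ | ⟨_, e | e⟩
  · exact key 16 (by norm_num) e
  · exact key 10 (by norm_num) e
  · exact key 15 (by norm_num) e

/-- **marriage B over a bare node: bottom** -/
theorem TyMarB.botN {k q : ℕ} {R B S : BinaryTree Unit} {F : Set (Cyc k)} {g : DG k} {s : Bool}
    (h1 : NodeM k q R B S) (h : TyMarB B S (H1.ch (q + 1)) F g) : ∀ w ∈ g.B, w ∉ botW k s := by
  intro w hw
  have key : ∀ i < 20, w.1 = H1.W R (H1.ch (q + 1)) B S i → w ∉ botW k s := by
    intro i hi e
    have : w = H1.wX R B S q w i := Subtype.ext (e.trans (H1.wX_eq h1.dat h1.size w hi).symm)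
    rw [this]
    exact node_bot h1 w hi
  rcases h.words w hw with ⟨e, _⟩ | ⟨_, e | e⟩
  · exact key 16 (by norm_num) e
  · exact key 10 (by norm_num) e
  · exact key 15 (by norm_num) e

end Pool.OddHC
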